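import Pool.Agent.P.MP_867493_lc.D.Height

/-!
ROW Comm. Without control elements the commutator subgroup is finitely generated.
`fg_step`: choose a finite `Y ⊆ M` with `N = closure (Y ∪ {t})`; `F j = closure {t ^ i y t ^ (-i) | i ≤ j}` (`i j : ℤ`), increasing,
`t F j t⁻¹ = F (j + 1)`, the union is `M`. If `t y t⁻¹ ∉ F 0` for some `y ∈ Y`: `tok_of_height` with the conjugation action on
`G`, `S j = {z | z t⁻¹ ∈ F j}`, `o = u = s = t`, `x = y`. (`h1`: `g t g⁻¹ = m t` with `m = ⁅g, t⁆ ∈ M`; if `m` and all `g y g⁻¹` lie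
in `F c` then `(m t) ^ i t ^ (-i) ∈ F (max i 0 + c)`, so `g (F j) g⁻¹ ≤ F (j + c)` for `j ≥ 0`. `h3` with `c = 0`: for
`p ∈ F J`, `w = p t p⁻¹`: `w t w⁻¹ t⁻¹ = p (t p⁻¹ t⁻¹) (t² p t⁻²) (t p⁻¹ t⁻¹)`.) The same for `t⁻¹`. If neither holds, all
`t y t⁻¹` lie in the closure of the levels `-k .. 0` and all `t⁻¹ y t` in the closure of the levels `0 .. k` for one `k`, so
the closure of the levels `-k .. k` is normalised by `t` and equals `M`.
`commutator_fg`: induction on a list `l`: if `closure (commutator G ∪ l)` is finitely generated, so is `commutator G` (if a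
power of `t` lies in `M` then `M` has finite index in `N`: `Subgroup.fg_of_index_ne_zero` for `M.subgroupOf N`).
-/

set_option autoImplicit false

namespace Pool.Agent.P.MP_867493_lc

variable {G : Type} [Group G]

namespace RComm

open Filter Set

/-- The subgroup generated by the conjugates of `Y` of the levels in `I`. -/
def Lv (t : G) (Y : Set G) (I : Set ℤ) : Subgroup G :=
  Subgroup.closure {x | ∃ i ∈ I, ∃ y ∈ Y, x = t ^ i * y * (t ^ i)⁻¹}

variable {t : G} {Y : Set G} {I I' : Set ℤ} {x : G}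

theorem gen {i : ℤ} (hi : i ∈ I) {y : G} (hy : y ∈ Y) : t ^ i * y * (t ^ i)⁻¹ ∈ Lv t Y I :=
  Subgroup.subset_closure ⟨i, hi, y, hy, rfl⟩

theorem conj_mem {K : Subgroup G} (g : G)
    (h : ∀ i ∈ I, ∀ y ∈ Y, g * (t ^ i * y * (t ^ i)⁻¹) * g⁻¹ ∈ K) (hx : x ∈ Lv t Y I) :
    g * x * g⁻¹ ∈ K := by
  induction hx using Subgroup.closure_induction with
  | mem z hz =>
    obtain ⟨i, hi, y, hy, rfl⟩ := hz
    exact h i hi y hy
  | one => simp
  | mul a b _ _ ha hb =>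
    have : g * (a * b) * g⁻¹ = g * a * g⁻¹ * (g * b * g⁻¹) := by group
    rw [this]; exact K.mul_mem ha hb
  | inv a _ ha =>
    have : g * a⁻¹ * g⁻¹ = (g * a * g⁻¹)⁻¹ := by group
    rw [this]; exact K.inv_mem ha

theorem shift (n : ℤ) (h : ∀ i ∈ I, n + i ∈ I') (hx : x ∈ Lv t Y I) :
    t ^ n * x * (t ^ n)⁻¹ ∈ Lv t Y I' :=
  conj_mem _ (fun i hi y hy => by
    have : t ^ n * (t ^ i * y * (t ^ i)⁻¹) * (t ^ n)⁻¹ = t ^ (n + i) * y * (t ^ (n + i))⁻¹ := by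
      group
    rw [this]; exact gen (h i hi) hy) hx

theorem mono (h : I ⊆ I') (hx : x ∈ Lv t Y I) : x ∈ Lv t Y I' := by
  simpa using shift 0 (fun i hi => by simpa using h hi) hx

theorem up {i j : ℤ} (h : i ≤ j) (hx : x ∈ Lv t Y (Iic i)) : x ∈ Lv t Y (Iic j) :=
  mono (Iic_subset_Iic.2 h) hx

theorem sh (n : ℤ) {i j : ℤ} (h : n + i ≤ j) (hx : x ∈ Lv t Y (Iic i)) :
    t ^ n * x * (t ^ n)⁻¹ ∈ Lv t Y (Iic j) :=
  shift n (fun k hk => by simp only [mem_Iic] at hk ⊢; omega) hx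

theorem neg (h : ∀ i ∈ I, -i ∈ I') (hx : x ∈ Lv t⁻¹ Y I) : x ∈ Lv t Y I' := by
  refine Subgroup.closure_mono ?_ hx
  rintro _ ⟨i, hi, y, hy, rfl⟩
  exact ⟨-i, h i hi, y, hy, by rw [inv_zpow, zpow_neg]⟩

theorem fin (hx : x ∈ Lv t Y I) : ∀ᶠ k : ℕ in atTop, x ∈ Lv t Y (I ∩ Icc (-k : ℤ) k) := by
  induction hx using Subgroup.closure_induction with
  | mem z hz =>
    obtain ⟨i, hi, y, hy, rfl⟩ := hz
    filter_upwards [eventually_ge_atTop i.natAbs] with k hk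
    exact gen (mem_inter hi (mem_Icc.2 ⟨by omega, by omega⟩)) hy
  | one => exact Eventually.of_forall fun _ => Subgroup.one_mem _
  | mul a b _ _ ha hb => filter_upwards [ha, hb] with k h1 h2 using Subgroup.mul_mem _ h1 h2
  | inv a _ ha => filter_upwards [ha] with k h1 using Subgroup.inv_mem _ h1

theorem twist {m : G} {c : ℤ} (hm : m ∈ Lv t Y (Iic c)) (i : ℤ) :
    (m * t) ^ i * (t ^ i)⁻¹ ∈ Lv t Y (Iic (max i 0 + c)) := by
  induction i using Int.induction_on with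
  | zero => simp
  | succ i ih =>
    have : (m * t) ^ ((i : ℤ) + 1) * (t ^ ((i : ℤ) + 1))⁻¹ =
        m * (t ^ (1 : ℤ) * ((m * t) ^ (i : ℤ) * (t ^ (i : ℤ))⁻¹) * (t ^ (1 : ℤ))⁻¹) := by
      rw [add_comm, zpow_one_add, zpow_one]; group
    rw [this]
    exact Subgroup.mul_mem _ (up (by omega) hm) (sh 1 (by omega) ih)
  | pred i ih =>
    have : (m * t) ^ (-(i : ℤ) - 1) * (t ^ (-(i : ℤ) - 1))⁻¹ =
        t ^ (-1 : ℤ) * (m⁻¹ * ((m * t) ^ (-i : ℤ) * (t ^ (-i : ℤ))⁻¹)) * (t ^ (-1 : ℤ))⁻¹ := by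
      rw [sub_eq_neg_add, zpow_add (m * t), zpow_neg_one, mul_inv_rev]; group
    rw [this]
    exact sh (-1) (by omega) (Subgroup.mul_mem _ (Subgroup.inv_mem _ (up (by omega) hm)) ih)

theorem tok (hY : Y.Finite) (hM : commutator G ≤ Lv t Y univ) {y : G} (hy : y ∈ Y)
    (hn : t * y * t⁻¹ ∉ Lv t Y (Iic 0)) : Tok G := by
  have hN := Subgroup.Normal.of_commutator_le G hM
  have hp : ∀ J : ℕ, tk t y J 1 ∈ Lv t Y (Iic J) := fun J => by
    have := gen (t := t) (I := Iic (J : ℤ)) (i := J) (mem_Iic.2 le_rfl) hy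
    simpa [tk] using this
  refine tok_of_height (fun g z => g * z * g⁻¹) (fun z => by simp) (fun g h z => by group)
    (fun j => {z | z * t⁻¹ ∈ Lv t Y (Iic j)}) (fun i j h z hz => up (by exact_mod_cast h) hz) t
    (by simp) t y t (fun g => ?_) ⟨1, fun J j hJ z hz => ?_⟩ ⟨0, fun J j hJ hz => hn ?_⟩
  · have h1 : g * t * g⁻¹ * t⁻¹ ∈ Lv t Y univ :=
      hM (Subgroup.commutator_mem_commutator (Subgroup.mem_top g) (Subgroup.mem_top t))
    have h2 : ∀ᶠ k : ℕ in atTop, ∀ y ∈ Y, g * y * g⁻¹ ∈ Lv t Y (univ ∩ Icc (-k : ℤ) k) :=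
      (eventually_all_finite hY).2 fun y hy =>
        fin (hN.conj_mem y (by simpa using gen (t := t) (mem_univ 0) hy) g)
    obtain ⟨c, h3, h4⟩ := ((fin h1).and h2).exists
    have h5 : univ ∩ Icc (-c : ℤ) c ⊆ Iic (c : ℤ) := fun i hi => hi.2.2
    refine ⟨c, fun j z hz => ?_⟩
    have e : g * z * g⁻¹ * t⁻¹ = g * (z * t⁻¹) * g⁻¹ * (g * t * g⁻¹ * t⁻¹) := by group
    rw [mem_ofPred_eq, e]
    refine Subgroup.mul_mem _ (conj_mem g (fun i hi y hy => ?_) hz)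
      (up (by push_cast; omega) (mono h5 h3))
    have h6 := up (j := ((j + c : ℕ) : ℤ)) (by have := mem_Iic.1 hi; push_cast; omega)
      (twist (mono h5 h3) i)
    rw [inv_mul_cancel_right, conj_zpow] at h6
    have h7 := sh i (j := ((j + c : ℕ) : ℤ)) (by have := mem_Iic.1 hi; push_cast; omega)
      (mono h5 (h4 y hy))
    have e' : g * (t ^ i * y * (t ^ i)⁻¹) * g⁻¹ = g * t ^ i * g⁻¹ * (t ^ i)⁻¹ *
        (t ^ i * (g * y * g⁻¹) * (t ^ i)⁻¹) * (g * t ^ i * g⁻¹ * (t ^ i)⁻¹)⁻¹ := by group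
    rw [e']
    exact Subgroup.mul_mem _ (Subgroup.mul_mem _ h6 h7) (Subgroup.inv_mem _ h6)
  · have key : ∀ p ∈ Lv t Y (Iic J), p * z * p⁻¹ * t⁻¹ ∈ Lv t Y (Iic ((j + 1 : ℕ) : ℤ)) := by
      intro p hp
      have e : p * z * p⁻¹ * t⁻¹ = p * (z * t⁻¹) * (t ^ (1 : ℤ) * p⁻¹ * (t ^ (1 : ℤ))⁻¹) := by
        group
      rw [e]
      exact Subgroup.mul_mem _ (Subgroup.mul_mem _ (up (by push_cast; omega) hp)
        (up (by push_cast; omega) hz)) (sh 1 (by push_cast; omega) (Subgroup.inv_mem _ hp))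
    exact ⟨key _ (hp J), key _ (Subgroup.inv_mem _ (hp J))⟩
  · set p := tk t y J 1 with hpd
    have h1 : p * t * p⁻¹ * t * (p * t * p⁻¹)⁻¹ * t⁻¹ ∈ Lv t Y (Iic ((J : ℤ) + 1)) :=
      up (by omega) hz
    have h2 : p ∈ Lv t Y (Iic ((J : ℤ) + 1)) := up (by omega) (hp J)
    have h3 : t ^ (1 : ℤ) * p * (t ^ (1 : ℤ))⁻¹ ∈ Lv t Y (Iic ((J : ℤ) + 1)) :=
      sh 1 (by omega) (hp J)
    have h4 := sh (-((J : ℤ) + 1)) (j := 0) (by omega) (Subgroup.mul_mem _ (Subgroup.mul_mem _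
      (Subgroup.mul_mem _ h3 (Subgroup.inv_mem _ h2)) h1) h3)
    have e : t ^ (1 : ℤ) * p * (t ^ (1 : ℤ))⁻¹ * p⁻¹ * (p * t * p⁻¹ * t * (p * t * p⁻¹)⁻¹ * t⁻¹) *
        (t ^ (1 : ℤ) * p * (t ^ (1 : ℤ))⁻¹) = t * t * p * t⁻¹ * t⁻¹ := by group
    rw [e, hpd, tk] at h4
    have e' : t ^ (-((J : ℤ) + 1)) * (t * t * (t ^ J * y ^ 1 * (t ^ J)⁻¹) * t⁻¹ * t⁻¹) *
        (t ^ (-((J : ℤ) + 1)))⁻¹ = t * y * t⁻¹ := by group
    rwa [e'] at h4

theorem fg (hY : Y.Finite) (h1 : ∀ y ∈ Y, t * y * t⁻¹ ∈ Lv t Y (Iic 0))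
    (h2 : ∀ y ∈ Y, t⁻¹ * y * t⁻¹⁻¹ ∈ Lv t⁻¹ Y (Iic 0)) : (Lv t Y univ).FG := by
  have h3 : ∀ y ∈ Y, t⁻¹ * y * t⁻¹⁻¹ ∈ Lv t Y (Ici 0) := fun y hy =>
    neg (fun i hi => by simpa using hi) (h2 y hy)
  obtain ⟨k, k1, k2⟩ := (((eventually_all_finite hY).2 fun y hy => fin (h1 y hy)).and
    ((eventually_all_finite hY).2 fun y hy => fin (h3 y hy))).exists
  have u1 : ∀ x ∈ Lv t Y (Icc (-k : ℤ) k), t * x * t⁻¹ ∈ Lv t Y (Icc (-k : ℤ) k) := fun x =>
    conj_mem t fun i hi y hy => by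
      rcases hi.2.eq_or_lt with rfl | h
      · have e : t * (t ^ (k : ℤ) * y * (t ^ (k : ℤ))⁻¹) * t⁻¹ =
            t ^ (k : ℤ) * (t * y * t⁻¹) * (t ^ (k : ℤ))⁻¹ := by group
        rw [e]
        exact shift _ (fun i hi => by
          have := mem_Iic.1 hi.1
          have := hi.2.1
          exact ⟨by omega, by omega⟩) (k1 y hy)
      · have e : t * (t ^ i * y * (t ^ i)⁻¹) * t⁻¹ = t ^ (i + 1) * y * (t ^ (i + 1))⁻¹ := by group
        rw [e]
        exact gen (mem_Icc.2 ⟨by have := hi.1; omega, by omega⟩) hy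
  have u2 : ∀ x ∈ Lv t Y (Icc (-k : ℤ) k), t⁻¹ * x * t⁻¹⁻¹ ∈ Lv t Y (Icc (-k : ℤ) k) := fun x =>
    conj_mem t⁻¹ fun i hi y hy => by
      rcases hi.1.eq_or_lt with rfl | h
      · have e : t⁻¹ * (t ^ (-k : ℤ) * y * (t ^ (-k : ℤ))⁻¹) * t⁻¹⁻¹ =
            t ^ (-k : ℤ) * (t⁻¹ * y * t⁻¹⁻¹) * (t ^ (-k : ℤ))⁻¹ := by group
        rw [e]
        exact shift _ (fun i hi => by
          have := mem_Ici.1 hi.1
          have := hi.2.2
          exact ⟨by omega, by omega⟩) (k2 y hy)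
      · have e : t⁻¹ * (t ^ i * y * (t ^ i)⁻¹) * t⁻¹⁻¹ = t ^ (i - 1) * y * (t ^ (i - 1))⁻¹ := by
          group
        rw [e]
        exact gen (mem_Icc.2 ⟨by omega, by have := hi.2; omega⟩) hy
  have e : Lv t Y (Icc (-k : ℤ) k) = Lv t Y univ := by
    refine le_antisymm (fun x => mono (subset_univ _)) ((Subgroup.closure_le _).2 ?_)
    rintro _ ⟨i, -, y, hy, rfl⟩
    induction i using Int.induction_on with
    | zero => exact gen (mem_Icc.2 ⟨by omega, by omega⟩) hy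
    | succ i ih =>
      have e : t ^ ((i : ℤ) + 1) * y * (t ^ ((i : ℤ) + 1))⁻¹ =
          t * (t ^ (i : ℤ) * y * (t ^ (i : ℤ))⁻¹) * t⁻¹ := by group
      rw [e]; exact u1 _ ih
    | pred i ih =>
      have e : t ^ (-(i : ℤ) - 1) * y * (t ^ (-(i : ℤ) - 1))⁻¹ =
          t⁻¹ * (t ^ (-i : ℤ) * y * (t ^ (-i : ℤ))⁻¹) * t⁻¹⁻¹ := by group
      rw [e]; exact u2 _ ih
  rw [← e]
  refine (Subgroup.fg_iff _).2 ⟨_, rfl, ?_⟩
  refine (((finite_Icc (-k : ℤ) k).prod hY).image fun q => t ^ q.1 * q.2 * (t ^ q.1)⁻¹).subset ?_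
  rintro _ ⟨i, hi, y, hy, rfl⟩
  exact ⟨(i, y), ⟨hi, hy⟩, rfl⟩

theorem form {K : Subgroup G} (hK : ∀ n : ℤ, ∀ x ∈ K, t ^ n * x * (t ^ n)⁻¹ ∈ K) {Z : Set G}
    (hZ : ∀ z ∈ Z, ∃ n : ℤ, z * (t ^ n)⁻¹ ∈ K) (hx : x ∈ Subgroup.closure Z) :
    ∃ n : ℤ, x * (t ^ n)⁻¹ ∈ K := by
  induction hx using Subgroup.closure_induction with
  | mem z hz => exact hZ z hz
  | one => exact ⟨0, by simp⟩
  | mul a b _ _ ha hb =>
    obtain ⟨i, hi⟩ := ha
    obtain ⟨j, hj⟩ := hb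
    refine ⟨i + j, ?_⟩
    have : a * b * (t ^ (i + j))⁻¹ = a * (t ^ i)⁻¹ * (t ^ i * (b * (t ^ j)⁻¹) * (t ^ i)⁻¹) := by
      group
    rw [this]; exact K.mul_mem hi (hK _ _ hj)
  | inv a _ ha =>
    obtain ⟨i, hi⟩ := ha
    refine ⟨-i, ?_⟩
    have : a⁻¹ * (t ^ (-i))⁻¹ = t ^ (-i) * (a * (t ^ i)⁻¹)⁻¹ * (t ^ (-i))⁻¹ := by group
    rw [this]; exact hK _ _ (K.inv_mem hi)

theorem fg_fin (M N : Subgroup G) (hM : commutator G ≤ M) (t : G)
    (hN : N = Subgroup.closure (insert t (M : Set G))) {k : ℤ} (hk : k ≠ 0) (ht : t ^ k ∈ M)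
    (hfg : N.FG) : M.FG := by
  have := Subgroup.Normal.of_commutator_le G hM
  have hle : M ≤ N := fun x hx => hN ▸ Subgroup.subset_closure (mem_insert_of_mem _ hx)
  have h1 : IsOfFinOrder (QuotientGroup.mk' M t) :=
    isOfFinOrder_iff_zpow_eq_one.2 ⟨k, hk, by
      rw [← map_zpow]; exact (QuotientGroup.eq_one_iff _).2 ht⟩
  have h2 : N.map (QuotientGroup.mk' M) ≤ Subgroup.zpowers (QuotientGroup.mk' M t) := by
    rw [Subgroup.map_le_iff_le_comap, hN, Subgroup.closure_le]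
    rintro x (rfl | hx)
    · exact Subgroup.mem_zpowers _
    · have : QuotientGroup.mk' M x = 1 := (QuotientGroup.eq_one_iff _).2 hx
      exact Subgroup.mem_comap.2 (this ▸ Subgroup.one_mem _)
  have h3 : Finite (N.map (QuotientGroup.mk' M)) := (h1.finite_zpowers.subset h2).to_subtype
  have h4 : (M.subgroupOf N).FiniteIndex := ⟨by
    have := Subgroup.relIndex_ker (K := N) (QuotientGroup.mk' M)
    rw [QuotientGroup.ker_mk'] at this
    exact this.trans_ne Nat.card_pos.ne'⟩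
  have := (Group.fg_iff_subgroup_fg N).2 hfg
  have := Subgroup.fg_of_index_ne_zero (M.subgroupOf N)
  exact (Group.fg_iff_subgroup_fg M).1 (Group.fg_of_surjective
    (f := (Subgroup.subgroupOfEquivOfLe hle).toMonoidHom) (Subgroup.subgroupOfEquivOfLe hle).surjective)

end RComm

theorem fg_step (h : ¬ Tok G) (M N : Subgroup G) (hM : commutator G ≤ M) (t : G)
    (hN : N = Subgroup.closure (insert t (M : Set G))) (ht : ∀ k : ℤ, t ^ k ∈ M → k = 0)
    (hfg : N.FG) : M.FG := by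
  have hn := Subgroup.Normal.of_commutator_le G hM
  obtain ⟨Z, hZ, hZf⟩ := (Subgroup.fg_iff N).1 hfg
  have h1 : ∀ z ∈ Z, ∃ n : ℤ, z * (t ^ n)⁻¹ ∈ M := fun z hz =>
    RComm.form (fun n x hx => hn.conj_mem x hx _) (Z := insert t (M : Set G)) (by
      rintro z (rfl | hz)
      · exact ⟨1, by simp⟩
      · exact ⟨0, by simpa using hz⟩) (by rw [← hN, ← hZ]; exact Subgroup.subset_closure hz)
  choose! n hn' using h1
  set Y := (fun z => z * (t ^ n z)⁻¹) '' Z with hY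
  have hYf : Y.Finite := hZf.image _
  have hle : RComm.Lv t Y Set.univ ≤ M := (Subgroup.closure_le _).2 (by
    rintro _ ⟨i, -, _, ⟨z, hz, rfl⟩, rfl⟩
    exact hn.conj_mem _ (hn' z hz) _)
  have e : RComm.Lv t Y Set.univ = M := by
    refine le_antisymm hle fun x hx => ?_
    obtain ⟨i, hi⟩ := RComm.form (t := t) (K := RComm.Lv t Y Set.univ) (x := x)
      (fun n x hx => RComm.shift n (fun _ _ => Set.mem_univ _) hx) (Z := Z)
      (fun z hz => ⟨n z, by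
        simpa using RComm.gen (t := t) (Set.mem_univ 0) (Set.mem_image_of_mem _ hz : _ ∈ Y)⟩)
      (by rw [hZ, hN]; exact Subgroup.subset_closure (Set.mem_insert_of_mem _ hx))
    have h0 : i = 0 := ht i (by simpa using M.mul_mem (M.inv_mem (hle hi)) hx)
    simpa [h0] using hi
  rw [← e] at hM ⊢
  refine RComm.fg hYf (fun y hy => ?_) fun y hy => ?_
  · by_contra hc
    exact h (RComm.tok hYf hM hy hc)
  · by_contra hc
    refine h (RComm.tok hYf (fun x hx => RComm.neg (I := Set.univ) (fun _ _ => Set.mem_univ _) ?_)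
      hy hc)
    rw [inv_inv]
    exact hM hx

theorem commutator_fg [Group.FG G] (h : ¬ Tok G) : (commutator G).FG := by
  obtain ⟨S, hS, hSf⟩ := Group.fg_iff.1 ‹Group.FG G›
  have key : (Subgroup.closure (S ∪ commutator G)).FG → (commutator G).FG := by
    clear hS
    induction S, hSf using Set.Finite.induction_on with
    | empty => simp
    | @insert t S _ _ ih =>
      intro hfg
      have hM : commutator G ≤ Subgroup.closure (S ∪ commutator G) := fun x hx =>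
        Subgroup.subset_closure (Or.inr hx)
      have hN : Subgroup.closure (insert t S ∪ commutator G) =
          Subgroup.closure (insert t (Subgroup.closure (S ∪ commutator G) : Set G)) := by
        rw [Set.insert_union, Set.insert_eq, Set.insert_eq, Subgroup.closure_union,
          Subgroup.closure_union {t}, Subgroup.closure_eq]
      refine ih ?_
      by_cases ht : ∀ k : ℤ, t ^ k ∈ Subgroup.closure (S ∪ commutator G) → k = 0
      · exact fg_step h _ _ hM t hN ht hfg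
      · push Not at ht
        obtain ⟨k, h1, h2⟩ := ht
        exact RComm.fg_fin _ _ hM t hN h2 h1 hfg
  refine key ?_
  rw [Subgroup.closure_union, hS, top_sup_eq]
  exact Group.fg_def.1 ‹_›

end Pool.Agent.P.MP_867493_lc
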