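import Pool.Agent.P.MP_867493_lc.D.IDefs

/-!
ROW Conv. The two path problems reduce to each other.
`lsolv_of_dsolv`: the arc `(u, v, w)` of layer `i` becomes the edge `((i, u), (i + 1, v), w)`; list the edges layer by layer
(`idx`); by induction on the layers (`List.reverseRecOn`, inner induction on the last layer) `h ∈ DP xs (0, s) E (i, v)` iff
`i ≤ ls.length` and `h ∈ LP xs s (ls.take i) v`.
`dsolv_of_lsolv`: code a vertex `(a, b)` by `(a + b) * (a + b) + a` (injective); the edge `e` becomes the layer that consists of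
the arc of `e` and the waiting arcs `(v, v, [])` for all `v` in `V = s :: t :: heads and tails of E`; induction on `E` for
fixed `V` that contains `s` and all heads: `h ∈ DP xs s E v` iff `h ∈ LP xs (code s) ls (code v)`.
-/

set_option autoImplicit false

namespace Pool.Agent.P.MP_867493_lc

open Pool.Agent.Lib.NP

variable {G : Type} [Group G]

namespace RConv

/-- The edges of one layer. -/
def lay (n : ℕ) (l : List Arc) : List Ed := l.map fun a => ((n, a.1), (n + 1, a.2.1), a.2.2)

/-- The edges of all layers. -/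
def edges (ls : List (List Arc)) : List Ed :=
  (List.range ls.length).flatMap fun i => lay i (ls.getD i [])

theorem edges_snoc (ls : List (List Arc)) (l : List Arc) :
    edges (ls ++ [l]) = edges ls ++ lay ls.length l := by
  unfold edges
  rw [List.length_append, List.length_singleton, List.range_succ, List.flatMap_append]
  refine congrArg₂ _ (List.flatMap_congr fun i hi => ?_) (by simp)
  rw [List.getD_append _ _ _ _ (List.mem_range.1 hi)]

theorem mem_lay (xs : List G) (s : Vx) (E : List Ed) (n : ℕ) (l : List Arc) (i v : ℕ) (h : G) :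
    h ∈ DP xs s (E ++ lay n l) (i, v) ↔ h ∈ DP xs s E (i, v) ∨
      (i = n + 1 ∧ ∃ a ∈ l, a.2.1 = v ∧ h * (ev xs a.2.2)⁻¹ ∈ DP xs s E (n, a.1)) := by
  induction l using List.reverseRecOn generalizing i v h with
  | nil => simp [lay]
  | append_singleton l a ih =>
    have e : E ++ lay n (l ++ [a]) = (E ++ lay n l) ++ [((n, a.1), (n + 1, a.2.1), a.2.2)] := by
      simp [lay]
    rw [e, mem_DP_snoc, ih, ih]
    constructor
    · rintro ((h1 | ⟨h1, b, hb, h2⟩) | ⟨h1, h2 | ⟨h2, -⟩⟩)
      · exact Or.inl h1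
      · exact Or.inr ⟨h1, b, List.mem_append_left _ hb, h2⟩
      · obtain ⟨h3, h4⟩ := Prod.mk.inj h1
        exact Or.inr ⟨h3, a, by simp, h4.symm, h2⟩
      · omega
    · rintro (h1 | ⟨h1, b, hb, h2, h3⟩)
      · exact Or.inl (Or.inl h1)
      · rcases List.mem_append.1 hb with hb | hb
        · exact Or.inl (Or.inr ⟨h1, b, hb, h2, h3⟩)
        · obtain rfl : b = a := by simpa using hb
          exact Or.inr ⟨by rw [h1, h2], Or.inl h3⟩

theorem mem_edges (xs : List G) (s : ℕ) (ls : List (List Arc)) :
    (∀ i v h, ls.length < i → h ∉ DP xs (0, s) (edges ls) (i, v)) ∧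
      ∀ v h, h ∈ DP xs (0, s) (edges ls) (ls.length, v) ↔ h ∈ LP xs s ls v := by
  induction ls using List.reverseRecOn with
  | nil =>
    refine ⟨fun i v h hi hh => ?_, fun v h => ?_⟩
    · have := (Prod.mk.inj ((mem_DP_nil xs _ _ _).1 hh).1).1
      omega
    · exact ((mem_DP_nil xs _ _ _).trans (by simp)).trans (mem_LP_nil xs s v h).symm
  | append_singleton ls l ih =>
    rw [edges_snoc, List.length_append, List.length_singleton]
    refine ⟨fun i v h hi hh => ?_, fun v h => ?_⟩
    · rcases (mem_lay xs _ _ _ _ _ _ _).1 hh with h1 | ⟨h1, -⟩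
      · exact ih.1 i v h (by omega) h1
      · omega
    · rw [mem_lay, mem_LP_snoc]
      constructor
      · rintro (h1 | ⟨-, a, ha, h1, h2⟩)
        · exact absurd h1 (ih.1 _ v h (by omega))
        · exact ⟨a, ha, h1, (ih.2 _ _).1 h2⟩
      · rintro ⟨a, ha, h1, h2⟩
        exact Or.inr ⟨rfl, a, ha, h1, (ih.2 _ _).2 h2⟩

/-- A code for the vertices. -/
def code (v : Vx) : ℕ := (v.1 + v.2) * (v.1 + v.2) + v.1

theorem code_inj {u v : Vx} (h : code u = code v) : u = v := by
  obtain ⟨a, b⟩ := u
  obtain ⟨c, d⟩ := v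
  have h : (a + b) * (a + b) + a = (c + d) * (c + d) + c := h
  have h1 : a + b = c + d := by
    rcases lt_trichotomy (a + b) (c + d) with h2 | h2 | h2
    · have := Nat.mul_le_mul h2 h2
      nlinarith
    · exact h2
    · have := Nat.mul_le_mul h2 h2
      nlinarith
  rw [h1] at h
  exact Prod.ext (by simp only; omega) (by simp only; omega)

/-- The layers that simulate the edges. -/
def layers (V : List Vx) (E : List Ed) : List (List Arc) :=
  E.map fun e => (code e.1, code e.2.1, e.2.2) :: V.map fun v => (code v, code v, [])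

theorem head_of_mem (xs : List G) (s : Vx) (E : List Ed) (v : Vx) (h : G) (hh : h ∈ DP xs s E v) :
    v = s ∨ ∃ e ∈ E, e.2.1 = v := by
  induction E using List.reverseRecOn with
  | nil => exact Or.inl ((mem_DP_nil xs _ _ _).1 hh).1
  | append_singleton E e ih =>
    rcases (mem_DP_snoc xs _ _ _ _ _).1 hh with h1 | ⟨h1, -⟩
    · exact (ih h1).imp id fun ⟨e', he, h2⟩ => ⟨e', List.mem_append_left _ he, h2⟩
    · exact Or.inr ⟨e, by simp, h1.symm⟩

theorem mem_layers (xs : List G) (s : Vx) (V : List Vx) (hs : s ∈ V) (E : List Ed)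
    (hE : ∀ e ∈ E, e.2.1 ∈ V) (v : Vx) (h : G) :
    h ∈ LP xs (code s) (layers V E) (code v) ↔ h ∈ DP xs s E v := by
  induction E using List.reverseRecOn generalizing v h with
  | nil =>
    exact (mem_LP_nil xs _ _ _).trans ((and_congr_left' ⟨code_inj, congrArg code⟩).trans
      (mem_DP_nil xs _ _ _).symm)
  | append_singleton E e ih =>
    have hE' : ∀ e' ∈ E, e'.2.1 ∈ V := fun e' he => hE e' (List.mem_append_left _ he)
    have e1 : layers V (E ++ [e]) = layers V E ++
        [(code e.1, code e.2.1, e.2.2) :: V.map fun v => (code v, code v, [])] := by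
      simp [layers]
    rw [e1, mem_LP_snoc, mem_DP_snoc]
    constructor
    · rintro ⟨a, ha, h1, h2⟩
      rcases List.mem_cons.1 ha with rfl | ha
      · exact Or.inr ⟨(code_inj h1).symm, (ih hE' _ _).1 h2⟩
      · obtain ⟨u, -, rfl⟩ := List.mem_map.1 ha
        obtain rfl : u = v := code_inj h1
        exact Or.inl ((ih hE' _ _).1 (by simpa using h2))
    · rintro (h1 | ⟨h1, h2⟩)
      · have hv : v ∈ V := by
          rcases head_of_mem xs s E v h h1 with rfl | ⟨e', he, rfl⟩
          · exact hs
          · exact hE' e' he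
        exact ⟨(code v, code v, []), List.mem_cons_of_mem _ (List.mem_map.2 ⟨v, hv, rfl⟩), rfl,
          by simpa using (ih hE' _ _).2 h1⟩
      · exact ⟨_, List.mem_cons_self, congrArg code h1.symm, (ih hE' _ _).2 h2⟩

end RConv

theorem lsolv_of_dsolv (xs : List G) (h : DSolv xs) : LSolv xs := by
  obtain ⟨sol, hpt, hsol⟩ := h
  refine ⟨fun I => sol ((0, I.1), (I.2.2.length, I.2.1), RConv.edges I.2.2), hpt.comp ?_,
    fun s t ls => (hsol _ _ _).trans ((RConv.mem_edges xs s ls).2 t 1)⟩
  unfold RConv.edges RConv.lay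
  fun_prop

theorem dsolv_of_lsolv (xs : List G) (h : LSolv xs) : DSolv xs := by
  obtain ⟨sol, hpt, hsol⟩ := h
  refine ⟨fun I => sol (RConv.code I.1, RConv.code I.2.1,
      RConv.layers (I.1 :: I.2.2.map fun e => e.2.1) I.2.2), hpt.comp ?_,
    fun s t E => (hsol _ _ _).trans (RConv.mem_layers xs s _ List.mem_cons_self E
      (fun e he => List.mem_cons_of_mem _ (List.mem_map.2 ⟨e, he, rfl⟩)) t 1)⟩
  unfold RConv.layers RConv.code
  fun_prop

end Pool.Agent.P.MP_867493_lc
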