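import Pool.Agent.P.MP_867493_lc.D.IDefs

/-!
ROW Coset. Change of the group.
`orc_sub`: words `W j` over `xs` for `ι ys[j]` (`exists_word`); substitute the letter `(j, b)` by `W.getD j []` or its `invW`.
`lsolv_of_findex`: `r` the index, representatives `t c` (`c < r`, `t 0 = 1`) of the cosets `range ι * t c`. For a letter `l`
(index replaced by `min j xs.length`) and `c < r` choose `c' < r` and a word `w'` over `ys` with
`t c * ev xs [l] * (t c')⁻¹ = ι (ev ys w')`; store the finitely many values in a list (table, `getD`), rewrite a word by a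
left fold (`PT.foldl_add` or `PT.foldl`). The arc `(u, v, w)` becomes the `r` arcs `(u * r + c, v * r + c', w')` of the same
layer. Invariant: for `c < r` and `k : K`, `k ∈ LP ys (s * r) ls' (v * r + c)` iff `ι k * t c ∈ LP xs s ls v`.
-/

set_option autoImplicit false

namespace Pool.Agent.P.MP_867493_lc

open Pool.Agent.Lib.NP

variable {G K : Type} [Group G] [Group K]

namespace RCoset

/-- substitution of words for letters -/
def subW (T T' : List Wd) (w : Wd) : Wd :=
  w.flatMap fun l => bif l.2 then T.getD l.1 [] else T'.getD l.1 []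

theorem pt_subW (T T' : List Wd) : PT (subW T T') := by
  unfold subW
  exact PT.flatMap (f := fun (_ : Wd) (l : ℕ × Bool) => bif l.2 then T.getD l.1 [] else T'.getD l.1 [])
    (by fun_prop) PT.id'

theorem ev_one (xs : List G) (j : ℕ) (b : Bool) :
    ev xs [(j, b)] = if b then xs.getD j 1 else (xs.getD j 1)⁻¹ := by
  simp [ev]

theorem getD_range {α : Type} (f : ℕ → α) (n j : ℕ) (d : α) :
    ((List.range n).map f).getD j d = if j < n then f j else d := by
  by_cases h : j < n
  · simp [h]
  · simp [h]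

theorem sz_getD {α : Type} [Enc α] (l : List α) (n : ℕ) (d : α) :
    sz (l.getD n d) ≤ sz l + sz d := by
  by_cases h : n < l.length
  · have : l.getD n d ∈ l := by
      rw [List.getD_eq_getElem _ _ h]; exact List.getElem_mem h
    have := sz_le_of_mem this
    omega
  · rw [List.getD_eq_default _ _ (not_lt.1 h)]; omega

/-- look-up in the transition table -/
def look (A B : List (List (ℕ × Wd))) (n c : ℕ) (l : ℕ × Bool) : ℕ × Wd :=
  ((bif l.2 then A else B).getD c []).getD (min l.1 n) (0, [])

/-- rewriting of a word from the coset `c` -/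
def rew (A B : List (List (ℕ × Wd))) (n c : ℕ) (w : Wd) : ℕ × Wd :=
  w.foldl (fun s l => ((look A B n s.1 l).1, s.2 ++ (look A B n s.1 l).2)) (c, [])

theorem sz_look (A B : List (List (ℕ × Wd))) (n c : ℕ) (l : ℕ × Bool) :
    sz (look A B n c l) ≤ sz A + sz B + 1 := by
  unfold look
  have h1 := sz_getD ((bif l.2 then A else B).getD c []) (min l.1 n) ((0, []) : ℕ × Wd)
  have h2 := sz_getD (bif l.2 then A else B) c []
  have h3 : sz (bif l.2 then A else B) ≤ sz A + sz B := by
    cases l.2 <;> simp
  have h4 : sz ((0, []) : ℕ × Wd) = 1 := by simp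
  have h5 : sz ([] : List (ℕ × Wd)) = 0 := by simp
  omega

theorem pt_rew (A B : List (List (ℕ × Wd))) (n : ℕ) :
    PT fun p : ℕ × Wd => rew A B n p.1 p.2 := by
  unfold rew
  refine PT.foldl_add
    (f := fun (_ : ℕ × Wd) (s : ℕ × Wd) (l : ℕ × Bool) =>
      ((look A B n s.1 l).1, s.2 ++ (look A B n s.1 l).2))
    (l := fun p => p.2) (s0 := fun p => (p.1, [])) (by unfold look; fun_prop) (by fun_prop)
    (by fun_prop) (Polynomial.C (sz A + sz B + 1)) fun a s b => ?_
  have h := sz_look A B n s.1 b
  obtain ⟨s1, s2⟩ := s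
  rcases hl : look A B n s1 b with ⟨c, w⟩
  rw [hl] at h
  simp only [sz_prod, sz_nat, sz_append, Polynomial.eval_C] at h ⊢
  omega

/-- the arcs of the new layer -/
def layer (A B : List (List (ℕ × Wd))) (n r : ℕ) (l : List Arc) : List Arc :=
  l.flatMap fun a => (List.range r).map fun c =>
    (a.1 * r + c, a.2.1 * r + (rew A B n c a.2.2).1, (rew A B n c a.2.2).2)

theorem pt_layer (A B : List (List (ℕ × Wd))) (n r : ℕ) : PT (layer A B n r) := by
  unfold layer
  have h : PT fun p : (List Arc × Arc) × ℕ => rew A B n p.2 p.1.2.2.2 :=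
    (pt_rew A B n).comp (g := fun p : (List Arc × Arc) × ℕ => (p.2, p.1.2.2.2)) (by fun_prop)
  refine PT.flatMap (f := fun (_ : List Arc) (a : Arc) => (List.range r).map fun c =>
    (a.1 * r + c, a.2.1 * r + (rew A B n c a.2.2).1, (rew A B n c a.2.2).2)) ?_ PT.id'
  refine PT.map (f := fun (p : List Arc × Arc) (c : ℕ) =>
    (p.2.1 * r + c, p.2.2.1 * r + (rew A B n c p.2.2.2).1, (rew A B n c p.2.2.2).2)) ?_
    (by fun_prop)
  exact PT.mk (by fun_prop) (PT.mk (PT.add (by fun_prop) h.fst) h.snd)

theorem exists_reps (ι : K →* G) (hf : ι.range.FiniteIndex) :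
    ∃ (r : ℕ) (t : ℕ → G), 0 < r ∧ t 0 = 1 ∧ (∀ g, ∃ c, c < r ∧ ∃ k, ι k * t c = g) ∧
      ∀ c c' k k', c < r → c' < r → ι k * t c = ι k' * t c' → c = c' := by
  classical
  have hfin : Finite (G ⧸ ι.range) := Subgroup.finite_quotient_of_finiteIndex
  obtain ⟨r, ⟨e0⟩⟩ := Finite.exists_equiv_fin (G ⧸ ι.range)
  have hr : 0 < r := (e0 (QuotientGroup.mk 1)).pos
  let e : (G ⧸ ι.range) ≃ Fin r := e0.trans (Equiv.swap (e0 (QuotientGroup.mk 1)) ⟨0, hr⟩)
  have he : e (QuotientGroup.mk 1) = ⟨0, hr⟩ := Equiv.swap_apply_left _ _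
  have hex : ∀ c : ℕ, ∃ g : G, (c = 0 → g = 1) ∧
      ∀ h : c < r, e (QuotientGroup.mk g⁻¹) = ⟨c, h⟩ := by
    intro c
    by_cases h0 : c = 0
    · subst h0
      exact ⟨1, fun _ => rfl, fun _ => by rw [inv_one]; exact he⟩
    · by_cases h : c < r
      · obtain ⟨g, hg⟩ := QuotientGroup.mk_surjective (e.symm ⟨c, h⟩)
        exact ⟨g⁻¹, fun h' => absurd h' h0, fun _ => by rw [inv_inv, hg, Equiv.apply_symm_apply]⟩
      · exact ⟨1, fun _ => rfl, fun h' => absurd h' h⟩
  choose t ht0 ht using hex
  refine ⟨r, t, hr, ht0 0 rfl, fun g => ?_, fun c c' k k' hc hc' h => ?_⟩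
  · refine ⟨(e (QuotientGroup.mk g⁻¹)).val, (e (QuotientGroup.mk g⁻¹)).isLt, ?_⟩
    have h1 := e.injective (ht _ (e (QuotientGroup.mk g⁻¹)).isLt)
    obtain ⟨k, hk⟩ := QuotientGroup.eq.1 h1.symm
    exact ⟨k, by rw [hk, inv_inv, inv_mul_cancel_right]⟩
  · have h1 : (QuotientGroup.mk (t c)⁻¹ : G ⧸ ι.range) = QuotientGroup.mk (t c')⁻¹ := by
      refine QuotientGroup.eq.2 ⟨k⁻¹ * k', ?_⟩
      rw [map_mul, map_inv, inv_inv, inv_mul_eq_iff_eq_mul, ← mul_assoc, h, mul_inv_cancel_right]
    have h2 := ht c hc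
    rw [h1, ht c' hc'] at h2
    exact (congrArg Fin.val h2).symm

theorem split_eq {r u v c d : ℕ} (hc : c < r) (hd : d < r) (h : u * r + c = v * r + d) :
    u = v ∧ c = d := by
  have hr : 0 < r := by omega
  have h1 : (u * r + c) / r = u := by
    rw [Nat.add_comm, Nat.add_mul_div_right _ _ hr, Nat.div_eq_of_lt hc, Nat.zero_add]
  have h2 : (v * r + d) / r = v := by
    rw [Nat.add_comm, Nat.add_mul_div_right _ _ hr, Nat.div_eq_of_lt hd, Nat.zero_add]
  have h3 : u = v := by rw [← h1, h, h2]
  subst h3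
  exact ⟨rfl, by omega⟩

end RCoset

open RCoset

theorem orc_sub (ι : K →* G) (hι : Function.Injective ι) (xs : List G)
    (hxs : Subgroup.closure {x | x ∈ xs} = ⊤) (ys : List K) (ho : Orc xs) : Orc ys := by
  obtain ⟨f, hf, hs⟩ := ho
  choose W hW using exists_word xs hxs
  let T : List Wd := (List.range ys.length).map fun j => W (ι (ys.getD j 1))
  let T' : List Wd := (List.range ys.length).map fun j => W (ι (ys.getD j 1))⁻¹
  have h1 : ∀ l : ℕ × Bool,
      ev xs (bif l.2 then T.getD l.1 [] else T'.getD l.1 []) = ι (ev ys [l]) := by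
    rintro ⟨j, b⟩
    rw [ev_one]
    by_cases hj : j < ys.length
    · cases b
      · simp only [cond_false, T', getD_range, if_pos hj, hW, Bool.false_eq_true, if_false, map_inv]
      · simp only [cond_true, T, getD_range, if_pos hj, hW, if_true]
    · rw [List.getD_eq_default _ _ (not_lt.1 hj)]
      cases b
      · simp only [cond_false, T', getD_range, if_neg hj, ev_nil, Bool.false_eq_true, if_false,
          inv_one, map_one]
      · simp only [cond_true, T, getD_range, if_neg hj, ev_nil, if_true, map_one]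
  have h2 : ∀ w, ev xs (subW T T' w) = ι (ev ys w) := by
    intro w
    induction w with
    | nil => simp [subW]
    | cons l w ih =>
      rw [ev_cons, map_mul, ← ih, ← h1, ← ev_append]; rfl
  have h3 : ∀ l : List Wd, ((l.map (subW T T')).map (ev xs)).prod = ι (l.map (ev ys)).prod := by
    intro l
    induction l with
    | nil => simp
    | cons w l ih => simp only [List.map_cons, List.prod_cons, map_mul, ih, h2]
  refine ⟨fun I => f (I.1.map (subW T T'), subW T T' I.2), hf.comp (PT.mk
    (PT.map (f := fun (_ : List Wd × Wd) w => subW T T' w)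
      ((pt_subW T T').comp (by fun_prop)) (by fun_prop))
    ((pt_subW T T').comp (by fun_prop))), fun I => ?_⟩
  rw [hs]
  constructor
  · rintro ⟨l, hl, he⟩
    obtain ⟨l', hl', rfl⟩ := List.sublist_map_iff.1 hl
    exact ⟨l', hl', hι (by rw [← h3, he, h2])⟩
  · rintro ⟨l, hl, he⟩
    exact ⟨l.map (subW T T'), hl.map _, by rw [h3, he, h2]⟩

theorem lsolv_of_findex (ι : K →* G) (hι : Function.Injective ι) (hf : ι.range.FiniteIndex)
    (xs : List G) (ys : List K) (hys : Subgroup.closure {y | y ∈ ys} = ⊤) (h : LSolv ys) :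
    LSolv xs := by
  obtain ⟨sol, hsol, hs⟩ := h
  obtain ⟨r, t, hr, ht0, hex, huniq⟩ := exists_reps ι hf
  have hF : ∀ (c : ℕ) (l : ℕ × Bool), ∃ p : ℕ × Wd, p.1 < r ∧
      ι (ev ys p.2) * t p.1 = t c * ev xs [l] := by
    intro c l
    obtain ⟨c', hc', k, hk⟩ := hex (t c * ev xs [l])
    obtain ⟨w, rfl⟩ := exists_word ys hys k
    exact ⟨(c', w), hc', hk⟩
  choose F hF1 hF2 using hF
  let tab : Bool → List (List (ℕ × Wd)) := fun b =>
    (List.range r).map fun c => (List.range (xs.length + 1)).map fun j => F c (j, b)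
  have hlook : ∀ c, c < r → ∀ l : ℕ × Bool,
      (look (tab true) (tab false) xs.length c l).1 < r ∧
      ι (ev ys (look (tab true) (tab false) xs.length c l).2) *
        t (look (tab true) (tab false) xs.length c l).1 = t c * ev xs [l] := by
    rintro c hc ⟨j, b⟩
    have e1 : look (tab true) (tab false) xs.length c (j, b) = F c (min j xs.length, b) := by
      have hm : min j xs.length < xs.length + 1 := Nat.lt_succ_of_le (min_le_right _ _)
      cases b
      · simp only [look, cond_false, tab, getD_range, if_pos hc, if_pos hm]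
      · simp only [look, cond_true, tab, getD_range, if_pos hc, if_pos hm]
    have e2 : ev xs [(min j xs.length, b)] = ev xs [(j, b)] := by
      rcases le_total j xs.length with hj | hj
      · rw [min_eq_left hj]
      · rw [min_eq_right hj, ev_one, ev_one, List.getD_eq_default _ _ hj,
          List.getD_eq_default _ _ le_rfl]
    rw [e1, ← e2]
    exact ⟨hF1 _ _, hF2 _ _⟩
  have hfold : ∀ (w : Wd) (s : ℕ × Wd), s.1 < r →
      (w.foldl (fun s l => ((look (tab true) (tab false) xs.length s.1 l).1,
        s.2 ++ (look (tab true) (tab false) xs.length s.1 l).2)) s).1 < r ∧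
      ι (ev ys (w.foldl (fun s l => ((look (tab true) (tab false) xs.length s.1 l).1,
        s.2 ++ (look (tab true) (tab false) xs.length s.1 l).2)) s).2) *
        t (w.foldl (fun s l => ((look (tab true) (tab false) xs.length s.1 l).1,
          s.2 ++ (look (tab true) (tab false) xs.length s.1 l).2)) s).1 =
        ι (ev ys s.2) * t s.1 * ev xs w := by
    intro w
    induction w with
    | nil => intro s hs; exact ⟨hs, by simp⟩
    | cons l w ih =>
      intro s hs
      obtain ⟨a1, a2⟩ := hlook s.1 hs l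
      obtain ⟨b1, b2⟩ := ih ((look (tab true) (tab false) xs.length s.1 l).1,
        s.2 ++ (look (tab true) (tab false) xs.length s.1 l).2) a1
      refine ⟨b1, ?_⟩
      rw [List.foldl_cons, b2, ev_cons xs l w, ev_append, map_mul, mul_assoc (ι (ev ys s.2)), a2]
      simp only [mul_assoc]
  have hrew : ∀ c, c < r → ∀ w : Wd, (rew (tab true) (tab false) xs.length c w).1 < r ∧
      ι (ev ys (rew (tab true) (tab false) xs.length c w).2) *
        t (rew (tab true) (tab false) xs.length c w).1 = t c * ev xs w := by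
    intro c hc w
    obtain ⟨a1, a2⟩ := hfold w (c, []) hc
    exact ⟨a1, a2.trans (by simp)⟩
  have hinv : ∀ (s : ℕ) (ls : List (List Arc)) (v c : ℕ) (k : K), c < r →
      (k ∈ LP ys (s * r) (ls.map (layer (tab true) (tab false) xs.length r)) (v * r + c) ↔
        ι k * t c ∈ LP xs s ls v) := by
    intro s ls
    induction ls using List.reverseRecOn with
    | nil =>
      intro v c k hc
      rw [List.map_nil, mem_LP_nil, mem_LP_nil]
      constructor
      · rintro ⟨e, rfl⟩
        obtain ⟨rfl, rfl⟩ := split_eq hc hr (e.trans (Nat.add_zero _).symm)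
        exact ⟨rfl, by rw [ht0, map_one, one_mul]⟩
      · rintro ⟨rfl, e⟩
        have h0 : c = 0 := huniq c 0 k 1 hc hr (by rw [e, ht0, map_one, one_mul])
        subst h0
        rw [ht0, mul_one, ← map_one ι] at e
        exact ⟨rfl, hι e⟩
    | append_singleton ls l ih =>
      intro v c k hc
      rw [List.map_append, List.map_singleton, mem_LP_snoc, mem_LP_snoc]
      constructor
      · rintro ⟨a', ha', e, hk⟩
        obtain ⟨a, ha, ha'⟩ := List.mem_flatMap.1 ha'
        obtain ⟨c0, hc0, rfl⟩ := List.mem_map.1 ha'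
        have hc0' := List.mem_range.1 hc0
        obtain ⟨a1, a2⟩ := hrew c0 hc0' a.2.2
        obtain ⟨e1, e2⟩ := split_eq a1 hc e
        refine ⟨a, ha, e1, ?_⟩
        have h1 := (ih a.1 c0 _ hc0').1 hk
        rw [e2] at a2
        have h2 : ι k * t c * (ev xs a.2.2)⁻¹ =
            ι (k * (ev ys (rew (tab true) (tab false) xs.length c0 a.2.2).2)⁻¹) * t c0 := by
          rw [map_mul, map_inv, mul_inv_eq_iff_eq_mul, mul_assoc, ← a2]
          simp only [mul_assoc, inv_mul_cancel_left]
        rw [h2]; exact h1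
      · rintro ⟨a, ha, rfl, hk⟩
        obtain ⟨c0, hc0, k0, hk0⟩ := hex (ι k * t c * (ev xs a.2.2)⁻¹)
        obtain ⟨a1, a2⟩ := hrew c0 hc0 a.2.2
        have h1 : ι k * t c = ι (k0 * ev ys (rew (tab true) (tab false) xs.length c0 a.2.2).2) *
            t (rew (tab true) (tab false) xs.length c0 a.2.2).1 := by
          rw [map_mul, mul_assoc, a2, ← mul_assoc, hk0, inv_mul_cancel_right]
        have h2 := huniq _ _ _ _ hc a1 h1
        rw [← h2] at h1
        have h3 := hι (mul_right_cancel h1)
        refine ⟨_, List.mem_flatMap.2 ⟨a, ha, List.mem_map.2 ⟨c0, List.mem_range.2 hc0, rfl⟩⟩,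
          by rw [← h2], ?_⟩
        rw [← hk0] at hk
        have h4 := (ih a.1 c0 k0 hc0).2 hk
        show k * (ev ys (rew (tab true) (tab false) xs.length c0 a.2.2).2)⁻¹ ∈ _
        rw [h3, mul_inv_cancel_right]
        exact h4
  refine ⟨fun p => sol (p.1 * r, p.2.1 * r, p.2.2.map (layer (tab true) (tab false) xs.length r)),
    hsol.comp (PT.mk (by fun_prop) (PT.mk (by fun_prop)
      (PT.map (f := fun (_ : ℕ × ℕ × List (List Arc)) l =>
        layer (tab true) (tab false) xs.length r l)
        ((pt_layer _ _ _ _).comp (by fun_prop)) (by fun_prop)))), fun s v ls => ?_⟩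
  have h1 := hinv s ls v 0 1 hr
  rw [Nat.add_zero, ht0, map_one, one_mul] at h1
  exact (hs _ _ _).trans h1

end Pool.Agent.P.MP_867493_lc
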