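import Pool.Agent.P.MP_867493_lc.D.Mab
import Pool.Agent.P.MP_867493_lc.D.Comm

/-! Elementary amenable groups without control elements and area functions. -/

set_option autoImplicit false

namespace Pool.Agent.P.MP_867493_lc

namespace REA

/-- The class used in the induction. -/
def Cl (N : Type) [Group N] : Prop :=
  ∀ (H : Type) [Group H] [Group.FG H], ¬ VT H → ∀ R : Subgroup (H × N),
    (∀ h ∈ commutator H, ∃ n, (h, n) ∈ R) →
    ∃ K : Subgroup H, K.FiniteIndex ∧ ∀ a ∈ K, ∀ b ∈ K, (a * b * a⁻¹ * b⁻¹, (1 : N)) ∈ R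

theorem fin (N : Type) [Group N] (hN : Finite N) : Cl N := by
  intro H _ _ h R hR
  choose n hn using hR
  refine comm_le_of_findex (commutator_fg fun h1 => h (VT.of_tok h1))
    (R.comap (MonoidHom.inl H N)) ?_
  have : Finite (commutator H ⧸ (R.comap (MonoidHom.inl H N)).subgroupOf (commutator H)) := by
    refine Finite.of_injective (fun q => n q.out.1 q.out.2) fun q q' hq => ?_
    rw [← q.out_eq, ← q'.out_eq]
    refine QuotientGroup.eq.2 ?_
    have h1 := R.mul_mem (R.inv_mem (hn _ q.out.2)) (hn _ q'.out.2)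
    simp only at hq
    rw [hq] at h1
    simpa [Subgroup.mem_subgroupOf] using h1
  exact Subgroup.index_ne_zero_of_finite

theorem ab (N : Type) [Group N] (hN : ∀ a b : N, a * b = b * a) : Cl N := by
  intro H _ _ h R hR
  let D : Subgroup H := ⁅commutator H, commutator H⁆
  have hD : D ≤ R.comap (MonoidHom.inl H N) := by
    refine Subgroup.commutator_le.2 fun a ha b hb => ?_
    obtain ⟨n, hn⟩ := hR a ha
    obtain ⟨m, hm⟩ := hR b hb
    have h1 := R.mul_mem (R.mul_mem (R.mul_mem hn hm) (R.inv_mem hn)) (R.inv_mem hm)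
    simpa [commutatorElement_def, hN n m] using h1
  have hs := QuotientGroup.mk'_surjective D
  have hv : ¬ VT (H ⧸ D) := fun h1 => h (VT.of_surj _ hs h1)
  have hm : commutator (H ⧸ D) = (commutator H).map (QuotientGroup.mk' D) := by
    have := Subgroup.map_commutator (⊤ : Subgroup H) ⊤ (QuotientGroup.mk' D)
    rw [Subgroup.map_top_of_surjective _ hs] at this
    exact this.symm
  obtain ⟨K, h1, h2⟩ := virtAb_of_mab (H ⧸ D) hv (commutator_fg fun h1 => hv (VT.of_tok h1)) (by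
    rw [hm]
    rintro _ ⟨a, ha, rfl⟩ _ ⟨b, hb, rfl⟩
    rw [← commutatorElement_eq_one_iff_mul_comm, ← map_commutatorElement]
    exact (QuotientGroup.eq_one_iff _).2 (Subgroup.commutator_mem_commutator ha hb))
  refine ⟨K.comap (QuotientGroup.mk' D), ⟨?_⟩, fun a ha b hb => hD ?_⟩
  · rw [Subgroup.index_comap_of_surjective _ hs]; exact h1.1
  · refine (QuotientGroup.eq_one_iff _).1 ?_
    have h3 := h2 _ ha _ hb
    simp only [QuotientGroup.mk'_apply] at h3
    simp [h3]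

theorem inj (N N' : Type) [Group N] [Group N'] (f : N →* N') (hf : Function.Injective f)
    (hN : Cl N') : Cl N := by
  intro H _ _ h R hR
  obtain ⟨K, h1, h2⟩ := hN H h (R.map ((MonoidHom.id H).prodMap f)) fun a ha => by
    obtain ⟨n, hn⟩ := hR a ha
    exact ⟨f n, _, hn, rfl⟩
  refine ⟨K, h1, fun a ha b hb => ?_⟩
  obtain ⟨⟨c, n⟩, h3, h4⟩ := h2 a ha b hb
  obtain ⟨h5, h6⟩ := Prod.ext_iff.1 h4
  have h7 : n = 1 := hf (h6.trans f.map_one.symm)
  rw [h7, show c = a * b * a⁻¹ * b⁻¹ from h5] at h3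
  exact h3

theorem surj (N N' : Type) [Group N] [Group N'] (f : N →* N') (hf : Function.Surjective f)
    (hN : Cl N) : Cl N' := by
  intro H _ _ h R hR
  obtain ⟨K, h1, h2⟩ := hN H h (R.comap ((MonoidHom.id H).prodMap f)) fun a ha => by
    obtain ⟨n, hn⟩ := hR a ha
    obtain ⟨m, rfl⟩ := hf n
    exact ⟨m, hn⟩
  exact ⟨K, h1, fun a ha b hb => by simpa using h2 a ha b hb⟩

theorem ext (N : Type) [Group N] (M : Subgroup N) [M.Normal] (hM : Cl M) (hQ : Cl (N ⧸ M)) :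
    Cl N := by
  intro H _ _ h R hR
  obtain ⟨K, h1, h2⟩ := hQ H h (R.map ((MonoidHom.id H).prodMap (QuotientGroup.mk' M)))
    fun a ha => by
      obtain ⟨n, hn⟩ := hR a ha
      exact ⟨n, _, hn, rfl⟩
  have h3 : commutator K ≤ (R.comap (K.subtype.prodMap M.subtype)).map (MonoidHom.fst K M) := by
    refine Subgroup.commutator_le.2 fun a _ b _ => ?_
    obtain ⟨⟨c, n⟩, h3, h4⟩ := h2 a a.2 b b.2
    obtain ⟨h5, h6⟩ := Prod.ext_iff.1 h4
    refine ⟨(_, ⟨n, (QuotientGroup.eq_one_iff n).1 h6⟩), ?_, rfl⟩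
    rw [show c = _ from h5] at h3
    exact h3
  obtain ⟨L, h4, h5⟩ := hM K (fun h' => h (VT.of_subgroup K h'))
    (R.comap (K.subtype.prodMap M.subtype)) fun a ha => by
      obtain ⟨⟨c, n⟩, h4, rfl⟩ := h3 ha
      exact ⟨n, h4⟩
  refine ⟨L.map K.subtype, ⟨?_⟩, ?_⟩
  · rw [Subgroup.index_map_subtype]; exact mul_ne_zero h4.1 h1.1
  · rintro _ ⟨a, ha, rfl⟩ _ ⟨b, hb, rfl⟩
    exact h5 a ha b hb

theorem dir (N : Type) [Group N] (S : Set (Subgroup N)) (hS : DirectedOn (· ≤ ·) S)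
    (hc : ∀ n : N, ∃ K ∈ S, n ∈ K) (hP : ∀ K ∈ S, Cl K) : Cl N := by
  classical
  intro H _ _ h R hR
  obtain ⟨T, hT⟩ := commutator_fg fun h1 => h (VT.of_tok h1)
  have hR' : ∀ t : T, ∃ n, (t.1, n) ∈ R := fun t => hR _ (hT ▸ Subgroup.subset_closure t.2)
  choose n hn using hR'
  obtain ⟨M, hM, hM'⟩ := DirectedOn.exists_mem_subset_of_finset_subset_biUnion
    (f := fun K : Subgroup N => (K : Set N)) ((hc 1).imp fun _ h => h.1) hS
    (s := Finset.univ.image n) fun m _ => by simpa using hc m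
  have h3 : commutator H ≤ (R.comap ((MonoidHom.id H).prodMap M.subtype)).map
      (MonoidHom.fst H M) := by
    rw [← hT]
    exact (Subgroup.closure_le _).2 fun t ht =>
      ⟨(t, ⟨n ⟨t, ht⟩, hM' (by simp)⟩), hn ⟨t, ht⟩, rfl⟩
  exact hP M hM H h (R.comap ((MonoidHom.id H).prodMap M.subtype)) fun a ha => by
    obtain ⟨⟨c, m⟩, h4, rfl⟩ := h3 ha
    exact ⟨m, h4⟩

end REA

theorem virtAb_of_isEA (G : Type) [Group G] [Group.FG G] (h : ¬ VT G) (hG : IsEA G) :
    VirtAb G := by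
  obtain ⟨K, h1, h2⟩ := hG REA.Cl REA.fin REA.ab REA.inj REA.surj REA.ext REA.dir G h
    ((MonoidHom.id G).prod (MonoidHom.id G)).range fun a _ => ⟨a, a, rfl⟩
  refine ⟨K, h1, fun a ha b hb => ?_⟩
  obtain ⟨c, hc⟩ := h2 a ha b hb
  obtain ⟨h3, h4⟩ := Prod.ext_iff.1 hc
  exact commutatorElement_eq_one_iff_mul_comm.1 (h3.symm.trans h4)

end Pool.Agent.P.MP_867493_lc
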