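import Pool.Agent.P.MP_867493_lc.D.IDefs

/-!
ROW Eig. A common eigenvector, and the theorem of Kronecker.
`exists_eig`: `V = (Additive B →+ k)` is a finite dimensional `k`-space (evaluate at generators), not zero (`B` is a finitely
generated infinite abelian group, so it has an element of infinite order, `CommGroup.finite_of_fg_isMulTorsion`; extend by
`Module.Baer.of_divisible`). The operators `φ ↦ φ ∘ conj g` commute (commutators lie in `B` and act trivially). On a
nonzero invariant subspace of least dimension every operator is a scalar (`Module.End.exists_eigenvalue`). Integrality: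
`φ (B)` is a nonzero finitely generated subgroup of `k` stable under `χ g` (`isIntegral_of_smul_mem_submodule`).
`kronecker`: `NumberField.Embeddings.pow_eq_one_of_norm_eq_one` for `ℚ⟮α⟯`; the values of `α` under all embeddings of `ℚ⟮α⟯` and
of `k` are the roots of the minimal polynomial (`Algebra.IsAlgebraic.range_eval_eq_rootSet_minpoly`).
-/

set_option autoImplicit false

namespace Pool.Agent.P.MP_867493_lc

variable {G : Type} [Group G]

namespace REig

theorem common {k M ι : Type} [Field k] [IsAlgClosed k] [AddCommGroup M] [Module k M]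
    (T : ι → Module.End k M) (n : ℕ) : ∀ (W : Submodule k M) [FiniteDimensional k W],
      Module.finrank k W = n → W ≠ ⊥ → (∀ i, ∀ v ∈ W, T i v ∈ W) →
      (∀ i j, ∀ v ∈ W, T i (T j v) = T j (T i v)) →
      ∃ v ∈ W, v ≠ 0 ∧ ∀ i, ∃ c : k, T i v = c • v := by
  induction n using Nat.strong_induction_on with
  | _ n ih =>
    intro W _ hn hW hT hc
    by_cases h : ∀ i, ∃ c : k, ∀ v ∈ W, T i v = c • v
    · obtain ⟨v, hv, hv0⟩ := (Submodule.ne_bot_iff W).1 hW
      exact ⟨v, hv, hv0, fun i => (h i).imp fun c hc => hc v hv⟩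
    · obtain ⟨i, hi⟩ := not_forall.1 h
      have : Nontrivial W := Submodule.nontrivial_iff_ne_bot.2 hW
      obtain ⟨c, hcv⟩ := Module.End.exists_eigenvalue ((T i).restrict (hT i))
      obtain ⟨u, hu⟩ := hcv.exists_hasEigenvector
      have hu1 : T i u.1 = c • u.1 := congrArg Subtype.val hu.apply_eq_smul
      let W' : Submodule k M := W ⊓ (T i).eigenspace c
      have hle : W' ≤ W := inf_le_left
      have hlt : W' < W := lt_of_le_of_ne hle fun e => hi ⟨c, fun v hv =>
        Module.End.mem_eigenspace_iff.1 (show v ∈ W' from e ▸ hv).2⟩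
      have : FiniteDimensional k W' := Submodule.finiteDimensional_of_le hle
      obtain ⟨v, hv, hv'⟩ := ih _ (hn ▸ Submodule.finrank_lt_finrank_of_lt hlt) W' rfl
        ((Submodule.ne_bot_iff W').2 ⟨u.1, ⟨u.2, Module.End.mem_eigenspace_iff.2 hu1⟩,
          fun e => hu.2 (Subtype.ext e)⟩)
        (fun j v hv => ⟨hT j v hv.1, Module.End.mem_eigenspace_iff.2 (by
          rw [hc i j v hv.1, Module.End.mem_eigenspace_iff.1 hv.2, map_smul])⟩)
        (fun a b v hv => hc a b v hv.1)
      exact ⟨v, hv.1, hv'⟩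

theorem exists_hom (A : Type) [AddCommGroup A] [AddGroup.FG A] [Infinite A] :
    ∃ (f : A →+ ℤ) (a : A), f a ≠ 0 := by
  classical
  obtain ⟨n, ι, _, p, hp, e, ⟨f⟩⟩ := AddCommGroup.equiv_free_prod_directSum_zmod A
  rcases n with _ | n
  · have : ∀ i, NeZero (p i ^ e i) := fun i => ⟨pow_ne_zero _ (hp i).ne_zero⟩
    have : Finite (DirectSum ι fun i => ZMod (p i ^ e i)) :=
      Finite.of_equiv _ (DFinsupp.equivFunOnFintype (β := fun i => ZMod (p i ^ e i))).symm
    have : Finite A := Finite.of_equiv _ f.symm.toEquiv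
    exact (not_finite A).elim
  · exact ⟨((Finsupp.applyAddHom 0).comp (AddMonoidHom.fst _ _)).comp f.toAddMonoidHom,
      f.symm (Finsupp.single 0 1, 0), by simp⟩

/-- Functions that are additive on `B` and vanish outside `B`. -/
def Fn (k : Type) [Field k] (B : Subgroup G) : Submodule k (G → k) where
  carrier := {φ | (∀ a ∈ B, ∀ b ∈ B, φ (a * b) = φ a + φ b) ∧ ∀ g, g ∉ B → φ g = 0}
  add_mem' := fun {φ ψ} h h' => ⟨fun a ha b hb => by
    simp only [Pi.add_apply, h.1 a ha b hb, h'.1 a ha b hb]; ring,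
    fun g hg => by simp only [Pi.add_apply, h.2 g hg, h'.2 g hg, add_zero]⟩
  zero_mem' := ⟨fun a _ b _ => by simp, fun g _ => rfl⟩
  smul_mem' := fun c φ h => ⟨fun a ha b hb => by
    simp only [Pi.smul_apply, h.1 a ha b hb, smul_add],
    fun g hg => by simp only [Pi.smul_apply, h.2 g hg, smul_zero]⟩

theorem mem_of_gen {k : Type} [Field k] {S : Set G} {φ : G → k}
    (h : ∀ a ∈ Subgroup.closure S, ∀ b ∈ Subgroup.closure S, φ (a * b) = φ a + φ b)
    (N : AddSubgroup k) (hS : ∀ s ∈ S, φ s ∈ N) : ∀ b ∈ Subgroup.closure S, φ b ∈ N := by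
  have h1 : φ 1 = 0 := by
    have := h 1 (one_mem _) 1 (one_mem _)
    rw [mul_one] at this
    linear_combination -this
  intro b hb
  induction hb using Subgroup.closure_induction with
  | mem x hx => exact hS x hx
  | one => rw [h1]; exact zero_mem _
  | mul x y hx hy h2 h3 => rw [h x hx y hy]; exact add_mem h2 h3
  | inv x hx h2 =>
    have h3 := h x hx x⁻¹ (inv_mem hx)
    rw [mul_inv_cancel, h1] at h3
    rw [show φ x⁻¹ = -φ x by linear_combination -h3]
    exact neg_mem h2

end REig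

theorem exists_eig (B : Subgroup G) [B.Normal] (hB : commutator G ≤ B)
    (hc : ∀ a ∈ B, ∀ b ∈ B, a * b = b * a) (hfg : B.FG) (hinf : (B : Set G).Infinite) :
    ∃ (φ : G → AlgebraicClosure ℚ) (χ : G →* AlgebraicClosure ℚ),
      (∀ a ∈ B, ∀ b ∈ B, φ (a * b) = φ a + φ b) ∧ (∃ b ∈ B, φ b ≠ 0) ∧
      (∀ g : G, ∀ b ∈ B, φ (g * b * g⁻¹) = χ g * φ b) ∧ ∀ g, IsIntegral ℤ (χ g) := by
  classical
  have hN : B.Normal := inferInstance
  have hne : REig.Fn (AlgebraicClosure ℚ) B ≠ ⊥ := by
    let _ : CommGroup B :=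
      { (inferInstance : Group B) with mul_comm := fun a b => Subtype.ext (hc a a.2 b b.2) }
    have : Group.FG B := (Group.fg_iff_subgroup_fg B).2 hfg
    have : Infinite B := hinf.to_subtype
    obtain ⟨f, a, ha⟩ := REig.exists_hom (Additive B)
    refine (Submodule.ne_bot_iff _).2
      ⟨fun g => if h : g ∈ B then (f (Additive.ofMul ⟨g, h⟩) : ℤ) else 0,
        ⟨fun x hx y hy => ?_, fun g hg => dif_neg hg⟩, fun e => ha ?_⟩
    · beta_reduce
      rw [dif_pos hx, dif_pos hy, dif_pos (mul_mem hx hy), ← Int.cast_add, ← map_add]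
      rfl
    · have := congrFun e (Additive.toMul a).1
      rw [dif_pos (Additive.toMul a).2] at this
      exact Int.cast_eq_zero.1 this
  obtain ⟨S, rfl⟩ := hfg
  set B := Subgroup.closure (S : Set G) with hBS
  have : FiniteDimensional (AlgebraicClosure ℚ) (REig.Fn (AlgebraicClosure ℚ) B) := by
    refine Module.Finite.of_injective
      ((LinearMap.funLeft (AlgebraicClosure ℚ) (AlgebraicClosure ℚ) (fun s : S => (s : G))).comp
        (REig.Fn (AlgebraicClosure ℚ) B).subtype) ?_
    rw [injective_iff_map_eq_zero]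
    intro φ hφ
    refine Subtype.ext (funext fun g => ?_)
    by_cases hg : g ∈ B
    · exact AddSubgroup.mem_bot.1 (REig.mem_of_gen φ.2.1 ⊥
        (fun s hs => AddSubgroup.mem_bot.2 (congrFun hφ ⟨s, hs⟩)) g hg)
    · exact φ.2.2 g hg
  have hout : ∀ g b : G, b ∉ B → g * b * g⁻¹ ∉ B := fun g b hb h =>
    hb (by simpa [mul_assoc] using hN.conj_mem _ h g⁻¹)
  obtain ⟨φ, hφ, hφ0, hT⟩ := REig.common
    (fun g : G => LinearMap.funLeft (AlgebraicClosure ℚ) (AlgebraicClosure ℚ)
      (fun b : G => g * b * g⁻¹)) _ (REig.Fn (AlgebraicClosure ℚ) B) rfl hne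
    (fun g φ hφ => ⟨fun a ha b hb => by
      change φ (g * (a * b) * g⁻¹) = φ (g * a * g⁻¹) + φ (g * b * g⁻¹)
      rw [← hφ.1 _ (hN.conj_mem a ha g) _ (hN.conj_mem b hb g)]
      congr 1
      group, fun b hb => hφ.2 _ (hout g b hb)⟩)
    (fun g h φ hφ => funext fun b => by
      change φ (h * (g * b * g⁻¹) * h⁻¹) = φ (g * (h * b * h⁻¹) * g⁻¹)
      by_cases hb : b ∈ B
      · have h1 : g * h * g⁻¹ * h⁻¹ ∈ B :=
          hB (Subgroup.commutator_mem_commutator (Subgroup.mem_top g) (Subgroup.mem_top h))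
        have h2 := hc _ h1 _ (hN.conj_mem _ (hN.conj_mem b hb g) h)
        congr 1
        rw [← mul_inv_eq_iff_eq_mul] at h2
        rw [← h2]
        group
      · rw [hφ.2 _ (hout h _ (hout g b hb)), hφ.2 _ (hout g _ (hout h b hb))])
  choose c hcv using hT
  have hc' : ∀ g b : G, φ (g * b * g⁻¹) = c g * φ b := fun g b => congrFun (hcv g) b
  obtain ⟨b0, hb0⟩ := Function.ne_iff.1 hφ0
  have hb0' : φ b0 ≠ 0 := hb0
  have hb1 : b0 ∈ B := by
    by_contra h
    exact hb0' (hφ.2 b0 h)
  refine ⟨φ, ⟨⟨c, mul_right_cancel₀ hb0' ?_⟩, fun g h => mul_right_cancel₀ hb0' ?_⟩, hφ.1,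
    ⟨b0, hb1, hb0'⟩, fun g b _ => hc' g b, fun g => ?_⟩
  · rw [← hc']
    simp
  · change c (g * h) * φ b0 = c g * c h * φ b0
    rw [mul_assoc (c g), ← hc', ← hc', ← hc']
    congr 1
    group
  · have hall := REig.mem_of_gen hφ.1 (Submodule.span ℤ (φ '' (S : Set G))).toAddSubgroup
      (fun s hs => Submodule.subset_span ⟨s, hs, rfl⟩)
    refine isIntegral_of_smul_mem_submodule (Submodule.span ℤ (φ '' (S : Set G)))
      ((Submodule.ne_bot_iff _).2 ⟨φ b0, hall b0 hb1, hb0'⟩)
      (Submodule.fg_span (S.finite_toSet.image φ)) (c g) fun x hx => ?_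
    induction hx using Submodule.span_induction with
    | mem x hx =>
      obtain ⟨s, hs, rfl⟩ := hx
      rw [smul_eq_mul, ← hc']
      exact hall _ (hN.conj_mem s (Subgroup.subset_closure hs) g)
    | zero => rw [smul_zero]; exact zero_mem _
    | add x y _ _ h1 h2 => rw [smul_add]; exact add_mem h1 h2
    | smul a x _ h1 => rw [smul_comm]; exact Submodule.smul_mem _ a h1

theorem kronecker (α : AlgebraicClosure ℚ) (hα : IsIntegral ℤ α)
    (h : ∀ σ : AlgebraicClosure ℚ →+* ℂ, ‖σ α‖ = 1) : ∃ n : ℕ, 0 < n ∧ α ^ n = 1 := by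
  let K : IntermediateField ℚ (AlgebraicClosure ℚ) := IntermediateField.adjoin ℚ {α}
  have : FiniteDimensional ℚ K := IntermediateField.adjoin.finiteDimensional hα.tower_top
  have : NumberField K := ⟨⟩
  have : Algebra.IsAlgebraic ℚ (AlgebraicClosure ℚ) := AlgebraicClosure.isAlgebraic ℚ
  have : Algebra.IsAlgebraic K (AlgebraicClosure ℚ) := Algebra.IsAlgebraic.tower_top (K := ℚ) K
  let a : K := IntermediateField.AdjoinSimple.gen ℚ α
  have ha : IsIntegral ℤ a :=
    (isIntegral_algHom_iff (K.val.restrictScalars ℤ) Subtype.val_injective).1 hα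
  obtain ⟨n, hn, h1⟩ := NumberField.Embeddings.pow_eq_one_of_norm_eq_one K ℂ ha fun σ => by
    obtain ⟨τ, hτ⟩ := IsAlgClosed.surjective_domRestrict_of_isAlgebraic (K := ℚ) (L := K)
      (M := ℂ) (E := AlgebraicClosure ℚ) σ.toRatAlgHom
    have h2 : σ a = τ α := (DFunLike.congr_fun hτ a).symm
    rw [h2]
    exact h τ.toRingHom
  exact ⟨n, hn, congrArg Subtype.val h1⟩

end Pool.Agent.P.MP_867493_lc
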