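import Pool.Agent.P.MP_867493_lc.D.IDefs

/-!
ROW Fin. Deterministic copies of `solvable_of_poly` (Solve.lean) and `inZPP_of_solvable` (Final.lean; `Dec.isPolyTime` has to be
copied for the output type `Bool`), and the size of balls in abelian groups (an element of the ball is
`∏ xs[i] ^ e i` with `|e i| ≤ n`).
-/

set_option autoImplicit false

namespace Pool.Agent.P.MP_867493_lc

open Pool.Agent.Lib.NP Monoid

namespace RFin

open Polynomial N487b59b3 N68a2faeb

theorem dec_poly {α β : Type} [N487b59b3 α] [Enc β] {φ : α → β} (h : Dec φ) {F : β → Bool}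
    (hF : PT F) : IsPolyTime (fun a => F (φ a)) := by
  obtain ⟨D, h1, h2⟩ := h
  have h3 : PTe (fun x : List Bool => x) (fun x => enc (F (D x))) :=
    (PTe.explode'.reindex fun a => ⟨a, rfl, by
      simp [enc, List.map_map, Function.comp_def]⟩).trans (hF.comp h1)
  have h4 : PTe (fun a : α => bitEncode a) (fun a => bitEncode (F (φ a))) :=
    h3.reindex fun a => ⟨bitEncode a, rfl, by rw [h2]; rfl⟩
  exact h4.toTM2

theorem ev_comm {A : Type} [CommGroup A] (xs : List A) (w : Wd) :
    ∃ e : Fin xs.length → ℤ, (∀ i, |e i| ≤ w.length) ∧ ev xs w = ∏ i, xs[i] ^ e i := by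
  induction w with
  | nil => exact ⟨fun _ => 0, by simp, by simp [ev]⟩
  | cons l w ih =>
    obtain ⟨e, h1, h2⟩ := ih
    rcases l with ⟨j, b⟩
    by_cases hj : j < xs.length
    · refine ⟨e + Pi.single ⟨j, hj⟩ (if b then 1 else -1), fun i => ?_, ?_⟩
      · have h3 : |(Pi.single ⟨j, hj⟩ (if b then 1 else -1) : Fin xs.length → ℤ) i| ≤ 1 := by
          rw [Pi.single_apply]
          split_ifs <;> simp
        have h4 := h1 i
        refine (abs_add_le _ _).trans ?_
        rw [List.length_cons]
        push_cast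
        omega
      · have h3 : ∏ i : Fin xs.length, xs[i] ^
            (Pi.single ⟨j, hj⟩ (if b then 1 else -1) : Fin xs.length → ℤ) i =
            xs[j] ^ (if b then (1 : ℤ) else -1) := by
          rw [Finset.prod_eq_single ⟨j, hj⟩]
          · simp
          · intro i _ hi
            rw [Pi.single_eq_of_ne hi, zpow_zero]
          · simp
        simp only [Pi.add_apply, zpow_add, Finset.prod_mul_distrib]
        rw [h3, ← h2, mul_comm]
        cases b <;> simp [ev, hj]
    · refine ⟨e, fun i => (h1 i).trans (by simp), ?_⟩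
      rw [← h2]
      cases b <;> simp [ev, not_lt.1 hj]

theorem ball_le {A : Type} [CommGroup A] (xs : List A) (n : ℕ) :
    (ball xs n).ncard ≤ (2 * n + 1) ^ xs.length := by
  classical
  have h : ball xs n ⊆ ↑((Fintype.piFinset fun _ : Fin xs.length =>
      Finset.Icc (-(n : ℤ)) n).image fun e => ∏ i, xs[i] ^ e i) := by
    rintro _ ⟨w, hw, rfl⟩
    obtain ⟨e, h1, h2⟩ := ev_comm xs w
    refine Finset.mem_coe.2 (Finset.mem_image.2 ⟨e, Fintype.mem_piFinset.2 fun i => ?_, h2.symm⟩)
    have h3 := abs_le.1 (h1 i)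
    rw [Finset.mem_Icc]
    omega
  refine (Set.ncard_le_ncard h (Finset.finite_toSet _)).trans ?_
  rw [Set.ncard_coe_finset]
  refine Finset.card_image_le.trans ?_
  rw [Fintype.card_piFinset_const, Int.card_Icc]
  refine Nat.pow_le_pow_left ?_ _
  omega

end RFin

variable {G : Type} [Group G]

theorem dsolv_of_poly (xs : List G) (ho : Orc xs) (q : Polynomial ℕ)
    (hq : ∀ n, (ball xs n).ncard ≤ q.eval n) : DSolv xs := by
  classical
  obtain ⟨f, hpt, hf⟩ := ho
  have h1 : PT (fun x : Vx × List Ed => x.2.foldl (dpStep f) [(x.1, [])]) := by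
    refine PT.foldl (f := fun _ S e => dpStep f S e)
      ((pt_dpStep hpt).comp (g := fun x : (Vx × List Ed) × List (Vx × Wd) × Ed => x.2)
        (by fun_prop)) (by fun_prop) (by fun_prop)
      ((Polynomial.X + 1) * q * (2 * (3 * Polynomial.X + 1) + 1)) ?_
    rintro ⟨s, E⟩ i
    have b1 : sz (E.take i) ≤ sz (s, E) := (PT.sz_take_le _ _).trans (sz_snd_le (s, E))
    obtain ⟨k1, k2, -⟩ := dp_fold xs f hf s (E.take i)
    have k3 := dp_size f s (E.take i) _ (sz_fst_le (s, E)) b1
    simp only
    generalize (E.take i).foldl (dpStep f) [(s, [])] = S at k1 k2 k3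
    refine (sz_list_le S (3 * sz (s, E) + 1) fun y hy => ?_).trans ?_
    · have := k3 y hy
      rcases y with ⟨y1, y2⟩
      rw [sz_prod]; simp only at this; omega
    · simp only [Polynomial.eval_mul, Polynomial.eval_add, Polynomial.eval_X, Polynomial.eval_one,
        Polynomial.eval_ofNat]
      refine Nat.mul_le_mul_right _ ?_
      have hfin := ball_finite xs (sz (s, E))
      have k4 := List.toFinset_card_of_nodup k1
      rw [List.length_map] at k4
      rw [← k4]
      refine (Finset.card_le_card (t := (s :: (E.take i).map (·.2.1)).toFinset ×ˢ hfin.toFinset)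
        fun z hz => ?_).trans ?_
      · obtain ⟨y, hy, rfl⟩ := List.mem_map.1 (List.mem_toFinset.1 hz)
        exact Finset.mem_product.2 ⟨List.mem_toFinset.2 (k2 y hy).1, hfin.mem_toFinset.2
          ⟨y.2, (k2 y hy).2.trans ((lab_le_sz _).trans b1), rfl⟩⟩
      · rw [Finset.card_product, ← Set.ncard_eq_toFinset_card _ hfin]
        refine Nat.mul_le_mul ((List.toFinset_card_le _).trans ?_) (hq _)
        have := (length_le_sz _).trans b1
        simpa using this
  refine ⟨fun x => (x.2.2.foldl (dpStep f) [(x.1, [])]).any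
    fun y => decide (y.1 = x.2.1) && f ([], y.2),
    PT.any (by fun_prop) (h1.comp (g := fun x : Vx × Vx × List Ed => (x.1, x.2.2))
      (by fun_prop)), fun s t E => ?_⟩
  rw [(dp_fold xs f hf s E).2.2]
  simp [hf, ssp_nil]

theorem ball_le_of_comm (xs : List G) (hc : ∀ a b : G, a * b = b * a) (n : ℕ) :
    (ball xs n).ncard ≤ (2 * n + 1) ^ xs.length := by
  let _ : CommGroup G := { ‹Group G› with mul_comm := hc }
  exact RFin.ball_le xs n

theorem inP_of_dsolv {H : Type} [Group H] (xs : List G) (ys : List H) (hG : DSolv xs)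
    (hH : DSolv ys) :
    InP (SSP (xs.map Coprod.inl ++ ys.map Coprod.inr : List (Coprod G H))) := by
  obtain ⟨sG, g1, g2⟩ := hG
  obtain ⟨sH, h1, h2⟩ := hH
  have hF : PT (fun x : List Wd × Wd =>
      decide (((0, 0), (x.1.length + 1, 0)) ∈ (satStep xs.length sG sH
        (base x))^[(base x).length + 1] [])) :=
    PT.decide_mem (by fun_prop) (pt_sat xs (sG := fun _ => sG) (sH := fun _ => sH)
      (g1.comp PT.id'.snd) (h1.comp PT.id'.snd) (by fun_prop) (by fun_prop))
  refine ⟨_, RFin.dec_poly (dec_clamp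
    (xs.map Coprod.inl ++ ys.map Coprod.inr : List (Coprod G H)).length) hF, fun I => ?_⟩
  rw [decide_eq_true_iff, ← ssp_clamp]
  exact ssp_free_iff xs ys _ (fun s t F _ _ => g2 s t F) (fun s t F _ _ => h2 s t F) le_rfl

end Pool.Agent.P.MP_867493_lc
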