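import Pool.Agent.P.MP_867493_lc.D.IDefs

/-! Control elements from a height filtration. -/

set_option autoImplicit false

namespace Pool.Agent.P.MP_867493_lc

variable {G : Type} [Group G]

theorem tok_of_height {Ω : Type} (act : G → Ω → Ω) (a1 : ∀ z, act 1 z = z)
    (a2 : ∀ g h z, act (g * h) z = act g (act h z)) (S : ℕ → Set Ω) (hS : Monotone S) (o : Ω)
    (ho : o ∈ S 0) (u x s : G) (h1 : ∀ g : G, ∃ c, ∀ j, ∀ z ∈ S j, act g z ∈ S (j + c))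
    (h2 : ∃ c, ∀ J j, J ≤ j → ∀ z ∈ S j,
      act (tk u x J 1) z ∈ S (j + c) ∧ act (tk u x J 1)⁻¹ z ∈ S (j + c))
    (h3 : ∃ c, ∀ J j, j + c ≤ J → act (tk u x J 1 * s * (tk u x J 1)⁻¹) o ∉ S j) : Tok G := by
  choose f hf using h1
  obtain ⟨c₂, h2⟩ := h2
  obtain ⟨c₃, h3⟩ := h3
  refine ⟨u, x, s, fun X => ?_⟩
  obtain ⟨c, hc, hX⟩ : ∃ c, c₂ ≤ c ∧ ∀ g, g ∈ X ∨ g⁻¹ ∈ X → f g ≤ c := by
    refine ⟨c₂ + (X.map fun g => f g + f g⁻¹).sum, Nat.le_add_right _ _, fun g hg => ?_⟩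
    rcases hg with hg | hg
    · have := List.le_sum_of_mem (List.mem_map_of_mem (f := fun g => f g + f g⁻¹) hg)
      omega
    · have := List.le_sum_of_mem (List.mem_map_of_mem (f := fun g => f g + f g⁻¹) hg)
      rw [inv_inv] at this
      omega
  refine ⟨Polynomial.C c * Polynomial.X + Polynomial.C c₃, 1, fun m j _ => ?_⟩
  simp only [Polynomial.eval_add, Polynomial.eval_mul, Polynomial.eval_C, Polynomial.eval_X,
    Polynomial.eval_one]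
  rintro ⟨l, hl, hm, hp⟩
  have step : ∀ a ∈ l, ∀ k, (c * m + c₃) * j ≤ k → ∀ z ∈ S k, act a z ∈ S (k + c) := by
    intro a ha k hk z hz
    have hi : ∀ i ∈ List.range j, (c * m + c₃) * (i + 1) ≤ k := fun i hi =>
      (Nat.mul_le_mul_left _ (List.mem_range.1 hi)).trans hk
    rcases hm a ha with h | h <;> rcases List.mem_append.1 h with h | h
    · exact hS (Nat.add_le_add_left (hX a (Or.inl h)) k) (hf a k z hz)
    · obtain ⟨i, hi', rfl⟩ := List.mem_map.1 h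
      exact hS (Nat.add_le_add_left hc k) (h2 _ k (hi i hi') z hz).1
    · exact hS (Nat.add_le_add_left (hX a (Or.inr h)) k) (hf a k z hz)
    · obtain ⟨i, hi', e⟩ := List.mem_map.1 h
      rw [← inv_inv a, ← e]
      exact hS (Nat.add_le_add_left hc k) (h2 _ k (hi i hi') z hz).2
  have key : act l.prod o ∈ S ((c * m + c₃) * j + c * l.length) := by
    clear hl hm hp
    induction l with
    | nil =>
      rw [List.prod_nil, a1]
      exact hS (Nat.zero_le _) ho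
    | cons a l ih =>
      rw [List.prod_cons, a2, List.length_cons, Nat.mul_succ, ← add_assoc]
      exact step a List.mem_cons_self _ (Nat.le_add_right _ _) _
        (ih fun b hb => step b (List.mem_cons_of_mem a hb))
  rw [hp] at key
  refine h3 _ _ ?_ key
  have := Nat.mul_le_mul_left c hl
  rw [Nat.mul_succ]
  omega

theorem tok_of_aff (B : Subgroup G) [B.Normal] (hB : commutator G ≤ B) (φ : G → ℂ) (χ : G →* ℂ)
    (hadd : ∀ a ∈ B, ∀ b ∈ B, φ (a * b) = φ a + φ b)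
    (hχ : ∀ g : G, ∀ b ∈ B, φ (g * b * g⁻¹) = χ g * φ b) (hne : ∃ b ∈ B, φ b ≠ 0)
    (ht : ∃ t, ‖χ t‖ ≠ 1) : Tok G := by
  obtain ⟨b, hb, hb0⟩ := hne
  obtain ⟨t, ht⟩ : ∃ t, 1 < ‖χ t‖ := by
    obtain ⟨t, ht⟩ := ht
    rcases ht.lt_or_gt with h | h
    · refine ⟨t⁻¹, not_le.1 fun h' => ?_⟩
      have e : ‖χ t‖ * ‖χ t⁻¹‖ = 1 := by rw [← norm_mul, ← map_mul, mul_inv_cancel, map_one, norm_one]
      nlinarith [norm_nonneg (χ t), norm_nonneg (χ t⁻¹)]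
    · exact ⟨t, h⟩
  have hN : B.Normal := inferInstance
  have φ1 : φ 1 = 0 := by simpa using hadd 1 B.one_mem 1 B.one_mem
  have φi : ∀ a ∈ B, φ a⁻¹ = -φ a := fun a ha => by
    have := hadd a ha a⁻¹ (B.inv_mem ha)
    rw [mul_inv_cancel, φ1] at this
    linear_combination -this
  have cB : ∀ g, g * t * g⁻¹ * t⁻¹ ∈ B := fun g =>
    hB (Subgroup.commutator_mem_commutator (Subgroup.mem_top g) (Subgroup.mem_top t))
  have tr : ∀ a ∈ B, ∀ z, χ a * z + φ (a * t * a⁻¹ * t⁻¹) = z + (1 - χ t) * φ a := by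
    intro a ha z
    have h1 := hχ a b hb
    rw [hadd _ (B.mul_mem ha hb) _ (B.inv_mem ha), hadd a ha b hb, φi a ha] at h1
    have h2 : χ a = 1 := mul_right_cancel₀ hb0 (by linear_combination -h1)
    rw [h2, show a * t * a⁻¹ * t⁻¹ = a * (t * a⁻¹ * t⁻¹) by group,
      hadd a ha _ (hN.conj_mem _ (B.inv_mem ha) t), hχ t _ (B.inv_mem ha), φi a ha]
    ring
  have tB : ∀ J, tk t b J 1 ∈ B := fun J => hN.conj_mem _ (B.pow_mem hb 1) _
  have tφ : ∀ J, φ (tk t b J 1) = χ t ^ J * φ b := fun J => by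
    rw [tk, pow_one, hχ _ b hb, map_pow]
  have h1t : 1 - χ t ≠ 0 := fun h => by
    rw [← sub_eq_zero.1 h, norm_one] at ht
    exact lt_irrefl _ ht
  have up : ∀ A : ℝ, ∃ c, ∀ j, ∀ y : ℝ, y ≤ A * ‖χ t‖ ^ j → y ≤ ‖χ t‖ ^ (j + c) := fun A => by
    obtain ⟨c, hc⟩ := pow_unbounded_of_one_lt A ht
    refine ⟨c, fun j y hy => hy.trans ?_⟩
    rw [pow_add, mul_comm]
    exact mul_le_mul_of_nonneg_left hc.le (by positivity)
  have a2 : ∀ (g h : G) (z : ℂ), χ (g * h) * z + φ (g * h * t * (g * h)⁻¹ * t⁻¹) =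
      χ g * (χ h * z + φ (h * t * h⁻¹ * t⁻¹)) + φ (g * t * g⁻¹ * t⁻¹) := fun g h z => by
    rw [show g * h * t * (g * h)⁻¹ * t⁻¹ =
      g * (h * t * h⁻¹ * t⁻¹) * g⁻¹ * (g * t * g⁻¹ * t⁻¹) by group,
      hadd _ (hN.conj_mem _ (cB h) g) _ (cB g), hχ g _ (cB h), map_mul]
    ring
  refine tok_of_height (fun g z => χ g * z + φ (g * t * g⁻¹ * t⁻¹)) (fun z => by simp [φ1]) a2
    (fun j => {z | ‖z‖ ≤ ‖χ t‖ ^ j})
    (fun i j hij z hz => le_trans hz (pow_le_pow_right₀ ht.le hij)) 0 (by simp) t b t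
    (fun g => ?_) ?_ ?_
  · obtain ⟨c, hc⟩ := up (‖χ g‖ + ‖φ (g * t * g⁻¹ * t⁻¹)‖)
    refine ⟨c, fun j z hz => hc j _ ((norm_add_le _ _).trans ?_)⟩
    rw [norm_mul, add_mul]
    exact add_le_add (mul_le_mul_of_nonneg_left hz (norm_nonneg _))
      (le_mul_of_one_le_right (norm_nonneg _) (one_le_pow₀ ht.le))
  · obtain ⟨c, hc⟩ := up (1 + ‖(1 - χ t) * φ b‖)
    refine ⟨c, fun J j hJ z hz => ?_⟩
    have e : ‖(1 - χ t) * (χ t ^ J * φ b)‖ ≤ ‖(1 - χ t) * φ b‖ * ‖χ t‖ ^ j := by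
      rw [mul_left_comm, norm_mul, norm_pow, mul_comm]
      exact mul_le_mul_of_nonneg_left (pow_le_pow_right₀ ht.le hJ) (norm_nonneg _)
    have hz' : ‖z‖ ≤ ‖χ t‖ ^ j := hz
    constructor
    · refine hc j _ ?_
      rw [tr _ (tB J), tφ]
      linarith [norm_add_le z ((1 - χ t) * (χ t ^ J * φ b))]
    · refine hc j _ ?_
      rw [tr _ (B.inv_mem (tB J)), φi _ (tB J), tφ, mul_neg, ← sub_eq_add_neg]
      linarith [norm_sub_le z ((1 - χ t) * (χ t ^ J * φ b))]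
  · have hw : 0 < ‖(1 - χ t) * ((1 - χ t) * φ b)‖ :=
      norm_pos_iff.2 (mul_ne_zero h1t (mul_ne_zero h1t hb0))
    obtain ⟨c, hc⟩ := pow_unbounded_of_one_lt (1 / ‖(1 - χ t) * ((1 - χ t) * φ b)‖) ht
    refine ⟨c, fun J j hJ h => absurd (show ‖_‖ ≤ ‖χ t‖ ^ j from h) (not_le.2 ?_)⟩
    rw [a2, a2, tr _ (tB J), tr _ (B.inv_mem (tB J)), φi _ (tB J), tφ, mul_inv_cancel_right,
      mul_inv_cancel, φ1, show χ t * (0 + (1 - χ t) * -(χ t ^ J * φ b)) + 0 +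
        (1 - χ t) * (χ t ^ J * φ b) = χ t ^ J * ((1 - χ t) * ((1 - χ t) * φ b)) by ring,
      norm_mul, norm_pow]
    rw [div_lt_iff₀ hw] at hc
    calc ‖χ t‖ ^ j < ‖χ t‖ ^ j * (‖χ t‖ ^ c * ‖(1 - χ t) * ((1 - χ t) * φ b)‖) :=
          lt_mul_of_one_lt_right (by positivity) hc
      _ ≤ _ := by
          rw [← mul_assoc, ← pow_add]
          exact mul_le_mul_of_nonneg_right (pow_le_pow_right₀ ht.le hJ) hw.le

end Pool.Agent.P.MP_867493_lc
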