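import Pool.Agent.P.MP_867493_lc.D.IDefs

/-!
ROW HeisA. The area function sees the area of the list of factors. `P g = ω g y`, `Q g = ω x g` are additive,
`ω g (x * y ^ i) = i * P g - Q g`, `P (x * y ^ i) = 1`, `Q (x * y ^ i) = i`, `A (z ^ e) = e * A z` for `e : ℤ` (`ω z z = 0`).
`ρ g = ∑ over a in xs of |ω g a|` is subadditive and `|ω g (ev xs w)| ≤ ρ g * w.length`. Let `C ≥ 1` bound `ρ` and `|A|` on
`x`, `y` and the letters. For the product `g` of the first `n` factors with `st = (p, q, a)` prove by `List.reverseRecOn`: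
`|P g - L p| ≤ C β n`, `|Q g - L q| ≤ C β n`, `ρ g ≤ n (L β (β + 1) C + β C)`, `|A g - L² a| ≤ n L r₀(β)` (for `1 ≤ L`). If
`g = 1` then `P g = A g = 0`, and `L` larger than the bounds forces the integers `p` and `a` to vanish.
-/

set_option autoImplicit false

namespace Pool.Agent.P.MP_867493_lc

variable {G : Type} [Group G]

namespace RHeisA

variable {A : G → ℝ} {ω : G → G → ℝ} {x y : G}

theorem self (h : IsArea A ω x y) (g : G) : ω g g = 0 := by linarith [h.anti g g]

theorem right (h : IsArea A ω x y) (k g g' : G) : ω k (g * g') = ω k g + ω k g' := by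
  rw [h.anti, h.left, h.anti g, h.anti g']; ring

theorem zpow_left (h : IsArea A ω x y) (g k : G) (e : ℤ) : ω (g ^ e) k = e * ω g k := by
  have := map_zpow (MonoidHom.mk' (M := G) (G := Multiplicative ℝ)
    (fun g => Multiplicative.ofAdd (ω g k)) (fun a b => by rw [h.left, ofAdd_add])) g e
  simpa using congrArg Multiplicative.toAdd this

theorem zpow_right (h : IsArea A ω x y) (g k : G) (e : ℤ) : ω k (g ^ e) = e * ω k g := by
  rw [h.anti, zpow_left h, h.anti k]; ring

theorem pow_left (h : IsArea A ω x y) (g k : G) (e : ℕ) : ω (g ^ e) k = e * ω g k := by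
  simpa using zpow_left h g k e

theorem pow_right (h : IsArea A ω x y) (g k : G) (e : ℕ) : ω k (g ^ e) = e * ω k g := by
  simpa using zpow_right h g k e

theorem one_left (h : IsArea A ω x y) (k : G) : ω 1 k = 0 := by simpa using pow_left h 1 k 0

theorem one_right (h : IsArea A ω x y) (k : G) : ω k 1 = 0 := by simpa using pow_right h 1 k 0

theorem A_one (h : IsArea A ω x y) : A 1 = 0 := by
  have := h.mul 1 1
  rw [one_mul, self h] at this
  linarith

theorem A_zpow (h : IsArea A ω x y) (z : G) (e : ℤ) : A (z ^ e) = e * A z := by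
  induction e using Int.induction_on with
  | zero => simpa using A_one h
  | succ n ih => rw [zpow_add_one, h.mul, ih, zpow_left h, self h]; push_cast; ring
  | pred n ih =>
    have := h.mul (z ^ (-(n : ℤ) - 1)) z
    rw [← zpow_add_one, sub_add_cancel, ih, zpow_left h, self h] at this
    push_cast at this ⊢
    linarith

/-- The size of `g` against a list of elements. -/
noncomputable def N (ω : G → G → ℝ) (S : List G) (g : G) : ℝ := (S.map fun a => |ω g a|).sum

omit [Group G] in
theorem N_nonneg (S : List G) (g : G) : 0 ≤ N ω S g :=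
  List.sum_nonneg fun a ha => by
    obtain ⟨b, -, rfl⟩ := List.mem_map.1 ha
    exact abs_nonneg _

omit [Group G] in
theorem le_N {S : List G} (g : G) {a : G} (ha : a ∈ S) : |ω g a| ≤ N ω S g :=
  List.single_le_sum (fun a ha => by
    obtain ⟨b, -, rfl⟩ := List.mem_map.1 ha
    exact abs_nonneg _) _ (List.mem_map.2 ⟨a, ha, rfl⟩)

theorem N_mul (h : IsArea A ω x y) (S : List G) (g g' : G) :
    N ω S (g * g') ≤ N ω S g + N ω S g' := by
  unfold N
  rw [← List.sum_map_add]
  exact List.sum_le_sum fun a _ => by rw [h.left]; exact abs_add_le _ _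

theorem N_zpow (h : IsArea A ω x y) (S : List G) (g : G) (e : ℤ) :
    N ω S (g ^ e) = |(e : ℝ)| * N ω S g := by
  unfold N
  rw [← List.sum_map_mul_left]
  exact congrArg _ (List.map_congr_left fun a _ => by rw [zpow_left h, abs_mul])

theorem letter (xs : List G) (l : ℕ × Bool) :
    ∃ a ∈ 1 :: x :: y :: xs, ∃ e : ℤ, |(e : ℝ)| = 1 ∧ ev xs [l] = a ^ e := by
  have hm : xs.getD l.1 1 ∈ 1 :: x :: y :: xs := by
    rcases lt_or_ge l.1 xs.length with hl | hl
    · rw [List.getD_eq_getElem _ _ hl]; simp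
    · rw [List.getD_eq_default _ _ hl]; simp
  refine ⟨_, hm, if l.2 then 1 else -1, by split_ifs <;> simp, ?_⟩
  cases hb : l.2 <;> simp [ev, hb]

theorem word (h : IsArea A ω x y) (xs : List G) {C : ℝ}
    (hC : ∀ a ∈ 1 :: x :: y :: xs, N ω (1 :: x :: y :: xs) a ≤ C ∧ |A a| ≤ C) (w : Wd) :
    (∀ g, |ω g (ev xs w)| ≤ N ω (1 :: x :: y :: xs) g * w.length) ∧
      N ω (1 :: x :: y :: xs) (ev xs w) ≤ C * w.length ∧ |A (ev xs w)| ≤ C * w.length ^ 2 := by
  have hC0 : 0 ≤ C := (abs_nonneg _).trans (hC 1 (by simp)).2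
  induction w with
  | nil =>
    refine ⟨fun g => by simp [one_right h], ?_, by simp [A_one h]⟩
    simpa using (N_zpow h (1 :: x :: y :: xs) 1 0).le
  | cons l w ih =>
    obtain ⟨a, ha, e, he, hl⟩ := letter (x := x) (y := y) xs l
    obtain ⟨i1, i2, i3⟩ := ih
    rw [ev_cons, hl, List.length_cons]
    push_cast
    have hN : N ω (1 :: x :: y :: xs) (a ^ e) ≤ C := by rw [N_zpow h, he, one_mul]; exact (hC a ha).1
    refine ⟨fun g => ?_, ?_, ?_⟩
    · rw [right h, zpow_right h]
      refine (abs_add_le _ _).trans ?_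
      rw [abs_mul, he]
      linarith [i1 g, le_N (ω := ω) g ha]
    · linarith [N_mul h (1 :: x :: y :: xs) (a ^ e) (ev xs w)]
    · rw [h.mul, A_zpow h]
      have h1 : |(e : ℝ) * A a| ≤ C := by rw [abs_mul, he, one_mul]; exact (hC a ha).2
      have h2 : |ω (a ^ e) (ev xs w)| ≤ C * w.length := (i1 _).trans (by gcongr)
      have h3 : (0 : ℝ) ≤ C * w.length := by positivity
      refine (abs_add_three _ _ _).trans ?_
      nlinarith

/-- The error made by one factor, divided by `L`. -/
def R (C b : ℝ) : ℝ :=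
  b * (C + b * C + b) + b * (b * (C * b * b) + C * b * b) + C * b ^ 2 +
    b * (b * (b * (C + b * C)) + C * b) * b

theorem main (h : IsArea A ω x y) (xs : List G) {C : ℝ}
    (hC : ∀ a ∈ 1 :: x :: y :: xs, N ω (1 :: x :: y :: xs) a ≤ C ∧ |A a| ≤ C) {β L : ℕ}
    (hL : 1 ≤ L) (F : List Fac) (hn : F.length ≤ β)
    (hF : ∀ f ∈ F, |f.1| ≤ β ∧ f.2.1 ≤ β ∧ f.2.2.length ≤ β) :
    |ω (F.map (fac xs x y L)).prod y - L * (st F).1| ≤ C * β * F.length ∧
    |ω x (F.map (fac xs x y L)).prod - L * (st F).2.1| ≤ C * β * F.length ∧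
    N ω (1 :: x :: y :: xs) (F.map (fac xs x y L)).prod ≤
      F.length * (L * (β * (C + β * C) + C * β)) ∧
    |A (F.map (fac xs x y L)).prod - L ^ 2 * (st F).2.2| ≤ F.length * (L * R C β) := by
  have hC0 : 0 ≤ C := (abs_nonneg _).trans (hC 1 (by simp)).2
  induction F using List.reverseRecOn with
  | nil =>
    refine ⟨by simp [st, one_left h], by simp [st, one_right h], ?_, by simp [st, A_one h]⟩
    simpa using (N_zpow h (1 :: x :: y :: xs) 1 0).le
  | append_singleton F f ih =>
    rw [List.length_append, List.length_singleton] at hn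
    obtain ⟨i1, i2, i3, i4⟩ := ih (by omega) (fun f hf => hF f (by simp [hf]))
    obtain ⟨t, i, w⟩ := f
    obtain ⟨ht, hi, hw⟩ := hF (t, i, w) (by simp)
    obtain ⟨w1, w2, w3⟩ := word h xs hC w
    have hst : st (F ++ [(t, i, w)]) = ((st F).1 + t, (st F).2.1 + t * i,
        (st F).2.2 + t * (i * (st F).1 - (st F).2.1)) := by
      simp only [st, List.foldl_append, List.foldl_cons, List.foldl_nil]
    rw [hst, List.map_append, List.prod_append, List.length_append]
    simp only [List.map_cons, List.map_nil, List.prod_cons, List.prod_nil, mul_one, fac,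
      List.length_singleton]
    generalize (F.map (fac xs x y L)).prod = g at *
    generalize st F = s at *
    obtain ⟨p, q, a⟩ := s
    dsimp only at *
    have ht' : |(t : ℝ)| ≤ β := by exact_mod_cast ht
    have hi' : (i : ℝ) ≤ β := by exact_mod_cast hi
    have hw' : (w.length : ℝ) ≤ β := by exact_mod_cast hw
    have hn' : (F.length : ℝ) + 1 ≤ β := by exact_mod_cast hn
    have hL' : (1 : ℝ) ≤ L := by exact_mod_cast hL
    have hx := hC x (by simp)
    have hy := hC y (by simp)
    have hw2 : N ω (1 :: x :: y :: xs) (ev xs w) ≤ C * β := w2.trans (by gcongr)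
    have hNz : N ω (1 :: x :: y :: xs) ((x * y ^ i) ^ ((L : ℤ) * t)) ≤ L * (β * (C + β * C)) := by
      have h1 : N ω (1 :: x :: y :: xs) (x * y ^ i) ≤ C + β * C := by
        refine (N_mul h _ _ _).trans (add_le_add hx.1 ?_)
        rw [← zpow_natCast, N_zpow h, Int.cast_natCast, Nat.abs_cast]
        exact mul_le_mul hi' hy.1 (N_nonneg _ _) (by positivity)
      rw [N_zpow h, Int.cast_mul, abs_mul, Int.cast_natCast, Nat.abs_cast, mul_assoc]
      have := N_nonneg (ω := ω) (1 :: x :: y :: xs) (x * y ^ i)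
      gcongr
    have hCb : 0 ≤ C * β := by positivity
    have hLC : C * β ≤ L * (C * β) := le_mul_of_one_le_left hCb hL'
    push_cast
    refine ⟨?_, ?_, ?_, ?_⟩
    · rw [h.left, h.left, zpow_left h, h.left, pow_left h, self h, h.ne]
      have h1 := (le_N (ω := ω) (ev xs w) (a := y) (S := 1 :: x :: y :: xs) (by simp)).trans hw2
      push_cast
      rw [abs_le] at i1 h1 ⊢
      constructor <;> linarith
    · rw [right h, right h, zpow_right h, right h, pow_right h, self h, h.ne, h.anti x (ev xs w)]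
      have h1 := (le_N (ω := ω) (ev xs w) (a := x) (S := 1 :: x :: y :: xs) (by simp)).trans hw2
      push_cast
      rw [abs_le] at i2 h1 ⊢
      constructor <;> linarith
    · have h1 := N_mul h (1 :: x :: y :: xs) g ((x * y ^ i) ^ ((L : ℤ) * t) * ev xs w)
      have h2 := N_mul h (1 :: x :: y :: xs) ((x * y ^ i) ^ ((L : ℤ) * t)) (ev xs w)
      linarith
    · rw [← mul_assoc g, h.mul, h.mul g, A_zpow h, zpow_right h, right h, pow_right h, h.mul x,
        ← zpow_natCast y, A_zpow h, zpow_right h, h.ne, h.anti g x]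
      have e1 : |A x + i * A y + i| ≤ C + β * C + β := by
        refine (abs_add_three _ _ _).trans (add_le_add_three hx.2 ?_ ?_)
        · rw [abs_mul, Nat.abs_cast]; exact mul_le_mul hi' hy.2 (abs_nonneg _) (by positivity)
        · rwa [Nat.abs_cast]
      have e0 : C * β * F.length ≤ C * β * β := by gcongr; linarith
      have e2 : |i * (ω g y - L * p) - (ω x g - L * q)| ≤ β * (C * β * β) + C * β * β := by
        refine (abs_sub _ _).trans (add_le_add ?_ (i2.trans e0))
        rw [abs_mul, Nat.abs_cast]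
        exact mul_le_mul hi' (i1.trans e0) (abs_nonneg _) (by positivity)
      have e3 : |A (ev xs w)| ≤ L * (C * β ^ 2) :=
        (w3.trans (by gcongr)).trans (le_mul_of_one_le_left (by positivity) hL')
      have e4 : |ω (g * (x * y ^ i) ^ ((L : ℤ) * t)) (ev xs w)| ≤
          β * (L * (β * (C + β * C) + C * β)) * β := by
        refine (w1 _).trans (mul_le_mul ?_ hw' (by positivity) (by positivity))
        have h1 := N_mul h (1 :: x :: y :: xs) g ((x * y ^ i) ^ ((L : ℤ) * t))
        have h2 : ((F.length : ℝ) + 1) * (L * (β * (C + β * C) + C * β)) ≤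
            β * (L * (β * (C + β * C) + C * β)) := by gcongr
        have h3 : 0 ≤ L * (C * β) := by positivity
        linarith
      have e5 : |L * t * (A x + i * A y + i)| ≤ L * β * (C + β * C + β) := by
        rw [abs_mul, abs_mul, Nat.abs_cast]; gcongr
      have e6 : |L * t * (i * (ω g y - L * p) - (ω x g - L * q))| ≤
          L * β * (β * (C * β * β) + C * β * β) := by
        rw [abs_mul, abs_mul, Nat.abs_cast]; gcongr
      have e7 : β * (L * (β * (C + β * C) + C * β)) * β ≤
          L * (β * (β * (β * (C + β * C)) + C * β) * β) := by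
        have h1 : (1 : ℝ) ≤ β := by linarith [Nat.cast_nonneg (α := ℝ) F.length]
        have h2 : β * (C + β * C) ≤ β * (β * (C + β * C)) :=
          le_mul_of_one_le_left (by positivity) h1
        calc _ = L * (β * (β * (C + β * C) + C * β) * β) := by ring
          _ ≤ _ := by gcongr
      rw [zpow_natCast]
      unfold R at i4 ⊢
      push_cast
      rw [abs_le] at i4 e3 e4 e5 e6 ⊢
      constructor <;> linarith

end RHeisA

theorem heis_approx {A : G → ℝ} {ω : G → G → ℝ} {x y : G} (h : IsArea A ω x y) (xs : List G) :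
    ∃ r : Polynomial ℕ, ∀ (β L : ℕ) (F : List Fac), r.eval β ≤ L → F.length ≤ β →
      (∀ f ∈ F, |f.1| ≤ β ∧ f.2.1 ≤ β ∧ f.2.2.length ≤ β) → (F.map (fac xs x y L)).prod = 1 →
      (st F).1 = 0 ∧ (st F).2.2 = 0 := by
  obtain ⟨C, hC⟩ : ∃ C : ℕ, ∀ a ∈ 1 :: x :: y :: xs,
      RHeisA.N ω (1 :: x :: y :: xs) a ≤ C ∧ |A a| ≤ C := by
    obtain ⟨c, hc⟩ := ((1 :: x :: y :: xs).finite_toSet.image
      fun a => RHeisA.N ω (1 :: x :: y :: xs) a + |A a|).bddAbove
    refine ⟨⌈c⌉₊, fun a ha => ?_⟩
    have h1 := (hc ⟨a, ha, rfl⟩).trans (Nat.le_ceil c)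
    have h2 := RHeisA.N_nonneg (ω := ω) (1 :: x :: y :: xs) a
    have h3 := abs_nonneg (A a)
    exact ⟨by linarith, by linarith⟩
  obtain ⟨r, hr0⟩ : ∃ r : Polynomial ℕ, ∀ b : ℕ, r.eval b = b * (b * (C + b * C + b) +
      b * (b * (C * b * b) + C * b * b) + C * b ^ 2 + b * (b * (b * (C + b * C)) + C * b) * b) +
      C * b * b + 1 := by
    let X : Polynomial ℕ := Polynomial.X
    let c : Polynomial ℕ := Polynomial.C C
    exact ⟨X * (X * (c + X * c + X) + X * (X * (c * X * X) + c * X * X) + c * X ^ 2 +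
      X * (X * (X * (c + X * c)) + c * X) * X) + c * X * X + 1, fun b => by
        simp only [X, c, Polynomial.eval_add, Polynomial.eval_mul, Polynomial.eval_X,
          Polynomial.eval_C, Polynomial.eval_pow, Polynomial.eval_one]⟩
  refine ⟨r, fun β L F hr hn hF h1 => ?_⟩
  rw [hr0] at hr
  have hr' : (β : ℝ) * RHeisA.R C β + C * β * β + 1 ≤ L := by
    unfold RHeisA.R; exact_mod_cast hr
  obtain ⟨i1, -, -, i4⟩ := RHeisA.main h xs hC (L := L) (by omega) F hn hF
  have hn' : (F.length : ℝ) ≤ β := by exact_mod_cast hn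
  have hR : 0 ≤ RHeisA.R C β := by unfold RHeisA.R; positivity
  have hL : (0 : ℝ) < L := lt_of_lt_of_le (by positivity) hr'
  rw [h1, RHeisA.one_left h, zero_sub, abs_neg, abs_mul, Nat.abs_cast] at i1
  rw [h1, RHeisA.A_one h, zero_sub, abs_neg, abs_mul, abs_pow, Nat.abs_cast] at i4
  have k1 : (C : ℝ) * β * F.length ≤ C * β * β := by gcongr
  have k2 : (F.length : ℝ) * (L * RHeisA.R C β) ≤ β * (L * RHeisA.R C β) := by gcongr
  have k3 : (0 : ℝ) ≤ β * RHeisA.R C β := by positivity
  have k4 : (0 : ℝ) ≤ C * β * β := by positivity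
  constructor
  · have : |((st F).1 : ℝ)| < 1 := lt_of_mul_lt_mul_left (a := (L : ℝ)) (by linarith) hL.le
    exact Int.abs_lt_one_iff.1 (by exact_mod_cast this)
  · have : |((st F).2.2 : ℝ)| < 1 :=
      lt_of_mul_lt_mul_left (a := (L : ℝ) ^ 2) (by nlinarith) (by positivity)
    exact Int.abs_lt_one_iff.1 (by exact_mod_cast this)

end Pool.Agent.P.MP_867493_lc
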