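import Pool.Agent.P.MP_867493_lc.D.IDefs

/-!
ROW HeisB. The combinatorics of the area reduction. For `st = (p, q, a)` put `Ψ i = a - i p² + p q`. A factor of slope `i`
does not change `Ψ i`, and `Ψ (i + 1) = Ψ i - p²`. If the arcs `1 .. k` of layer `i` are chosen, with tail amounts `a_j`
(sign `(-1)^i`) and head amounts `b_j` (opposite sign), then
`Ψ (i + 1) after = Ψ i before - (p - ∑ a_j)² + 2 ∑_{j < l} b_j a_l`, and every `b_j a_l` is negative.
`comb_sound`: induction on the layers (`List.reverseRecOn`, `idx (ls ++ [l]) = idx ls ++ l.map (ls.length, ·)`,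
`List.sublist_append_iff`, `List.sublist_map_iff`) of: for `F = (amt 0 s, 0, []) :: facs ch`, `Ψ n ≤ 0`, and `Ψ n = 0` gives
`v` and `h ∈ LP xs s ls v` with `p = amt n v` and product `h * fac (amt n v, n, [])`. After the last factor the amount is
`p - amt n t` and the area is `a - amt n t * (n p - q)`, which is `Ψ n` when `p = amt n t`.
-/

set_option autoImplicit false

namespace Pool.Agent.P.MP_867493_lc

variable {G : Type} [Group G]

namespace RHeisB

/-- The quantity that a factor of slope `i` does not change. -/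
def Psi (i : ℕ) (z : ℤ × ℤ × ℤ) : ℤ := z.2.2 - i * z.1 ^ 2 + z.1 * z.2.1

theorem st_snoc (F : List Fac) (f : Fac) :
    st (F ++ [f]) = ((st F).1 + f.1, (st F).2.1 + f.1 * f.2.1,
      (st F).2.2 + f.1 * (f.2.1 * (st F).1 - (st F).2.1)) := by
  simp only [st, List.foldl_append, List.foldl_cons, List.foldl_nil]

theorem idx_snoc (ls : List (List Arc)) (l : List Arc) :
    idx (ls ++ [l]) = idx ls ++ l.map (fun a => (ls.length, a)) := by
  unfold idx
  rw [List.length_append, List.length_singleton, List.range_succ, List.flatMap_append]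
  congr 1
  · apply List.flatMap_congr
    intro i hi
    have hi' : i < ls.length := List.mem_range.1 hi
    rw [List.getD_append _ _ _ _ hi']
  · simp

theorem facs_append (c d : List (ℕ × Arc)) : facs (c ++ d) = facs c ++ facs d := by
  simp only [facs, List.flatMap_append]

theorem facs_single (i : ℕ) (a : Arc) :
    facs [(i, a)] = [(-amt i a.1, i, a.2.2), (amt (i + 1) a.2.1, i + 1, [])] := by
  simp [facs]

theorem sgn_amt (i u : ℕ) : (-1 : ℤ) ^ i * amt i u = u + 1 := by
  unfold amt
  rw [← mul_assoc, ← mul_pow]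
  simp

theorem sgn_amt_succ (i u : ℕ) : (-1 : ℤ) ^ i * amt (i + 1) u = -(u + 1) := by
  have h := sgn_amt (i + 1) u
  rw [pow_succ] at h
  linarith

theorem amt_inj (i u v : ℕ) (h : amt i u = amt i v) : u = v := by
  have h1 := sgn_amt i u
  have h2 := sgn_amt i v
  rw [h] at h1
  have : (u : ℤ) = v := by linarith
  exact_mod_cast this

theorem amt_ne (i u : ℕ) : amt i u ≠ 0 := by
  intro h
  have h1 := sgn_amt i u
  rw [h, mul_zero] at h1
  omega

theorem st_arc (F : List Fac) (i : ℕ) (a : Arc) :
    (st (F ++ facs [(i, a)])).1 = (st F).1 - amt i a.1 + amt (i + 1) a.2.1 ∧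
    Psi (i + 1) (st (F ++ facs [(i, a)])) =
      Psi (i + 1) (st F) + 2 * (st F).1 * amt i a.1 - amt i a.1 ^ 2 := by
  have e : F ++ facs [(i, a)] =
      (F ++ [(-amt i a.1, i, a.2.2)]) ++ [(amt (i + 1) a.2.1, i + 1, [])] := by
    rw [facs_single]; simp
  rw [e, st_snoc, st_snoc]
  constructor
  · simp only; ring
  · simp only [Psi]; push_cast; ring

theorem layer (F : List Fac) (i : ℕ) (as : List Arc) : ∃ A B C : ℤ,
    (st (F ++ facs (as.map fun a => (i, a)))).1 = (st F).1 - A + B ∧
    Psi (i + 1) (st (F ++ facs (as.map fun a => (i, a)))) =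
      Psi i (st F) - ((st F).1 - A) ^ 2 + 2 * C ∧
    (-1 : ℤ) ^ i * B ≤ -(as.length : ℤ) ∧ C ≤ 0 ∧ C ≤ 1 - (as.length : ℤ) := by
  induction as using List.reverseRecOn with
  | nil =>
    refine ⟨0, 0, 0, by simp [facs], ?_, by simp, le_rfl, by simp⟩
    simp only [List.map_nil, facs, List.flatMap_nil, List.append_nil, Psi]
    push_cast; ring
  | append_singleton as a ih =>
    obtain ⟨A, B, C, h1, h2, h3, h4, h5⟩ := ih
    have e : F ++ facs ((as ++ [a]).map fun a => (i, a)) =
        (F ++ facs (as.map fun a => (i, a))) ++ facs [(i, a)] := by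
      rw [List.map_append, facs_append, List.append_assoc]; rfl
    obtain ⟨k1, k2⟩ := st_arc (F ++ facs (as.map fun a => (i, a))) i a
    have s1 := sgn_amt i a.1
    have s2 := sgn_amt_succ i a.2.1
    have hsq : ((-1 : ℤ) ^ i) * (-1) ^ i = 1 := by rw [← mul_pow]; simp
    have hBa : B * amt i a.1 = ((-1 : ℤ) ^ i * B) * ((a.1 : ℤ) + 1) := by
      rw [← s1]
      calc B * amt i a.1 = (((-1 : ℤ) ^ i) * (-1) ^ i) * (B * amt i a.1) := by rw [hsq, one_mul]
        _ = _ := by ring
    have hl : (0 : ℤ) ≤ as.length := Int.natCast_nonneg _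
    have ha : (0 : ℤ) ≤ (a.1 : ℤ) := Int.natCast_nonneg _
    have hb : (0 : ℤ) ≤ (a.2.1 : ℤ) := Int.natCast_nonneg _
    have hle : B * amt i a.1 ≤ -(as.length : ℤ) := by
      rw [hBa]; nlinarith
    refine ⟨A + amt i a.1, B + amt (i + 1) a.2.1, C + B * amt i a.1, ?_, ?_, ?_, ?_, ?_⟩
    · rw [e, k1, h1]; ring
    · rw [e, k2, h2, h1]; ring
    · rw [mul_add, s2, List.length_append, List.length_singleton]; push_cast; linarith
    · linarith
    · rw [List.length_append, List.length_singleton]; push_cast; linarith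

theorem fac_cancel (xs : List G) (x y : G) (L : ℕ) (c : ℤ) (i : ℕ) (w : Wd) :
    fac xs x y L (c, i, []) * fac xs x y L (-c, i, w) = ev xs w := by
  simp only [fac, ev_nil, mul_one]
  rw [← mul_assoc, ← zpow_add]
  simp

theorem prod_arc (xs : List G) (x y : G) (L : ℕ) (F : List Fac) (i : ℕ) (a : Arc) (h : G)
    (hF : (F.map (fac xs x y L)).prod = h * fac xs x y L (amt i a.1, i, [])) :
    ((F ++ facs [(i, a)]).map (fac xs x y L)).prod =
      h * ev xs a.2.2 * fac xs x y L (amt (i + 1) a.2.1, i + 1, []) := by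
  rw [List.map_append, List.prod_append, hF, facs_single]
  simp only [List.map_cons, List.map_nil, List.prod_cons, List.prod_nil, mul_one]
  rw [← fac_cancel xs x y L (amt i a.1) i a.2.2]
  simp only [mul_assoc]

theorem main (xs : List G) (x y : G) (L s : ℕ) (ls : List (List Arc)) :
    ∀ ch : List (ℕ × Arc), ch.Sublist (idx ls) →
      Psi ls.length (st ((amt 0 s, 0, []) :: facs ch)) ≤ 0 ∧
      (Psi ls.length (st ((amt 0 s, 0, []) :: facs ch)) = 0 → ∃ (v : ℕ) (h : G),
        h ∈ LP xs s ls v ∧ (st ((amt 0 s, 0, []) :: facs ch)).1 = amt ls.length v ∧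
        (((amt 0 s, 0, []) :: facs ch).map (fac xs x y L)).prod =
          h * fac xs x y L (amt ls.length v, ls.length, [])) := by
  induction ls using List.reverseRecOn with
  | nil =>
    intro ch hch
    have : ch = [] := by simpa [idx] using hch
    subst this
    have e : Psi ([] : List (List Arc)).length (st ((amt 0 s, 0, []) :: facs [])) = 0 := by
      simp [Psi, st, facs]
    refine ⟨e.le, fun _ => ⟨s, 1, (mem_LP_nil xs s s 1).2 ⟨rfl, rfl⟩, ?_, ?_⟩⟩
    · simp [st, facs]
    · simp [facs]
  | append_singleton ls l ih =>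
    intro ch hch
    rw [idx_snoc, List.sublist_append_iff] at hch
    obtain ⟨c1, c2, rfl, h1, h2⟩ := hch
    rw [List.sublist_map_iff] at h2
    obtain ⟨as, has, rfl⟩ := h2
    obtain ⟨i1, i2⟩ := ih c1 h1
    have e : (amt 0 s, 0, []) :: facs (c1 ++ as.map fun a => (ls.length, a)) =
        ((amt 0 s, 0, []) :: facs c1) ++ facs (as.map fun a => (ls.length, a)) := by
      rw [facs_append]; rfl
    rw [e, List.length_append, List.length_singleton]
    generalize ((amt 0 s, 0, []) :: facs c1 : List Fac) = F at i1 i2 ⊢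
    obtain ⟨A, B, C, k1, k2, k3, k4, k5⟩ := layer F ls.length as
    have hsq := sq_nonneg ((st F).1 - A)
    refine ⟨by rw [k2]; linarith, fun h0 => ?_⟩
    have hz : Psi ls.length (st F) = 0 := by rw [k2] at h0; linarith
    have hC : C = 0 := by rw [k2] at h0; linarith
    obtain ⟨v, h, hv, hp, hprod⟩ := i2 hz
    have hPs : Psi (ls.length + 1) (st F) = Psi ls.length (st F) - (st F).1 ^ 2 := by
      simp only [Psi]; push_cast; ring
    rcases as with _ | ⟨a, _ | ⟨b, r⟩⟩
    · exfalso
      simp only [List.map_nil, facs, List.flatMap_nil, List.append_nil] at h0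
      rw [hPs, hz, hp] at h0
      have : amt ls.length v ^ 2 = 0 := by linarith
      exact amt_ne _ _ (pow_eq_zero_iff (two_ne_zero) |>.1 this)
    · have hal : a ∈ l := has.subset (by simp)
      simp only [List.map_cons, List.map_nil] at h0 ⊢
      obtain ⟨m1, m2⟩ := st_arc F ls.length a
      rw [m2, hPs, hz] at h0
      have h3 : ((st F).1 - amt ls.length a.1) ^ 2 = 0 := by linarith
      have h4 : (st F).1 = amt ls.length a.1 :=
        sub_eq_zero.1 (pow_eq_zero_iff (two_ne_zero) |>.1 h3)
      have hva : v = a.1 := amt_inj ls.length _ _ (by rw [← hp, h4])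
      subst hva
      refine ⟨a.2.1, h * ev xs a.2.2, ?_, ?_, prod_arc xs x y L F _ a h hprod⟩
      · rw [mem_LP_snoc]
        exact ⟨a, hal, rfl, by simpa using hv⟩
      · rw [m1, h4]; ring
    · exfalso
      simp only [List.length_cons] at k5
      push_cast at k5
      have : (0 : ℤ) ≤ r.length := Int.natCast_nonneg _
      linarith

theorem compl (xs : List G) (x y : G) (L s : ℕ) (ls : List (List Arc)) :
    ∀ (v : ℕ) (h : G), h ∈ LP xs s ls v → ∃ ch : List (ℕ × Arc), ch.Sublist (idx ls) ∧
      (((amt 0 s, 0, []) :: facs ch).map (fac xs x y L)).prod =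
        h * fac xs x y L (amt ls.length v, ls.length, []) := by
  induction ls using List.reverseRecOn with
  | nil =>
    intro v h hh
    obtain ⟨rfl, rfl⟩ := (mem_LP_nil xs s v h).1 hh
    exact ⟨[], List.nil_sublist _, by simp [facs]⟩
  | append_singleton ls l ih =>
    intro v h hh
    obtain ⟨a, hal, rfl, hm⟩ := (mem_LP_snoc xs s ls l v h).1 hh
    obtain ⟨c1, h1, h2⟩ := ih _ _ hm
    refine ⟨c1 ++ [(ls.length, a)], ?_, ?_⟩
    · rw [idx_snoc]
      refine h1.append ?_
      rw [List.singleton_sublist]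
      exact List.mem_map.2 ⟨a, hal, rfl⟩
    · have e : (amt 0 s, 0, []) :: facs (c1 ++ [(ls.length, a)]) =
          ((amt 0 s, 0, []) :: facs c1) ++ facs [(ls.length, a)] := by
        rw [facs_append]; rfl
      rw [e, prod_arc xs x y L _ _ a _ h2, List.length_append, List.length_singleton]
      simp

end RHeisB


theorem comb_sound (xs : List G) (x y : G) (L s t : ℕ) (ls : List (List Arc))
    (ch : List (ℕ × Arc)) (hch : ch.Sublist (idx ls))
    (h1 : (st ((amt 0 s, 0, []) :: facs ch ++ [(-amt ls.length t, ls.length, [])])).1 = 0)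
    (h2 : (st ((amt 0 s, 0, []) :: facs ch ++ [(-amt ls.length t, ls.length, [])])).2.2 = 0) :
    (((amt 0 s, 0, []) :: facs ch ++ [(-amt ls.length t, ls.length, [])]).map
      (fac xs x y L)).prod ∈ LP xs s ls t := by
  obtain ⟨_, i2⟩ := RHeisB.main xs x y L s ls ch hch
  generalize ((amt 0 s, 0, []) :: facs ch : List Fac) = F at i2 h1 h2 ⊢
  rw [RHeisB.st_snoc] at h1 h2
  simp only at h1 h2
  have hp : (st F).1 = amt ls.length t := by linarith
  have hz : RHeisB.Psi ls.length (st F) = 0 := by
    simp only [RHeisB.Psi]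
    rw [← hp] at h2
    linarith
  obtain ⟨v, h, hv, hp', hprod⟩ := i2 hz
  have hvt : v = t := RHeisB.amt_inj ls.length _ _ (by rw [← hp', hp])
  subst hvt
  rw [List.map_append, List.prod_append, hprod]
  simp only [List.map_cons, List.map_nil, List.prod_cons, List.prod_nil, mul_one]
  rw [mul_assoc, RHeisB.fac_cancel]
  simpa using hv

theorem comb_complete (xs : List G) (x y : G) (L s t : ℕ) (ls : List (List Arc)) (h : G)
    (hh : h ∈ LP xs s ls t) : ∃ ch : List (ℕ × Arc), ch.Sublist (idx ls) ∧
      (((amt 0 s, 0, []) :: facs ch ++ [(-amt ls.length t, ls.length, [])]).map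
        (fac xs x y L)).prod = h := by
  obtain ⟨ch, h1, h2⟩ := RHeisB.compl xs x y L s ls t h hh
  refine ⟨ch, h1, ?_⟩
  generalize ((amt 0 s, 0, []) :: facs ch : List Fac) = F at h2 ⊢
  rw [List.map_append, List.prod_append, h2]
  simp only [List.map_cons, List.map_nil, List.prod_cons, List.prod_nil, mul_one]
  rw [mul_assoc, RHeisB.fac_cancel]
  simp

end Pool.Agent.P.MP_867493_lc
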