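import Pool.Agent.P.MP_867493_lc.D.IDefs

/-!
An invariant character of the commutator subgroup gives an area function: the central extension of
the group by the real line defined by the commutator form splits over the centre.
-/

set_option autoImplicit false

namespace Pool.Agent.P.MP_867493_lc

open scoped commutatorElement

variable {G : Type} [Group G]

namespace RHeisD

/-- An alternating biadditive form on a group. -/
structure Bil (G : Type) [Group G] where
  ω : G → G → ℝ
  left : ∀ g h k, ω (g * h) k = ω g k + ω h k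
  anti : ∀ g h, ω g h = -ω h g

variable (B : Bil G)

theorem Bil.self (g : G) : B.ω g g = 0 := by linarith [B.anti g g]

theorem Bil.one_left (k : G) : B.ω 1 k = 0 := by
  have := B.left 1 1 k
  rw [one_mul] at this
  linarith

theorem Bil.inv_left (g k : G) : B.ω g⁻¹ k = -B.ω g k := by
  have := B.left g⁻¹ g k
  rw [inv_mul_cancel, B.one_left] at this
  linarith

theorem Bil.right (g h k : G) : B.ω g (h * k) = B.ω g h + B.ω g k := by
  rw [B.anti g, B.left, B.anti h, B.anti k]; ring

theorem Bil.inv_right (g k : G) : B.ω g k⁻¹ = -B.ω g k := by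
  linarith [B.anti g k⁻¹, B.inv_left k g, B.anti k g]

/-- The central extension. -/
@[ext]
structure Ext (B : Bil G) where
  g : G
  a : ℝ

instance : Mul (Ext B) := ⟨fun p q => ⟨p.g * q.g, p.a + q.a + B.ω p.g q.g⟩⟩

instance : One (Ext B) := ⟨⟨1, 0⟩⟩

instance : Inv (Ext B) := ⟨fun p => ⟨p.g⁻¹, -p.a⟩⟩

theorem mul_g (p q : Ext B) : (p * q).g = p.g * q.g := rfl

theorem mul_a (p q : Ext B) : (p * q).a = p.a + q.a + B.ω p.g q.g := rfl

theorem one_g : (1 : Ext B).g = 1 := rfl

theorem one_a : (1 : Ext B).a = 0 := rfl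

theorem inv_g (p : Ext B) : (p⁻¹).g = p.g⁻¹ := rfl

theorem inv_a (p : Ext B) : (p⁻¹).a = -p.a := rfl

instance : Group (Ext B) :=
  Group.ofLeftAxioms
    (fun p q r => Ext.ext (by simp only [mul_g, mul_assoc])
      (by simp only [mul_a, mul_g, B.left, B.right]; ring))
    (fun p => Ext.ext (by simp only [mul_g, one_g, one_mul])
      (by simp only [mul_a, one_a, one_g, B.one_left]; ring))
    (fun p => Ext.ext (by simp only [mul_g, inv_g, one_g, inv_mul_cancel])
      (by simp only [mul_a, inv_a, inv_g, one_a, B.inv_left, B.self]; ring))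

theorem exists_area {ψ : G → ℝ}
    (hadd : ∀ a ∈ commutator G, ∀ b ∈ commutator G, ψ (a * b) = ψ a + ψ b)
    (hω : ∀ g h, B.ω g h = ψ ⁅g, h⁆) (h0 : ∀ d ∈ commutator G, ∀ k, B.ω d k = 0) :
    ∃ A : G → ℝ, ∀ g h, A (g * h) = A g + A h + B.ω g h := by
  have ψ1 : ψ 1 = 0 := by
    have := hadd 1 (one_mem _) 1 (one_mem _)
    rw [one_mul] at this
    linarith
  let S : Subgroup (Ext B) :=
    { carrier := {p | p.g ∈ commutator G ∧ p.a = 2 * ψ p.g}
      mul_mem' := fun {p q} hp hq => ⟨mul_mem hp.1 hq.1, by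
        rw [mul_a, mul_g, hadd _ hp.1 _ hq.1, hp.2, hq.2, h0 _ hp.1]; ring⟩
      one_mem' := ⟨one_mem _, by rw [one_a, one_g, ψ1, mul_zero]⟩
      inv_mem' := fun {p} hp => ⟨inv_mem hp.1, by
        have := hadd _ (inv_mem hp.1) _ hp.1
        rw [inv_mul_cancel, ψ1] at this
        rw [inv_a, inv_g, hp.2]
        linarith⟩ }
  have hS : commutator (Ext B) ≤ S := by
    rw [commutator_def, Subgroup.commutator_le]
    intro p _ q _
    refine ⟨Subgroup.commutator_mem_commutator (Subgroup.mem_top p.g) (Subgroup.mem_top q.g), ?_⟩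
    have e : (⁅p, q⁆ : Ext B).g = ⁅p.g, q.g⁆ := rfl
    rw [e, ← hω, commutatorElement_def]
    simp only [mul_a, mul_g, inv_a, inv_g, B.left, B.inv_left, B.inv_right, B.self]
    linarith [B.anti p.g q.g]
  let f : ℝ →+ Additive (Abelianization (Ext B)) :=
    AddMonoidHom.mk' (fun a => Additive.ofMul (Abelianization.of (⟨1, a⟩ : Ext B))) fun a b => by
      rw [← ofMul_mul, ← map_mul]
      congr 2
      exact Ext.ext (one_mul 1).symm (by simp only [mul_a, B.self, add_zero])
  have hf : Function.Injective f := by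
    rw [injective_iff_map_eq_zero]
    intro a ha
    have h1 : (⟨1, a⟩ : Ext B) ∈ (Abelianization.of (G := Ext B)).ker := ha
    rw [Abelianization.ker_of] at h1
    have h2 : a = 2 * ψ 1 := (hS h1).2
    rw [h2, ψ1, mul_zero]
  obtain ⟨r, hr⟩ := (Module.Baer.of_divisible ℝ).extension_property_addMonoidHom f hf
    (AddMonoidHom.id ℝ)
  refine ⟨fun g => -r (Additive.ofMul (Abelianization.of (⟨g, 0⟩ : Ext B))), fun g h => ?_⟩
  have e1 : (⟨g, 0⟩ : Ext B) * ⟨h, 0⟩ = ⟨1, B.ω g h⟩ * ⟨g * h, 0⟩ :=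
    Ext.ext (one_mul _).symm (by simp only [mul_a, B.one_left, add_zero, zero_add])
  have e2 := congrArg (fun p => r (Additive.ofMul (Abelianization.of p))) e1
  simp only [map_mul, ofMul_mul, map_add] at e2
  have e3 : r (Additive.ofMul (Abelianization.of (⟨1, B.ω g h⟩ : Ext B))) = B.ω g h :=
    DFunLike.congr_fun hr (B.ω g h)
  rw [e3] at e2
  linarith

end RHeisD

open RHeisD

theorem heis_of_inv (ψ : G → ℝ)
    (hadd : ∀ a ∈ commutator G, ∀ b ∈ commutator G, ψ (a * b) = ψ a + ψ b)
    (hinv : ∀ g : G, ∀ b ∈ commutator G, ψ (g * b * g⁻¹) = ψ b)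
    (hne : ∃ b ∈ commutator G, ψ b ≠ 0) : Heis G := by
  have hc : ∀ g h : G, ⁅g, h⁆ ∈ commutator G := fun g h =>
    Subgroup.commutator_mem_commutator (Subgroup.mem_top g) (Subgroup.mem_top h)
  have hn : ∀ g : G, ∀ b ∈ commutator G, g * b * g⁻¹ ∈ commutator G := fun g b hb =>
    (inferInstance : (commutator G).Normal).conj_mem b hb g
  have ψ1 : ψ 1 = 0 := by
    have := hadd 1 (one_mem _) 1 (one_mem _)
    rw [one_mul] at this
    linarith
  have ψi : ∀ b ∈ commutator G, ψ b⁻¹ = -ψ b := fun b hb => by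
    have := hadd _ (inv_mem hb) _ hb
    rw [inv_mul_cancel, ψ1] at this
    linarith
  obtain ⟨x, y, hxy⟩ : ∃ x y : G, ψ ⁅x, y⁆ ≠ 0 := by
    by_contra hz
    push Not at hz
    obtain ⟨b, hb, h0⟩ := hne
    refine h0 ?_
    have hb' := hb
    rw [commutator_eq_closure] at hb'
    clear hb h0
    induction hb' using Subgroup.closure_induction with
    | mem a ha =>
      obtain ⟨g, h, rfl⟩ := ha
      exact hz g h
    | one => exact ψ1
    | mul a b ha hb h1 h2 =>
      rw [← commutator_eq_closure] at ha hb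
      rw [hadd a ha b hb, h1, h2, add_zero]
    | inv a ha h1 =>
      rw [← commutator_eq_closure] at ha
      rw [ψi a ha, h1, neg_zero]
  let B : Bil G :=
    { ω := fun g h => ψ ⁅g, h⁆ / ψ ⁅x, y⁆
      left := fun g h k => by
        rw [show ⁅g * h, k⁆ = g * ⁅h, k⁆ * g⁻¹ * ⁅g, k⁆ by
          simp only [commutatorElement_def]; group, hadd _ (hn _ _ (hc _ _)) _ (hc _ _),
          hinv _ _ (hc _ _)]
        ring
      anti := fun g h => by
        rw [← commutatorElement_inv g h, ψi _ (hc g h)]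
        ring }
  obtain ⟨A, hA⟩ := exists_area B (ψ := fun b => ψ b / ψ ⁅x, y⁆)
    (fun a ha b hb => by rw [hadd a ha b hb, add_div]) (fun g h => rfl) fun d hd k => by
      change ψ ⁅d, k⁆ / ψ ⁅x, y⁆ = 0
      rw [show ⁅d, k⁆ = d * (k * d⁻¹ * k⁻¹) by simp only [commutatorElement_def]; group,
        hadd _ hd _ (hn _ _ (inv_mem hd)), hinv _ _ (inv_mem hd), ψi d hd, add_neg_cancel, zero_div]
  exact ⟨A, B.ω, x, y, hA, B.left, B.anti, div_self hxy⟩

end Pool.Agent.P.MP_867493_lc
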