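import Pool.Agent.P.MP_867493_lc.D.HeisA
import Pool.Agent.P.MP_867493_lc.D.HeisB

/-! The area reduction from the layered path problem to the subset sum problem. -/

set_option autoImplicit false

namespace Pool.Agent.P.MP_867493_lc

open Pool.Agent.Lib.NP

variable {G : Type} [Group G]

namespace RHeisS

/-- The word of `(x * y ^ i) ^ n`. -/
def pw (wx wy : Wd) (n i : ℕ) : Wd :=
  (List.replicate n (wx ++ (List.replicate i wy).flatten)).flatten

/-- The word of `(x * y ^ i) ^ (L * amt i u)`. -/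
def zw (wx wy : Wd) (L i u : ℕ) : Wd :=
  if i % 2 = 0 then pw wx wy (L * (u + 1)) i else invW (pw wx wy (L * (u + 1)) i)

/-- The item of an arc. -/
def item (wx wy : Wd) (L : ℕ) (c : ℕ × Arc) : Wd :=
  invW (zw wx wy L c.1 c.2.1) ++ c.2.2.2 ++ zw wx wy L (c.1 + 1) c.2.2.1

/-- The size parameter. -/
def bt (a : ℕ × ℕ × List (List Arc)) : ℕ := 2 * (enc (idx a.2.2)).length + (enc a).length + 2

/-- The instance of the subset sum problem. -/
def inst (wx wy : Wd) (L : ℕ) (a : ℕ × ℕ × List (List Arc)) : List Wd × Wd :=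
  ((idx a.2.2).map (item wx wy L), invW (zw wx wy L 0 a.1) ++ zw wx wy L a.2.2.length a.2.1)

variable {α : Type} [Enc α]

@[fun_prop] theorem pt_zw (wx wy : Wd) {L i u : α → ℕ} (hL : PT L) (hi : PT i) (hu : PT u) :
    PT (fun a => zw wx wy (L a) (i a) (u a)) := by
  unfold zw pw
  refine PT.ite (by fun_prop) (by fun_prop) (by fun_prop)

@[fun_prop] theorem pt_idx {ls : α → List (List Arc)} (h : PT ls) : PT (fun a => idx (ls a)) := by
  unfold idx
  fun_prop

theorem pt_inst (wx wy : Wd) (r : Polynomial ℕ) : PT (fun a => inst wx wy (r.eval (bt a)) a) := by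
  unfold inst item bt
  fun_prop

variable (xs : List G)

theorem ev_rep (n : ℕ) (w : Wd) : ev xs (List.replicate n w).flatten = ev xs w ^ n := by
  induction n with
  | zero => simp
  | succ n ih => rw [List.replicate_succ, List.flatten_cons, ev_append, ih, pow_succ']

theorem ev_zw (wx wy : Wd) (L i u : ℕ) :
    ev xs (zw wx wy L i u) = (ev xs wx * ev xs wy ^ i) ^ ((L : ℤ) * amt i u) := by
  unfold zw pw amt
  split_ifs with h
  · rw [ev_rep, ev_append, ev_rep, (Nat.even_iff.2 h).neg_one_pow, one_mul, ← zpow_natCast]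
    push_cast
    rfl
  · rw [ev_invW, ev_rep, ev_append, ev_rep, (Nat.odd_iff.2 (by omega)).neg_one_pow,
      ← zpow_natCast, ← zpow_neg]
    push_cast
    congr 1
    ring

theorem prod_facs (wx wy : Wd) (L : ℕ) (ch : List (ℕ × Arc)) :
    ((facs ch).map (fac xs (ev xs wx) (ev xs wy) L)).prod =
      ((ch.map (item wx wy L)).map (ev xs)).prod := by
  induction ch with
  | nil => rfl
  | cons c ch ih =>
    unfold facs at ih ⊢
    rw [List.flatMap_cons, List.map_append, List.prod_append, ih]
    simp [fac, item, ev_zw, mul_assoc]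

theorem prod_iff (wx wy : Wd) (L s t : ℕ) (ls : List (List Arc)) (ch : List (ℕ × Arc)) :
    (((amt 0 s, 0, []) :: facs ch ++ [(-amt ls.length t, ls.length, [])]).map
      (fac xs (ev xs wx) (ev xs wy) L)).prod = 1 ↔
    ((ch.map (item wx wy L)).map (ev xs)).prod = ev xs (inst wx wy L (s, t, ls)).2 := by
  rw [List.map_append, List.prod_append, List.map_cons, List.prod_cons, prod_facs]
  simp only [inst, fac, ev_append, ev_invW, ev_zw, ev_nil, mul_one, List.map_cons, List.map_nil,
    List.prod_cons, List.prod_nil, mul_neg, zpow_neg]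
  rw [mul_inv_eq_one, eq_inv_mul_iff_mul_eq]

theorem abs_amt (i u : ℕ) : |amt i u| = u + 1 := by
  rw [amt, abs_mul, abs_neg_one_pow, one_mul]
  exact abs_of_nonneg (by positivity)

theorem length_facs (ch : List (ℕ × Arc)) : (facs ch).length = 2 * ch.length := by
  induction ch with
  | nil => rfl
  | cons c ch ih =>
    unfold facs at ih ⊢
    rw [List.flatMap_cons, List.length_append, ih]
    simp only [List.length_cons, List.length_nil]
    omega

theorem bounds (s t : ℕ) (ls : List (List Arc)) {ch : List (ℕ × Arc)} (h : ch.Sublist (idx ls))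
    {F : List Fac} (hF : F = (amt 0 s, 0, []) :: facs ch ++ [(-amt ls.length t, ls.length, [])]) :
    F.length ≤ bt (s, t, ls) ∧ ∀ f ∈ F, |f.1| ≤ bt (s, t, ls) ∧ f.2.1 ≤ bt (s, t, ls) ∧
      f.2.2.length ≤ bt (s, t, ls) := by
  have e : bt (s, t, ls) = 2 * sz (idx ls) + (2 * s + 1 + (2 * t + 1 + sz ls)) + 2 := by
    change 2 * sz (idx ls) + sz (s, t, ls) + 2 = _
    simp
  have h1 := h.length_le
  have h2 := length_le_sz (idx ls)
  have h3 := length_le_sz ls
  subst hF
  rw [e]
  refine ⟨by simp only [List.length_append, List.length_cons, List.length_nil, length_facs]; omega,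
    fun f hf => ?_⟩
  simp only [List.mem_append, List.mem_cons, List.not_mem_nil, or_false, facs,
    List.mem_flatMap] at hf
  rcases hf with (rfl | ⟨⟨i, u, v, w⟩, hc, hf⟩) | rfl
  · simp only [abs_amt, List.length_nil]
    omega
  · have h4 := sz_le_of_mem (h.subset hc)
    have h5 := length_le_sz w
    simp only [sz_prod, sz_nat] at h4
    rcases hf with rfl | rfl <;> simp only [abs_neg, abs_amt, List.length_nil] <;> omega
  · simp only [abs_neg, abs_amt, List.length_nil]
    omega

end RHeisS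

open RHeisS

theorem lsolv_of_heis (xs : List G) (hxs : Subgroup.closure {x | x ∈ xs} = ⊤) (h : Heis G)
    (ho : Orc xs) : LSolv xs := by
  obtain ⟨A, ω, x, y, h⟩ := h
  obtain ⟨f, hf, hf'⟩ := ho
  obtain ⟨wx, rfl⟩ := exists_word xs hxs x
  obtain ⟨wy, rfl⟩ := exists_word xs hxs y
  obtain ⟨r, hr⟩ := heis_approx h xs
  refine ⟨fun a => f (inst wx wy (r.eval (bt a)) a), hf.comp (pt_inst wx wy r), fun s t ls => ?_⟩
  rw [hf']
  constructor
  · rintro ⟨l, hl, hp⟩
    obtain ⟨ch, hch, rfl⟩ := List.sublist_map_iff.1 hl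
    have h1 := (prod_iff xs wx wy _ s t ls ch).2 hp
    obtain ⟨h2, h3⟩ := bounds s t ls hch rfl
    obtain ⟨h4, h5⟩ := hr _ _ _ le_rfl h2 h3 h1
    exact h1 ▸ comb_sound xs _ _ _ s t ls ch hch h4 h5
  · intro h1
    obtain ⟨ch, hch, hp⟩ := comb_complete xs (ev xs wx) (ev xs wy) (r.eval (bt (s, t, ls))) s t ls
      1 h1
    exact ⟨_, hch.map _, (prod_iff xs wx wy _ s t ls ch).1 hp⟩

end Pool.Agent.P.MP_867493_lc
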