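import Pool.Agent.P.MP_867493_lc.D.IDefs

/-!
ROW Hyp1. Gromov products, broken geodesics, orbits of loxodromic elements.
`step`: `gp a⁻¹ (π a)⁻¹ = ℓ a - gp π⁻¹ a > C + δ`; apply `hyp` to `a⁻¹`, `(π a)⁻¹`, `b`.
`chain`: generalise to `π * l.prod` with `gp π⁻¹ (head) ≤ C + δ`: `ℓ (π a) = ℓ π + ℓ a - 2 gp π⁻¹ a > ℓ π`.
`exists_C`: there is `k ≥ 1` with `ℓ (g ^ (2 k)) ≥ ℓ (g ^ k) + 3 δ + 1` (otherwise `ℓ (g ^ (2 ^ j)) ≤ ℓ g + j (3 δ + 1)`). For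
`T = g ^ k`, `C₀ = gp T⁻¹ T`: `ℓ T > 2 C₀ + 3 δ`; `step` gives `gp (T ^ a)⁻¹ T ≤ C₀ + δ` and `gp (T ^ b) T⁻¹ ≤ C₀ + δ`, hence
`gp (T ^ (b + 1)) T ≥ ℓ T - C₀ - δ > C₀ + 2 δ` and `gp (T ^ a)⁻¹ (T ^ b) ≤ C₀ + 2 δ` by `hyp`; divide by `k` with remainder.
-/

set_option autoImplicit false

namespace Pool.Agent.P.MP_867493_lc

variable {G : Type} [Group G] {ℓ : G → ℝ} {δ : ℝ}

theorem HL.nonneg (h : HL ℓ δ) (a : G) : 0 ≤ ℓ a := by
  have e1 := h.mul a a⁻¹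
  rw [mul_inv_cancel, h.one, h.inv] at e1
  linarith

theorem HL.delta_nonneg (h : HL ℓ δ) : 0 ≤ δ := by
  have e1 := h.hyp 1 1 1
  rw [min_self] at e1
  linarith

theorem HL.pow_le (h : HL ℓ δ) (a : G) (n : ℕ) : ℓ (a ^ n) ≤ n * ℓ a := by
  induction n with
  | zero => simp [h.one]
  | succ n ih =>
    have e1 := h.mul (a ^ n) a
    rw [pow_succ]
    push_cast
    linarith

theorem HL.gp_comm (h : HL ℓ δ) (a b : G) : gp ℓ a b = gp ℓ b a := by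
  have e1 := h.inv (a⁻¹ * b)
  rw [mul_inv_rev, inv_inv] at e1
  unfold gp
  rw [e1]
  ring

theorem HL.gp_nonneg (h : HL ℓ δ) (a b : G) : 0 ≤ gp ℓ a b := by
  have e1 := h.mul a⁻¹ b
  rw [h.inv] at e1
  unfold gp
  linarith

theorem HL.gp_le_left (h : HL ℓ δ) (a b : G) : gp ℓ a b ≤ ℓ a := by
  have e1 := h.mul a (a⁻¹ * b)
  rw [mul_inv_cancel_left] at e1
  unfold gp
  linarith

theorem HL.gp_le_right (h : HL ℓ δ) (a b : G) : gp ℓ a b ≤ ℓ b := by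
  rw [h.gp_comm]
  exact h.gp_le_left b a

theorem HL.gp_mul_right (h : HL ℓ δ) (a b c : G) : gp ℓ (a * c) b ≤ gp ℓ a b + ℓ c := by
  have e1 := h.mul a c
  have e2 := h.mul c ((a * c)⁻¹ * b)
  rw [show c * ((a * c)⁻¹ * b) = a⁻¹ * b by group] at e2
  unfold gp
  linarith

theorem HL.gp_mul_left (h : HL ℓ δ) (a b c : G) : gp ℓ (c * a) (c * b) ≤ gp ℓ a b + ℓ c := by
  have e1 := h.mul c a
  have e2 := h.mul c b
  unfold gp
  rw [show (c * a)⁻¹ * (c * b) = a⁻¹ * b by group]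
  linarith

theorem HL.gp_add (h : HL ℓ δ) (a b : G) : gp ℓ (a * b) a + gp ℓ a⁻¹ b = ℓ a := by
  unfold gp
  rw [show (a * b)⁻¹ * a = b⁻¹ by group, inv_inv, h.inv, h.inv]
  ring

theorem HL.step (h : HL ℓ δ) {C : ℝ} {π a b : G} (h1 : gp ℓ π⁻¹ a ≤ C + δ)
    (h2 : gp ℓ a⁻¹ b ≤ C) (h3 : 2 * C + 2 * δ < ℓ a) : gp ℓ (π * a)⁻¹ b ≤ C + δ := by
  have e1 : gp ℓ a⁻¹ (π * a)⁻¹ + gp ℓ π⁻¹ a = ℓ a := by
    unfold gp
    rw [show a⁻¹⁻¹ * (π * a)⁻¹ = π⁻¹ by group, inv_inv, h.inv, h.inv, h.inv]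
    ring
  have e2 := h.hyp a⁻¹ (π * a)⁻¹ b
  rcases le_total (gp ℓ a⁻¹ (π * a)⁻¹) (gp ℓ (π * a)⁻¹ b) with e3 | e3
  · rw [min_eq_left e3] at e2
    linarith
  · rw [min_eq_right e3] at e2
    linarith

theorem HL.chain (h : HL ℓ δ) {C : ℝ} (hC : 0 ≤ C) (l : List G) (hl : l ≠ [])
    (h1 : ∀ a ∈ l, 2 * C + 2 * δ < ℓ a) (h2 : l.IsChain fun a b => gp ℓ a⁻¹ b ≤ C) :
    l.prod ≠ 1 := by
  have key : ∀ (l : List G) (a π : G), (∀ x ∈ a :: l, 2 * C + 2 * δ < ℓ x) →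
      ((a :: l).IsChain fun a b => gp ℓ a⁻¹ b ≤ C) → gp ℓ π⁻¹ a ≤ C + δ →
      ℓ π < ℓ (π * (a :: l).prod) := by
    intro l
    induction l with
    | nil =>
      intro a π k1 _ k3
      have e1 := k1 a (by simp)
      unfold gp at k3
      rw [inv_inv, h.inv] at k3
      rw [List.prod_cons, List.prod_nil, mul_one]
      linarith
    | cons b l ih =>
      intro a π k1 k2 k3
      have e1 := k1 a (by simp)
      rw [List.isChain_cons_cons] at k2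
      have e2 := h.step k3 k2.1 e1
      have e3 := ih b (π * a) (fun x hx => k1 x (List.mem_cons_of_mem _ hx)) k2.2 e2
      unfold gp at k3
      rw [inv_inv, h.inv] at k3
      rw [List.prod_cons, ← mul_assoc]
      linarith
  obtain ⟨a, l, rfl⟩ := List.exists_cons_of_ne_nil hl
  have e0 : gp ℓ (1 : G)⁻¹ a ≤ C + δ := by
    have := h.gp_le_left (1 : G)⁻¹ a
    rw [h.inv, h.one] at this
    linarith [h.delta_nonneg]
  have e1 := key l a 1 h1 h2 e0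
  intro e2
  rw [e2, mul_one] at e1
  exact lt_irrefl _ e1

namespace RHyp1

theorem exists_k (h : HL ℓ δ) {g : G} (hg : Lox ℓ g) :
    ∃ k : ℕ, 0 < k ∧ ℓ (g ^ k) + 3 * δ + 1 ≤ ℓ (g ^ k * g ^ k) := by
  obtain ⟨τ, c, hτ, hc⟩ := hg
  have hδ := h.delta_nonneg
  have hl := h.nonneg g
  by_contra hne
  push Not at hne
  have e1 : ∀ j : ℕ, ℓ (g ^ (2 ^ j)) ≤ ℓ g + j * (3 * δ + 1) := by
    intro j
    induction j with
    | zero => simp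
    | succ j ih =>
      have e2 := hne (2 ^ j) (by positivity)
      rw [← pow_add, ← two_mul, ← pow_succ'] at e2
      push_cast
      linarith
  obtain ⟨j, hj⟩ := exists_nat_gt (max 1 ((|c| + ℓ g + 2 * (3 * δ + 1)) / τ))
  have j1 : (1 : ℝ) < j := (le_max_left _ _).trans_lt hj
  have j2 : |c| + ℓ g + 2 * (3 * δ + 1) < j * τ := by
    rw [← div_lt_iff₀ hτ]
    exact (le_max_right _ _).trans_lt hj
  have j3 : (j : ℝ) ≤ 2 ^ j := by exact_mod_cast (Nat.lt_two_pow_self (n := j)).le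
  have j4 : (j : ℝ) * j ≤ ((2 ^ (2 * j) : ℕ) : ℝ) := by
    push_cast
    rw [two_mul, pow_add]
    exact mul_le_mul j3 j3 (by linarith) (by positivity)
  have e2 := e1 (2 * j)
  have e3 := hc (2 ^ (2 * j))
  have e4 : τ * ((j : ℝ) * j) ≤ τ * ((2 ^ (2 * j) : ℕ) : ℝ) := mul_le_mul_of_nonneg_left j4 hτ.le
  have e5 : (j : ℝ) * (|c| + ℓ g + 2 * (3 * δ + 1)) < j * (j * τ) :=
    mul_lt_mul_of_pos_left j2 (by linarith)
  have e6 : |c| + ℓ g ≤ j * (|c| + ℓ g) := le_mul_of_one_le_left (by positivity) j1.le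
  have e7 := le_abs_self c
  push_cast at e2
  nlinarith

end RHyp1

theorem HL.exists_C (h : HL ℓ δ) {g : G} (hg : Lox ℓ g) :
    ∃ C : ℝ, 0 ≤ C ∧ ∀ a b : ℕ, gp ℓ (g ^ a)⁻¹ (g ^ b) ≤ C := by
  have hδ := h.delta_nonneg
  obtain ⟨k, hk, hT⟩ := RHyp1.exists_k h hg
  set T := g ^ k with hTd
  set C₀ := gp ℓ T⁻¹ T with hC₀
  have c0 : 0 ≤ C₀ := h.gp_nonneg _ _
  have c1 : 2 * C₀ + 3 * δ + 1 ≤ ℓ T := by
    rw [hC₀]
    unfold gp
    rw [inv_inv, h.inv]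
    linarith
  have c2 : ∀ a : ℕ, gp ℓ (T ^ a)⁻¹ T ≤ C₀ + δ := by
    intro a
    induction a with
    | zero =>
      have := h.gp_le_left (T ^ 0)⁻¹ T
      rw [h.inv, pow_zero, h.one] at this
      rw [pow_zero]
      linarith
    | succ a ih =>
      rw [pow_succ]
      exact h.step ih hC₀.ge (by linarith)
  have c3 : ∀ a b : ℕ, gp ℓ (T ^ a)⁻¹ (T ^ b) ≤ C₀ + 2 * δ := by
    intro a b
    rcases b with _ | b
    · have := h.gp_le_right (T ^ a)⁻¹ (T ^ 0)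
      rw [pow_zero, h.one] at this
      rw [pow_zero]
      linarith
    · have e1 : gp ℓ (T ^ (b + 1)) T + gp ℓ (T ^ b)⁻¹ T = ℓ T := by
        unfold gp
        rw [show (T ^ (b + 1))⁻¹ * T = (T ^ b)⁻¹ by group, inv_inv, h.inv, ← pow_succ]
        ring
      have e2 := h.hyp (T ^ a)⁻¹ (T ^ (b + 1)) T
      have e4 := c2 a
      have e5 := c2 b
      rcases le_total (gp ℓ (T ^ a)⁻¹ (T ^ (b + 1))) (gp ℓ (T ^ (b + 1)) T) with e3 | e3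
      · rw [min_eq_left e3] at e2
        linarith
      · rw [min_eq_right e3] at e2
        linarith
  have c4 : ∀ a : ℕ, ℓ (g ^ (a % k)) ≤ k * ℓ g := by
    intro a
    refine (h.pow_le g _).trans (mul_le_mul_of_nonneg_right ?_ (h.nonneg g))
    exact_mod_cast (Nat.mod_lt a hk).le
  have c5 : ∀ a : ℕ, g ^ a = T ^ (a / k) * g ^ (a % k) := by
    intro a
    rw [hTd, ← pow_mul, ← pow_add, Nat.div_add_mod]
  have c6 : ∀ a : ℕ, (g ^ a)⁻¹ = (T ^ (a / k))⁻¹ * (g ^ (a % k))⁻¹ := by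
    intro a
    rw [← mul_inv_rev, hTd, ← pow_mul, ← pow_add, Nat.mod_add_div]
  have c7 : 0 ≤ k * ℓ g := mul_nonneg (Nat.cast_nonneg k) (h.nonneg g)
  refine ⟨C₀ + 2 * δ + 2 * (k * ℓ g), by linarith, fun a b => ?_⟩
  have e1 := h.gp_mul_right (T ^ (a / k))⁻¹ (g ^ b) (g ^ (a % k))⁻¹
  rw [← c6, h.inv, h.gp_comm (T ^ (a / k))⁻¹] at e1
  have e2 := h.gp_mul_right (T ^ (b / k)) (T ^ (a / k))⁻¹ (g ^ (b % k))
  rw [← c5, h.gp_comm (T ^ (b / k))] at e2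
  linarith [c3 (a / k) (b / k), c4 a, c4 b]

end Pool.Agent.P.MP_867493_lc
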