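import Pool.Agent.P.MP_867493_lc.D.Hyp1

/-!
Fellow travelling: if the geodesics to `g₁ ^ a` and to `c g₂ ^ b` have a long common part, then the
orbit points of `g₁` in a window stay close to orbit points of `c g₂`, also after `M` further steps.
-/

set_option autoImplicit false

namespace Pool.Agent.P.MP_867493_lc

variable {G : Type} [Group G] {ℓ : G → ℝ} {δ : ℝ}

namespace RHyp2

/-- Lengths along the translated orbit are almost additive. -/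
theorem add_le (h : HL ℓ δ) {C : ℝ} {d : ℕ → ℝ} (hC : ∀ a b, d a + d b - 2 * C ≤ d (a + b))
    {x : G} (hx : ∀ n, ℓ (x ^ n) = d n) (c : G) {j : ℕ} (hj : ℓ c + C + δ < d j) (k : ℕ) :
    ℓ (c * x ^ j) + d k - 2 * C - 2 * δ ≤ ℓ (c * x ^ (j + k)) := by
  have h1 := h.hyp (x ^ j)⁻¹ (c * x ^ j)⁻¹ (x ^ k)
  have e1 : (x ^ j)⁻¹⁻¹ * (c * x ^ j)⁻¹ = c⁻¹ := by group
  have e2 : (c * x ^ j)⁻¹⁻¹ * x ^ k = c * x ^ (j + k) := by rw [inv_inv, pow_add, mul_assoc]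
  have e3 : (x ^ j)⁻¹⁻¹ * x ^ k = x ^ (j + k) := by rw [inv_inv, pow_add]
  have h2 := h.mul c⁻¹ (c * x ^ j)
  rw [inv_mul_cancel_left, h.inv, hx] at h2
  simp only [gp, e1, e2, e3, h.inv, hx] at h1
  have h3 := hC j k
  rcases min_cases ((d j + ℓ (c * x ^ j) - ℓ c) / 2)
    ((ℓ (c * x ^ j) + d k - ℓ (c * x ^ (j + k))) / 2) with ⟨h4, -⟩ | ⟨h4, -⟩
  · rw [h4] at h1; linarith
  · rw [h4] at h1; linarith

/-- Two points on the common part are close if they have almost the same length. -/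
theorem close (h : HL ℓ δ) {C : ℝ} (hC0 : 0 ≤ C) {d : ℕ → ℝ}
    (hC : ∀ a b, d a + d b - 2 * C ≤ d (a + b)) {x y : G} (hx : ∀ n, ℓ (x ^ n) = d n)
    (hy : ∀ n, ℓ (y ^ n) = d n) (c : G) {a b i j : ℕ} (hi : i ≤ a) (hj : j ≤ b)
    (hR : d i ≤ gp ℓ (x ^ a) (c * y ^ b)) (hd : ℓ c + C + δ < d j) {t : ℝ}
    (h1 : d i - ℓ (c * y ^ j) ≤ t) (h2 : ℓ (c * y ^ j) - d i ≤ t) :
    ℓ ((x ^ i)⁻¹ * c * y ^ j) ≤ t + 2 * C + 4 * δ := by
  obtain ⟨k, rfl⟩ := Nat.exists_eq_add_of_le hi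
  obtain ⟨m, rfl⟩ := Nat.exists_eq_add_of_le hj
  have a1 : d i - C ≤ gp ℓ (x ^ i) (x ^ (i + k)) := by
    have e : (x ^ i)⁻¹ * x ^ (i + k) = x ^ k := by rw [pow_add, inv_mul_cancel_left]
    have := hC i k
    simp only [gp, e, hx]
    linarith
  have a2 : ℓ (c * y ^ j) - C - δ ≤ gp ℓ (c * y ^ (j + m)) (c * y ^ j) := by
    have e : (c * y ^ (j + m))⁻¹ * (c * y ^ j) = (y ^ m)⁻¹ := by rw [pow_add]; group
    have := add_le h hC hy c hd m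
    simp only [gp, e, h.inv, hy]
    linarith
  have a3 : d i - C - δ ≤ gp ℓ (x ^ i) (c * y ^ (j + m)) := by
    have := h.hyp (x ^ i) (x ^ (i + k)) (c * y ^ (j + m))
    have h5 : d i - C ≤ min (gp ℓ (x ^ i) (x ^ (i + k)))
      (gp ℓ (x ^ (i + k)) (c * y ^ (j + m))) := le_min a1 (by linarith)
    linarith
  have a4 := h.hyp (x ^ i) (c * y ^ (j + m)) (c * y ^ j)
  have a5 : (d i + ℓ (c * y ^ j) - t) / 2 - C - δ ≤ min (gp ℓ (x ^ i) (c * y ^ (j + m)))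
      (gp ℓ (c * y ^ (j + m)) (c * y ^ j)) := le_min (by linarith) (by linarith)
  have a6 : gp ℓ (x ^ i) (c * y ^ j) =
      (d i + ℓ (c * y ^ j) - ℓ ((x ^ i)⁻¹ * c * y ^ j)) / 2 := by
    rw [gp, hx, mul_assoc]
  linarith

theorem window (h : HL ℓ δ) {C D : ℝ} (hC0 : 0 ≤ C) (hD : 0 ≤ D) {d : ℕ → ℝ}
    (hC : ∀ a b, d a + d b - 2 * C ≤ d (a + b)) (hdD : ∀ n : ℕ, d n ≤ n * D) {x y : G}
    (hx : ∀ n, ℓ (x ^ n) = d n) (hy : ∀ n, ℓ (y ^ n) = d n) (c : G) {a b i M : ℕ}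
    (hR : ((i : ℝ) + M + 1) * D < gp ℓ (x ^ a) (c * y ^ b))
    (hi : 2 * ℓ c + 3 * C + δ < d i) :
    ∃ j : ℕ, ℓ ((x ^ i)⁻¹ * c * y ^ j) ≤ D + 4 * C + 8 * δ ∧
      ℓ ((x ^ (i + M))⁻¹ * c * y ^ (j + M)) ≤ D + 4 * C + 8 * δ := by
  classical
  have hδ := h.delta_nonneg
  have hc := h.nonneg c
  have hM : (0 : ℝ) ≤ M * D := mul_nonneg (Nat.cast_nonneg M) hD
  have hup : ∀ j k, ℓ (c * y ^ (j + k)) ≤ ℓ (c * y ^ j) + d k := fun j k => by
    rw [pow_add, ← mul_assoc, ← hy]; exact h.mul _ _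
  have hdup : ∀ j k, d (j + k) ≤ d j + d k := fun j k => by
    rw [← hy, ← hy, ← hy, pow_add]; exact h.mul _ _
  have r1 := h.gp_le_left (x ^ a) (c * y ^ b)
  have r2 := h.gp_le_right (x ^ a) (c * y ^ b)
  have di := hdD i
  have diM := hdD (i + M)
  push_cast at diM
  have hia : i + M ≤ a := by
    by_contra hlt
    have h1 : (a : ℝ) ≤ i + M := by exact_mod_cast (not_le.1 hlt).le
    have h2 := hdD a
    have h3 := mul_le_mul_of_nonneg_right h1 hD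
    rw [hx] at r1
    linarith
  have hex : ∃ j, d i ≤ ℓ (c * y ^ j) := ⟨b, by linarith⟩
  have hjs := Nat.find_spec hex
  have hjb : Nat.find hex ≤ b := Nat.find_min' hex (by linarith)
  have hjm := fun m => Nat.find_min hex (m := m)
  generalize Nat.find hex = j at hjs hjb hjm
  have hjD : ℓ (c * y ^ j) ≤ d i + D := by
    rcases j with _ | j
    · rw [pow_zero, mul_one] at hjs; linarith
    · have h1 := not_le.1 (hjm j (Nat.lt_succ_self j))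
      have h2 := hup j 1
      have h3 := hdD 1
      rw [Nat.cast_one, one_mul] at h3
      linarith
  have hdj : ℓ c + 3 * C + δ < d j := by
    have := h.mul c (y ^ j)
    rw [hy] at this
    linarith
  have hjMb : j + M ≤ b := by
    by_contra hlt
    obtain ⟨k, rfl⟩ := Nat.exists_eq_add_of_le hjb
    have h1 : (k : ℝ) ≤ M := by exact_mod_cast (by omega : k ≤ M)
    have h2 := hup j k
    have h3 := hdD k
    have h4 := mul_le_mul_of_nonneg_right h1 hD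
    linarith
  have hdM : 0 ≤ d M := by rw [← hy]; exact h.nonneg _
  refine ⟨j, ?_, ?_⟩
  · have := close h hC0 hC hx hy c (t := D) (by omega : i ≤ a) hjb (by linarith) (by linarith)
      (by linarith) (by linarith)
    linarith
  · have b1 := hC i M
    have b2 := hdup i M
    have b3 := hup j M
    have b4 := add_le h hC hy c (j := j) (by linarith) M
    have b5 := hC j M
    have := close h hC0 hC hx hy c (t := D + 2 * C + 2 * δ) hia hjMb (by linarith) (by linarith)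
      (by linarith) (by linarith)
    linarith

end RHyp2

theorem HL.ft (h : HL ℓ δ) {g : G} (hg : Lox ℓ g) : ∃ ε : ℝ, ∀ M W : ℕ, ∃ c₁ : ℝ, 0 ≤ c₁ ∧
    ∀ g₁ g₂ : G, (g₁ = g ∨ g₁ = g⁻¹) → (g₂ = g ∨ g₂ = g⁻¹) → ∀ (c : G) (a b : ℕ),
      c₁ * (ℓ c + 1) < gp ℓ (g₁ ^ a) (c * g₂ ^ b) → ∃ i₀ : ℕ, ∀ i, i₀ ≤ i → i ≤ i₀ + W →
        ∃ j : ℕ, ℓ ((g₁ ^ i)⁻¹ * c * g₂ ^ j) ≤ ε ∧
          ℓ ((g₁ ^ (i + M))⁻¹ * c * g₂ ^ (j + M)) ≤ ε := by
  obtain ⟨C, hC0, hC⟩ := h.exists_C hg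
  obtain ⟨τ, c₀, hτ, hlox⟩ := hg
  have hδ := h.delta_nonneg
  have hD := h.nonneg g
  have hC' : ∀ a b : ℕ, ℓ (g ^ a) + ℓ (g ^ b) - 2 * C ≤ ℓ (g ^ (a + b)) := fun a b => by
    have := hC a b
    rw [gp, inv_inv, ← pow_add, h.inv] at this
    linarith
  have hpow : ∀ x : G, x = g ∨ x = g⁻¹ → ∀ n : ℕ, ℓ (x ^ n) = ℓ (g ^ n) := by
    rintro x (rfl | rfl) n
    · rfl
    · rw [inv_pow, h.inv]
  set K : ℝ := 3 * C + δ + |c₀| + 1 with hK
  have hK0 : 0 ≤ K := by have := abs_nonneg c₀; linarith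
  refine ⟨ℓ g + 4 * C + 8 * δ, fun M W => ⟨((2 + K) / τ + W + M + 2) * ℓ g, by positivity, ?_⟩⟩
  intro g₁ g₂ h₁ h₂ c a b hR
  have hc := h.nonneg c
  refine ⟨⌈(2 * ℓ c + K) / τ⌉₊, fun i hi hi' => ?_⟩
  have l1 : (2 * ℓ c + K) / τ ≤ i := Nat.ceil_le.1 hi
  have l2 : (i : ℝ) ≤ (2 * ℓ c + K) / τ + 1 + W := by
    have h3 : (i : ℝ) ≤ (⌈(2 * ℓ c + K) / τ⌉₊ : ℝ) + W := by exact_mod_cast hi'
    have h4 := Nat.ceil_lt_add_one (show 0 ≤ (2 * ℓ c + K) / τ by positivity)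
    linarith
  refine RHyp2.window h hC0 hD (d := fun n => ℓ (g ^ n)) hC' (h.pow_le g) (hpow g₁ h₁)
    (hpow g₂ h₂) c (a := a) (b := b) (lt_of_le_of_lt ?_ hR) ?_
  · rw [mul_right_comm]
    refine mul_le_mul_of_nonneg_right ?_ hD
    have h3 : (2 * ℓ c + K) / τ ≤ (2 + K) / τ * (ℓ c + 1) := by
      rw [div_mul_eq_mul_div]
      refine div_le_div_of_nonneg_right ?_ hτ.le
      nlinarith [mul_nonneg hK0 hc]
    have h4 : (0 : ℝ) ≤ ((W : ℝ) + M + 2) * ℓ c := by positivity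
    nlinarith
  · have h3 := hlox i
    have h4 := (div_le_iff₀ hτ).1 l1
    have h5 := le_abs_self c₀
    show 2 * ℓ c + 3 * C + δ < ℓ (g ^ i)
    nlinarith

end Pool.Agent.P.MP_867493_lc
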