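import Pool.Agent.P.MP_867493_lc.D.Hyp2

/-!
ROW Hyp3. Separation of the axis.
`exists_sep`: `ε` from `ft`, `M` and the finite set `S` from `Wpd` for `2 ε`, `W = card S`, `N = W !`. If the product is larger
than `c₁ (ℓ c + 1)`, write `(g ^ N) ^ a = g₁ ^ a'`, `(g ^ N) ^ b = g₂ ^ b'`, put `h i = g₁ ^ (-i) c g₂ ^ (j i)`; the `W + 1` elements
`h i * (h i₀)⁻¹` (conjugated by `g ^ M` if `g₁ = g⁻¹`) lie in `S`, so `h i = h i'` for some `i < i'`, that is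
`c g ^ n c⁻¹ = g ^ n'` with integers `n`, `n'`, `1 ≤ |n'| ≤ W`. Then `|n| = |n'|`: the lengths of `g ^ (|n| m)` and
`g ^ (|n'| m)` differ by at most `2 ℓ c`, but `ℓ (g ^ (x + y)) ≥ ℓ (g ^ x) + τ y - c₀ - 2 C`.
`virtAb_of_inE`: `T = g ^ N`; its centraliser `Z` has index at most two. For `c ∈ Z`, `gp (T ^ a) (c T ^ a) ≥ ℓ (T ^ a) - ℓ c`
is large, so `ft` (`W = 0`) gives `g ^ (-i) c g ^ j ∈ S`; hence `c ∈ zpowers T * {g ^ r s g ^ (-r') | r, r' < N, s ∈ S}`, and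
`zpowers T` has finite index.
-/

set_option autoImplicit false

namespace Pool.Agent.P.MP_867493_lc

variable {G : Type} [Group G] {ℓ : G → ℝ} {δ : ℝ}

namespace RHyp3

theorem len_add (h : HL ℓ δ) {g : G} (hg : Lox ℓ g) :
    ∃ τ K : ℝ, 0 < τ ∧ ∀ x y : ℕ, ℓ (g ^ x) + τ * y - K ≤ ℓ (g ^ (x + y)) := by
  obtain ⟨C, -, hC⟩ := h.exists_C hg
  obtain ⟨τ, c₀, hτ, hl⟩ := hg
  refine ⟨τ, c₀ + 2 * C, hτ, fun x y => ?_⟩
  have h1 := hC x y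
  have h2 := hl y
  unfold gp at h1
  rw [inv_inv, h.inv, ← pow_add] at h1
  linarith

theorem len_zpow (h : HL ℓ δ) (g : G) (n : ℤ) : ℓ (g ^ n) = ℓ (g ^ n.natAbs) := by
  rcases Int.natAbs_eq n with e | e
  · conv_lhs => rw [e, zpow_natCast]
  · conv_lhs => rw [e, zpow_neg, zpow_natCast, h.inv]

theorem len_conj (h : HL ℓ δ) (c a : G) : ℓ (c * a * c⁻¹) ≤ ℓ a + 2 * ℓ c := by
  have h1 := h.mul (c * a) c⁻¹
  have h2 := h.mul c a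
  rw [h.inv] at h1
  linarith

theorem natAbs_le (h : HL ℓ δ) {g : G} (hg : Lox ℓ g) {c : G} {n n' : ℤ}
    (e : c * g ^ n * c⁻¹ = g ^ n') : n'.natAbs ≤ n.natAbs := by
  by_contra hlt
  obtain ⟨τ, K, hτ, hK⟩ := len_add h hg
  obtain ⟨m, hm⟩ := exists_nat_gt ((K + 2 * ℓ c) / τ)
  rw [div_lt_iff₀ hτ] at hm
  obtain ⟨d, hd⟩ : ∃ d, n'.natAbs = n.natAbs + 1 + d := ⟨n'.natAbs - n.natAbs - 1, by omega⟩
  have e1 : c * g ^ (n * m) * c⁻¹ = g ^ (n' * m) := by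
    rw [zpow_mul, zpow_mul, ← e, conj_zpow]
  have h1 := len_conj h c (g ^ (n * m))
  rw [e1, len_zpow h, len_zpow h g (n * m), Int.natAbs_mul, Int.natAbs_mul, Int.natAbs_natCast,
    hd] at h1
  have h2 := hK (n.natAbs * m) ((1 + d) * m)
  rw [← add_mul, ← add_assoc] at h2
  push_cast at h2
  have h3 : 0 ≤ τ * (d * m) := by positivity
  nlinarith

theorem inE_of_conj (h : HL ℓ δ) {g : G} (hg : Lox ℓ g) {c : G} {n n' : ℤ} {N : ℕ}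
    (e : c * g ^ n * c⁻¹ = g ^ n') (hd : n'.natAbs ∣ N) : InE (g ^ N) c := by
  have e' : c⁻¹ * g ^ n' * c⁻¹⁻¹ = g ^ n := by rw [← e]; group
  have h1 : n.natAbs = n'.natAbs := le_antisymm (natAbs_le h hg e') (natAbs_le h hg e)
  rw [← h1] at hd
  obtain ⟨t, ht⟩ : n ∣ (N : ℤ) := Int.natAbs_dvd.1 (Int.natCast_dvd_natCast.2 hd)
  have e1 : c * g ^ N * c⁻¹ = g ^ (n' * t) := by
    rw [← zpow_natCast, ht, zpow_mul, zpow_mul, ← e, conj_zpow]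
  rcases Int.natAbs_eq_natAbs_iff.1 h1 with h2 | h2
  · left
    rw [e1, ← h2, ← ht, zpow_natCast]
  · right
    have h3 : n' = -n := by omega
    rw [e1, h3, neg_mul, ← ht, zpow_neg, zpow_natCast]

theorem zpow_split (g : G) (N : ℕ) (a : ℤ) :
    ∃ (g₁ : G) (a' : ℕ), (g₁ = g ∨ g₁ = g⁻¹) ∧ (g ^ N) ^ a = g₁ ^ a' := by
  rcases Int.natAbs_eq a with e | e
  · exact ⟨g, N * a.natAbs, Or.inl rfl, by conv_lhs => rw [e, zpow_natCast, ← pow_mul]⟩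
  · exact ⟨g⁻¹, N * a.natAbs, Or.inr rfl, by
      conv_lhs => rw [e, zpow_neg, zpow_natCast, ← pow_mul, ← inv_pow]⟩

theorem sign_split {g g₁ : G} (h : g₁ = g ∨ g₁ = g⁻¹) :
    ∃ s : ℤ, s.natAbs = 1 ∧ g₁ = g ^ s := by
  rcases h with h | h
  · exact ⟨1, rfl, by rw [h, zpow_one]⟩
  · exact ⟨-1, rfl, by rw [h, zpow_neg_one]⟩

end RHyp3

open RHyp3

theorem HL.exists_sep (h : HL ℓ δ) {g : G} (hg : Lox ℓ g) (hw : Wpd ℓ g) :
    ∃ N : ℕ, 0 < N ∧ Sep ℓ (g ^ N) := by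
  classical
  obtain ⟨ε, hε⟩ := h.ft hg
  obtain ⟨M, hS⟩ := hw (2 * ε)
  set W := hS.toFinset.card with hW
  obtain ⟨c₁, -, hc⟩ := hε M W
  refine ⟨W.factorial, W.factorial_pos, c₁, fun c hcE a b => ?_⟩
  by_contra hlt
  rw [not_le] at hlt
  obtain ⟨g₁, a', hg₁, ea⟩ := zpow_split g W.factorial a
  obtain ⟨g₂, b', hg₂, eb⟩ := zpow_split g W.factorial b
  rw [ea, eb] at hlt
  obtain ⟨i₀, hi₀⟩ := hc g₁ g₂ hg₁ hg₂ c a' b' hlt
  choose! j hj using hi₀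
  set u : ℕ → G := fun i => (g₁ ^ i)⁻¹ * c * g₂ ^ j i with hu
  have hA : ∀ i, i₀ ≤ i → i ≤ i₀ + W → ℓ (u i * (u i₀)⁻¹) ≤ 2 * ε ∧
      ℓ ((g₁ ^ M)⁻¹ * (u i * (u i₀)⁻¹) * g₁ ^ M) ≤ 2 * ε := by
    intro i h1 h2
    obtain ⟨p1, p2⟩ := hj i h1 h2
    obtain ⟨q1, q2⟩ := hj i₀ le_rfl (Nat.le_add_right _ _)
    constructor
    · have := h.mul (u i) (u i₀)⁻¹
      rw [h.inv] at this
      simp only [hu] at this ⊢
      linarith
    · have := h.mul ((g₁ ^ (i + M))⁻¹ * c * g₂ ^ (j i + M))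
        ((g₁ ^ (i₀ + M))⁻¹ * c * g₂ ^ (j i₀ + M))⁻¹
      rw [h.inv] at this
      have e : (g₁ ^ M)⁻¹ * (u i * (u i₀)⁻¹) * g₁ ^ M = (g₁ ^ (i + M))⁻¹ * c * g₂ ^ (j i + M) *
          ((g₁ ^ (i₀ + M))⁻¹ * c * g₂ ^ (j i₀ + M))⁻¹ := by
        simp only [hu, pow_add]
        group
      rw [e]
      linarith
  obtain ⟨z, hz⟩ : ∃ z : G, ∀ i, i₀ ≤ i → i ≤ i₀ + W →
      z * (u i * (u i₀)⁻¹) * z⁻¹ ∈ hS.toFinset := by
    rcases hg₁ with e | e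
    · refine ⟨1, fun i h1 h2 => ?_⟩
      rw [Set.Finite.mem_toFinset, one_mul, inv_one, mul_one]
      have := hA i h1 h2
      rw [e] at this
      exact this
    · refine ⟨g ^ M, fun i h1 h2 => ?_⟩
      rw [Set.Finite.mem_toFinset]
      obtain ⟨p1, p2⟩ := hA i h1 h2
      rw [e, inv_pow, inv_inv] at p2
      refine ⟨p2, ?_⟩
      have e2 : (g ^ M)⁻¹ * (g ^ M * (u i * (u i₀)⁻¹) * (g ^ M)⁻¹) * g ^ M = u i * (u i₀)⁻¹ := by
        group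
      rw [e2]
      exact p1
  obtain ⟨i, hi, i', hi', hne, heq⟩ := Finset.exists_ne_map_eq_of_card_lt_of_maps_to
    (s := Finset.Icc i₀ (i₀ + W)) (t := hS.toFinset) (by rw [Nat.card_Icc]; omega)
    (f := fun i => z * (u i * (u i₀)⁻¹) * z⁻¹)
    (fun i hi => hz i (Finset.mem_Icc.1 hi).1 (Finset.mem_Icc.1 hi).2)
  have e1 : u i = u i' := mul_right_cancel (mul_left_cancel (mul_right_cancel heq))
  obtain ⟨s₁, hs₁, rfl⟩ := sign_split hg₁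
  obtain ⟨s₂, -, rfl⟩ := sign_split hg₂
  have e2 : c * g ^ (s₂ * ((j i' : ℤ) - j i)) * c⁻¹ = g ^ (s₁ * ((i' : ℤ) - i)) := by
    simp only [hu] at e1
    rw [zpow_mul, zpow_mul, zpow_sub, zpow_sub, zpow_natCast, zpow_natCast, zpow_natCast,
      zpow_natCast]
    calc c * ((g ^ s₂) ^ j i' * ((g ^ s₂) ^ j i)⁻¹) * c⁻¹
        = (g ^ s₁) ^ i' * (((g ^ s₁) ^ i')⁻¹ * c * (g ^ s₂) ^ j i') * ((g ^ s₂) ^ j i)⁻¹ * c⁻¹ := by
          simp only [mul_assoc, mul_inv_cancel_left]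
      _ = _ := by
          rw [← e1]
          simp only [mul_assoc, mul_inv_cancel_left, mul_inv_cancel, mul_one]
  refine hcE (inE_of_conj h hg e2 ?_)
  rw [Finset.mem_Icc] at hi hi'
  rw [Int.natAbs_mul, hs₁, one_mul]
  exact Nat.dvd_factorial (by omega) (by omega)

theorem HL.virtAb_of_inE (h : HL ℓ δ) {g : G} (hg : Lox ℓ g) (hw : Wpd ℓ g) {N : ℕ} (hN : 0 < N)
    (hE : ∀ c, InE (g ^ N) c) : VirtAb G := by
  classical
  obtain ⟨ε, hε⟩ := h.ft hg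
  obtain ⟨M, hS⟩ := hw ε
  obtain ⟨c₁, -, hc⟩ := hε M 0
  obtain ⟨τ, c₀, hτ, hl⟩ := hg
  set S := {h : G | ℓ h ≤ ε ∧ ℓ ((g ^ M)⁻¹ * h * g ^ M) ≤ ε} with hSd
  set K := Subgroup.zpowers (g ^ N) with hK
  set F : Set G := (fun x : ℕ × G × ℕ => g ^ x.1 * x.2.1 * (g ^ x.2.2)⁻¹) ''
    (Set.Iio N ×ˢ S ×ˢ Set.Iio N) with hF
  have hFf : F.Finite := (((Set.finite_Iio N).prod (hS.prod (Set.finite_Iio N))).image _)
  have hZ : ∀ c, c * g ^ N * c⁻¹ = g ^ N → ∃ f ∈ F, f⁻¹ * c ∈ K := by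
    intro c hcT
    have hcm : Commute c (g ^ N) := by
      rw [Commute, SemiconjBy, ← mul_inv_eq_iff_eq_mul, hcT]
    obtain ⟨a, ha⟩ := exists_nat_gt ((c₁ * (ℓ c + 1) + ℓ c + c₀) / τ)
    rw [div_lt_iff₀ hτ] at ha
    have h1 : c₁ * (ℓ c + 1) < gp ℓ (g ^ (N * a)) (c * g ^ (N * a)) := by
      have e : (g ^ (N * a))⁻¹ * (c * g ^ (N * a)) = c := by
        rw [pow_mul, (hcm.pow_right a).eq, inv_mul_cancel_left]
      have h2 := h.mul c⁻¹ (c * g ^ (N * a))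
      rw [inv_mul_cancel_left, h.inv] at h2
      have h3 := hl (N * a)
      have h4 : (a : ℝ) ≤ ((N * a : ℕ) : ℝ) := by exact_mod_cast Nat.le_mul_of_pos_left a hN
      have h5 := mul_le_mul_of_nonneg_left h4 hτ.le
      unfold gp
      rw [e]
      linarith
    obtain ⟨i, hi⟩ := hc g g (Or.inl rfl) (Or.inl rfl) c _ _ h1
    obtain ⟨j, p1, p2⟩ := hi i le_rfl le_rfl
    refine ⟨_, ⟨(i % N, (g ^ i)⁻¹ * c * g ^ j, j % N), ⟨Nat.mod_lt _ hN, ⟨p1, ?_⟩,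
      Nat.mod_lt _ hN⟩, rfl⟩, ?_⟩
    · have e : (g ^ M)⁻¹ * ((g ^ i)⁻¹ * c * g ^ j) * g ^ M =
          (g ^ (i + M))⁻¹ * c * g ^ (j + M) := by
        simp only [pow_add]
        group
      rw [e]
      exact p2
    · have e1 : g ^ i = (g ^ N) ^ (i / N) * g ^ (i % N) := by
        rw [← pow_mul, ← pow_add, Nat.div_add_mod]
      have e2 : g ^ j = (g ^ N) ^ (j / N) * g ^ (j % N) := by
        rw [← pow_mul, ← pow_add, Nat.div_add_mod]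
      have e3 : (g ^ (i % N) * ((g ^ i)⁻¹ * c * g ^ j) * (g ^ (j % N))⁻¹)⁻¹ * c =
          ((g ^ N) ^ (j / N))⁻¹ * (c⁻¹ * ((g ^ N) ^ (i / N) * c)) := by
        conv_lhs => rw [e1, e2]
        simp only [mul_inv_rev, mul_assoc, inv_inv, mul_inv_cancel_left, inv_mul_cancel_left,
          mul_inv_cancel, mul_one]
      simp only
      rw [e3, ← (hcm.pow_right (i / N)).eq, inv_mul_cancel_left]
      exact K.mul_mem (K.inv_mem (K.pow_mem (Subgroup.mem_zpowers _) _))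
        (K.pow_mem (Subgroup.mem_zpowers _) _)
  obtain ⟨d, hd⟩ : ∃ d : G, ∀ c, c * g ^ N * c⁻¹ = g ^ N ∨ (d⁻¹ * c) * g ^ N * (d⁻¹ * c)⁻¹ = g ^ N := by
    by_cases hx : ∃ d : G, d * g ^ N * d⁻¹ = (g ^ N)⁻¹
    · obtain ⟨d, hd⟩ := hx
      refine ⟨d, fun c => (hE c).imp id fun e => ?_⟩
      calc (d⁻¹ * c) * g ^ N * (d⁻¹ * c)⁻¹ = d⁻¹ * (c * g ^ N * c⁻¹) * d := by group
        _ = g ^ N := by
          rw [e, ← hd]
          group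
    · exact ⟨1, fun c => Or.inl ((hE c).resolve_right fun e => hx ⟨c, e⟩)⟩
  have hfin : Finite (G ⧸ K) := by
    rw [← Set.finite_univ_iff]
    refine ((hFf.union (hFf.image fun f => d * f)).image (QuotientGroup.mk : G → G ⧸ K)).subset ?_
    intro q _
    obtain ⟨c, rfl⟩ := QuotientGroup.mk_surjective q
    rcases hd c with e | e
    · obtain ⟨f, hf, hk⟩ := hZ c e
      exact ⟨f, Or.inl hf, QuotientGroup.eq.2 hk⟩
    · obtain ⟨f, hf, hk⟩ := hZ _ e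
      refine ⟨d * f, Or.inr ⟨f, hf, rfl⟩, QuotientGroup.eq.2 ?_⟩
      rw [mul_inv_rev, mul_assoc]
      exact hk
  refine ⟨K, Subgroup.finiteIndex_of_finite_quotient, ?_⟩
  rintro _ ⟨m, rfl⟩ _ ⟨n, rfl⟩
  exact (Commute.zpow_zpow_self _ m n).eq

end Pool.Agent.P.MP_867493_lc
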