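import Pool.Agent.P.MP_867493_lc.D.Hyp1

/-!
ROW Hyp4. Products of long powers.
`ml`: `HL.chain` for the steps `α T ^ a β`; `gp (α T ^ a β)⁻¹ (α' T ^ a' β') ≤ 3 λ + c₁ (2 λ + 1)` by `gp_mul_right`,
`gp_mul_left` and `Sep` for `(β α')⁻¹`; the length of a step is at least `τ |a| - c₀ - 2 λ`.
`InE T` is a subgroup that contains `T`; its elements satisfy `c T ^ m c⁻¹ = T ^ m` for all `m`, or `= T ^ (-m)` for all `m`.
`conj_not`: otherwise `f⁻¹ T ^ (2 m) f` commutes with `T`: `[f⁻¹ T ^ (2 m)] [f T ^ m] [f⁻¹ T ^ (-2 m)] [f T ^ (-m)] = 1`.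
`conn_not`: `h' = f⁻¹ h f`, `e = f T ^ (-a) h' T ^ b f⁻¹`, `e T ^ m e⁻¹ = T ^ (±m)`. If `h'` is not in `E`:
`[f T ^ (-a)] [h' T ^ b] [f⁻¹ T ^ m] [f T ^ (-b)] [h'⁻¹ T ^ a] [f⁻¹ T ^ (∓m)] = 1`. Otherwise `e = f h' T ^ n f⁻¹` with
`n = b - a` or `n = b + a` and `[f h' T ^ n] [f⁻¹ T ^ m] [f T ^ (-n)] [h'⁻¹ f⁻¹ T ^ (∓m)] = 1`.
-/

set_option autoImplicit false

namespace Pool.Agent.P.MP_867493_lc

variable {G : Type} [Group G] {ℓ : G → ℝ} {δ : ℝ}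

theorem InE.inv {T c : G} (h : InE T c) : InE T c⁻¹ := by
  rcases h with h | h
  · left
    rw [inv_inv, mul_assoc, inv_mul_eq_iff_eq_mul]
    exact (mul_inv_eq_iff_eq_mul.1 h).symm
  · right
    have h1 : c * T⁻¹ * c⁻¹ = T := by
      rw [show c * T⁻¹ * c⁻¹ = (c * T * c⁻¹)⁻¹ by group, h, inv_inv]
    rw [inv_inv, mul_assoc, inv_mul_eq_iff_eq_mul]
    exact (mul_inv_eq_iff_eq_mul.1 h1).symm

theorem InE.mul {T c c' : G} (h : InE T c) (h' : InE T c') : InE T (c * c') := by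
  have e : c * c' * T * (c * c')⁻¹ = c * (c' * T * c'⁻¹) * c⁻¹ := by group
  have e' : c * T⁻¹ * c⁻¹ = (c * T * c⁻¹)⁻¹ := by group
  unfold InE
  rw [e]
  rcases h' with h' | h' <;> rw [h']
  · exact h
  · rw [e']
    rcases h with h | h <;> simp [h]

theorem InE.zpow {T c : G} (h : InE T c) :
    (∀ m : ℤ, c * T ^ m * c⁻¹ = T ^ m) ∨ ∀ m : ℤ, c * T ^ m * c⁻¹ = T ^ (-m) := by
  refine h.imp (fun h m => ?_) fun h m => ?_
  · rw [← conj_zpow, h]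
  · rw [← conj_zpow, h, inv_zpow']

theorem HL.ml (h : HL ℓ δ) {T : G} (hT : Lox ℓ T) (hs : Sep ℓ T) : ∃ c₂ : ℝ, 0 ≤ c₂ ∧
    ∀ (lam : ℝ) (l : List (G × ℤ × G)), l ≠ [] →
      (∀ x ∈ l, ℓ x.1 ≤ lam ∧ ℓ x.2.2 ≤ lam ∧ c₂ * (lam + 1) ≤ |(x.2.1 : ℝ)|) →
      (l.IsChain fun x y => ¬ InE T (x.2.2 * y.1)) →
      (l.map fun x => x.1 * T ^ x.2.1 * x.2.2).prod ≠ 1 := by
  obtain ⟨τ, c₀, hτ, hτ'⟩ := hT
  obtain ⟨c₁, hc₁⟩ := hs
  have hδ := h.delta_nonneg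
  refine ⟨(9 + 4 * |c₁| + |c₀| + 2 * δ) / τ, by positivity, fun lam l hl h1 h2 => ?_⟩
  have hlam : 0 ≤ lam := by
    obtain ⟨x, hx⟩ := List.exists_mem_of_ne_nil l hl
    exact (h.nonneg _).trans (h1 x hx).1
  have hz : ∀ a : ℤ, τ * |(a : ℝ)| - c₀ ≤ ℓ (T ^ a) := fun a => by
    obtain ⟨n, rfl | rfl⟩ := Int.eq_nat_or_neg a
    · simpa using hτ' n
    · simpa [h.inv] using hτ' n
  refine h.chain (C := 3 * lam + |c₁| * (2 * lam + 1)) (by positivity) _ (by simpa using hl) ?_ ?_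
  · intro s hs
    obtain ⟨x, hx, rfl⟩ := List.mem_map.1 hs
    obtain ⟨a1, a2, a3⟩ := h1 x hx
    have b1 := h.mul (x.1⁻¹ * (x.1 * T ^ x.2.1 * x.2.2)) x.2.2⁻¹
    have b2 := h.mul x.1⁻¹ (x.1 * T ^ x.2.1 * x.2.2)
    rw [show x.1⁻¹ * (x.1 * T ^ x.2.1 * x.2.2) * x.2.2⁻¹ = T ^ x.2.1 by group, h.inv] at b1
    rw [h.inv] at b2
    rw [div_mul_eq_mul_div, div_le_iff₀ hτ] at a3
    have b3 := hz x.2.1
    nlinarith [le_abs_self c₀, abs_nonneg c₁, mul_nonneg (abs_nonneg c₀) hlam, mul_nonneg hδ hlam]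
  · rw [List.isChain_map]
    refine h2.imp_of_mem_imp fun x y hx hy hxy => ?_
    obtain ⟨a1, a2, -⟩ := h1 x hx
    obtain ⟨a3, a4, -⟩ := h1 y hy
    have b1 := h.gp_mul_right (x.2.2⁻¹ * T ^ (-x.2.1)) (y.1 * T ^ y.2.1 * y.2.2) x.1⁻¹
    have b2 := h.gp_mul_right (y.1 * T ^ y.2.1) (x.2.2⁻¹ * T ^ (-x.2.1)) y.2.2
    have b3 := h.gp_mul_left (T ^ (-x.2.1)) (x.2.2 * y.1 * T ^ y.2.1) x.2.2⁻¹
    have b4 := hc₁ _ hxy (-x.2.1) y.2.1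
    have b5 := h.mul x.2.2 y.1
    have b6 : c₁ * (ℓ (x.2.2 * y.1) + 1) ≤ |c₁| * (2 * lam + 1) :=
      mul_le_mul (le_abs_self _) (by linarith) (by linarith [h.nonneg (x.2.2 * y.1)])
        (abs_nonneg _)
    rw [show x.2.2⁻¹ * T ^ (-x.2.1) * x.1⁻¹ = (x.1 * T ^ x.2.1 * x.2.2)⁻¹ by group, h.inv] at b1
    rw [show x.2.2⁻¹ * (x.2.2 * y.1 * T ^ y.2.1) = y.1 * T ^ y.2.1 by group, h.inv] at b3
    rw [h.gp_comm, h.gp_comm (y.1 * T ^ y.2.1)] at b2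
    linarith

theorem HL.conj_not (h : HL ℓ δ) {T : G} (hT : Lox ℓ T) (hs : Sep ℓ T) {f : G}
    (hf : ¬ InE T f) : ¬ InE T (f⁻¹ * T * f) := by
  intro hS
  obtain ⟨c₂, hc₂, hml⟩ := h.ml hT hs
  obtain ⟨m, hm⟩ := exists_nat_ge (c₂ * (ℓ f + 1))
  have hf' : ¬ InE T f⁻¹ := fun h => hf (by simpa using h.inv)
  have h0 := h.nonneg f
  have hc : Commute ((f⁻¹ * T * f) ^ (2 : ℤ)) T := by
    have e : (f⁻¹ * T * f) ^ (2 : ℤ) * T * ((f⁻¹ * T * f) ^ (2 : ℤ))⁻¹ = (f⁻¹ * T * f) *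
        ((f⁻¹ * T * f) * T ^ (1 : ℤ) * (f⁻¹ * T * f)⁻¹) * (f⁻¹ * T * f)⁻¹ := by
      rw [zpow_two]; group
    refine mul_inv_eq_iff_eq_mul.1 (e.trans ?_)
    rcases hS.zpow with h1 | h1 <;> rw [h1, h1] <;> simp
  refine hml (ℓ f) [(f⁻¹, 2 * m, 1), (f, m, 1), (f⁻¹, -(2 * m), 1), (f, -m, 1)] (by simp) ?_
    (by simp [hf, hf']) ?_
  · have h2 : c₂ * (ℓ f + 1) ≤ 2 * (m : ℝ) := by linarith [Nat.cast_nonneg (α := ℝ) m]
    simp [h.inv, h.one, h0, hm, h2, abs_mul]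
  · have e := (hc.zpow_zpow m m).eq
    have e1 : ((f⁻¹ * T * f) ^ (2 : ℤ)) ^ (m : ℤ) = f⁻¹ * T ^ (2 * (m : ℤ)) * f := by
      have := conj_zpow (a := f⁻¹) (b := T) (i := 2 * (m : ℤ))
      rw [inv_inv] at this
      rw [← zpow_mul, this]
    rw [e1] at e
    simp only [List.map_cons, List.map_nil, List.prod_cons, List.prod_nil]
    calc _ = (f⁻¹ * T ^ (2 * (m : ℤ)) * f * T ^ (m : ℤ)) *
          (T ^ (m : ℤ) * (f⁻¹ * T ^ (2 * (m : ℤ)) * f))⁻¹ := by group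
      _ = 1 := by rw [e, mul_inv_cancel]

theorem HL.conn_not (h : HL ℓ δ) {T : G} (hT : Lox ℓ T) (hs : Sep ℓ T) {f : G}
    (hf : ¬ InE T f) : ∃ c₃ : ℝ, 0 ≤ c₃ ∧ ∀ (k : G) (a b : ℕ), c₃ * (ℓ k + 1) ≤ a →
      c₃ * (ℓ k + 1) ≤ b → (c₃ * (ℓ k + 1) ≤ |(a : ℝ) - b| ∨ ¬ InE T (f⁻¹ * k * f)) →
      ¬ InE T (((f * T * f⁻¹) ^ a)⁻¹ * k * (f * T * f⁻¹) ^ b) := by
  obtain ⟨c₂, hc₂, hml⟩ := h.ml hT hs
  have hf' : ¬ InE T f⁻¹ := fun h => hf (by simpa using h.inv)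
  have h0 := h.nonneg f
  refine ⟨c₂ * (2 * ℓ f + 1), by positivity, fun k a b ha hb hab he => ?_⟩
  have k0 := h.nonneg k
  set lam := ℓ k + 2 * ℓ f with hlam
  have c3 : c₂ * (lam + 1) ≤ c₂ * (2 * ℓ f + 1) * (ℓ k + 1) := by
    rw [mul_assoc]
    exact mul_le_mul_of_nonneg_left (by nlinarith [mul_nonneg h0 k0]) hc₂
  have ha' := c3.trans ha
  have hb' := c3.trans hb
  have l0 : 0 ≤ lam := by positivity
  have l1 : ℓ f ≤ lam := by linarith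
  set p := f⁻¹ * k * f with hp
  have l2 : ℓ p ≤ lam := by
    have a1 := h.mul (f⁻¹ * k) f
    have a2 := h.mul f⁻¹ k
    rw [h.inv] at a2
    linarith
  have l3 : ℓ (f * p) ≤ lam := by
    have a1 := h.mul k f
    rw [show f * p = k * f by rw [hp]; group]
    linarith
  have l4 : ℓ (p⁻¹ * f⁻¹) ≤ lam := by rwa [← mul_inv_rev, h.inv]
  have e0 : ((f * T * f⁻¹) ^ a)⁻¹ * k * (f * T * f⁻¹) ^ b =
      f * T ^ (-(a : ℤ)) * p * T ^ (b : ℤ) * f⁻¹ := by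
    rw [conj_pow, conj_pow, hp]
    group
  rw [e0] at he
  obtain ⟨m, hm, hm'⟩ : ∃ m : ℤ, |(m : ℝ)| = a ∧ (f * T ^ (-(a : ℤ)) * p * T ^ (b : ℤ) * f⁻¹) *
      T ^ (a : ℤ) * (f * T ^ (-(a : ℤ)) * p * T ^ (b : ℤ) * f⁻¹)⁻¹ = T ^ m := by
    rcases he.zpow with h1 | h1
    · exact ⟨a, by simp, h1 a⟩
    · exact ⟨-a, by simp, h1 a⟩
  by_cases hE : InE T p
  · have hab' := c3.trans (hab.resolve_right (not_not.2 hE))
    obtain ⟨n, hn, hn'⟩ : ∃ n : ℤ, c₂ * (lam + 1) ≤ |(n : ℝ)| ∧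
        T ^ (-(a : ℤ)) * p * T ^ (b : ℤ) = p * T ^ n := by
      rcases hE.inv.zpow with h1 | h1
      · refine ⟨-a + b, by rw [abs_sub_comm] at hab'; push_cast; rwa [neg_add_eq_sub], ?_⟩
        rw [zpow_add]
        conv_rhs => rw [← h1 (-a)]
        group
      · refine ⟨a + b, ?_, ?_⟩
        · push_cast
          rw [abs_of_nonneg (by positivity)]
          linarith [Nat.cast_nonneg (α := ℝ) b]
        · have := h1 (-a)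
          rw [neg_neg] at this
          rw [zpow_add, ← this]
          group
    have hpf : ¬ InE T (p⁻¹ * f⁻¹) := fun h1 => hf' (by simpa using hE.mul h1)
    refine hml lam [(f * p, n, 1), (f⁻¹, a, 1), (f, -n, 1), (p⁻¹ * f⁻¹, -m, 1)] (by simp) ?_
      (by simp [hf, hf', hpf]) ?_
    · simp [h.inv, h.one, l0, l1, l3, l4, hn, ha', hm]
    · rw [show f * T ^ (-(a : ℤ)) * p * T ^ (b : ℤ) * f⁻¹ =
        f * (T ^ (-(a : ℤ)) * p * T ^ (b : ℤ)) * f⁻¹ by group, hn'] at hm'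
      simp only [List.map_cons, List.map_nil, List.prod_cons, List.prod_nil, zpow_neg T m, ← hm']
      group
  · have hE' : ¬ InE T p⁻¹ := fun h => hE (by simpa using h.inv)
    refine hml lam [(f, -a, 1), (p, b, 1), (f⁻¹, a, 1), (f, -b, 1), (p⁻¹, a, 1), (f⁻¹, -m, 1)]
      (by simp) ?_ (by simp [hf, hf', hE, hE']) ?_
    · simp [h.inv, h.one, l0, l1, l2, ha', hb', hm]
    · simp only [List.map_cons, List.map_nil, List.prod_cons, List.prod_nil, zpow_neg T m, ← hm']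
      group

end Pool.Agent.P.MP_867493_lc
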