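import Pool.Agent.P.MP_867493_lc.D.Hyp3
import Pool.Agent.P.MP_867493_lc.D.Hyp4

/-!
ROW Hyp5. Control elements from a WPD element.
`tok_of_sep`: `u = f T f⁻¹`, `x = s = T`; `λ₀` bounds `ℓ` on `X` and `T`; `L m ≥ c₃ ((m + 1) λ₀ + 1)`, `α i = L (i + 1)`,
`M m ≥ c₂ (λ + 1)` with `λ = L (m + 1) ℓ u + (m + 1) λ₀`. `P i a = u ^ α i T ^ (M a) u ^ (-α i)`. By induction on a list of elements
of `X`, old control elements and inverses: the product is `h₀ * ∏ P i a * h` over a list of syllables `(i, a, h)` with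
`a ≠ 0`, `i < j`, `ℓ h₀ + ∑ ℓ h ≤ length * λ₀`, such that for consecutive syllables `u ^ (-α i) h u ^ (α i')` is not in `E`
(a new `P i (±1)` in front: if the connector `u ^ (-α i) h₀ u ^ (α i')` lies in `E` then `i = i'` by `conn_not`, `h₀`
commutes with `P i 1` or inverts it, so the syllables merge or cancel). If `p s p⁻¹` is such a product then the syllables
`(j, 1, T⁻¹) :: (j, -1, h₀) :: rest` have product one, against `ml` (`conj_not`, `conn_not`).
`tok_or_virtAb`: `ℓ a = dist o (a • o)`.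
-/

set_option autoImplicit false

namespace Pool.Agent.P.MP_867493_lc

variable {G : Type} [Group G] {ℓ : G → ℝ} {δ : ℝ}

namespace RHyp5

/-- The powers of the control elements. -/
def Pw (u T : G) (α : ℕ → ℕ) (M : ℕ) (i : ℕ) (a : ℤ) : G :=
  u ^ α i * T ^ ((M : ℤ) * a) * (u ^ α i)⁻¹

/-- The value of a list of syllables. -/
def val (u T : G) (α : ℕ → ℕ) (M : ℕ) (S : List (ℕ × ℤ × G)) : G :=
  (S.map fun s => Pw u T α M s.1 s.2.1 * s.2.2).prod

/-- The connector of two syllables is outside `E`. -/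
def Con (u T : G) (α : ℕ → ℕ) (s s' : ℕ × ℤ × G) : Prop :=
  ¬ InE T ((u ^ α s.1)⁻¹ * s.2.2 * u ^ α s'.1)

/-- Normal forms. -/
def NF (ℓ : G → ℝ) (u T : G) (α : ℕ → ℕ) (M j : ℕ) (B : ℝ) (g : G) : Prop :=
  ∃ (h₀ : G) (S : List (ℕ × ℤ × G)), g = h₀ * val u T α M S ∧
    (∀ s ∈ S, s.1 < j ∧ s.2.1 ≠ 0) ∧ ℓ h₀ + (S.map fun s => ℓ s.2.2).sum ≤ B ∧
      S.IsChain (Con u T α)

variable {u T : G} {α : ℕ → ℕ} {M j : ℕ} {B B₀ : ℝ} {g : G}

theorem val_cons (s : ℕ × ℤ × G) (S : List (ℕ × ℤ × G)) :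
    val u T α M (s :: S) = Pw u T α M s.1 s.2.1 * s.2.2 * val u T α M S := by
  simp [val]

theorem sum_nonneg (h : HL ℓ δ) (S : List (ℕ × ℤ × G)) : 0 ≤ (S.map fun s => ℓ s.2.2).sum := by
  induction S with
  | nil => simp
  | cons s S ih =>
    have := h.nonneg s.2.2
    simp only [List.map_cons, List.sum_cons]
    linarith

theorem le_sum (h : HL ℓ δ) (S : List (ℕ × ℤ × G)) :
    ∀ s ∈ S, ℓ s.2.2 ≤ (S.map fun s => ℓ s.2.2).sum := by
  induction S with
  | nil => simp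
  | cons t S ih =>
    intro s hs
    simp only [List.map_cons, List.sum_cons]
    rcases List.mem_cons.1 hs with rfl | hs
    · have := sum_nonneg h S
      linarith
    · have := ih s hs
      have := h.nonneg t.2.2
      linarith

theorem nf_mono (H : NF ℓ u T α M j B g) {B' : ℝ} (hB : B ≤ B') : NF ℓ u T α M j B' g := by
  obtain ⟨h₀, S, h1, h2, h3, h4⟩ := H
  exact ⟨h₀, S, h1, h2, h3.trans hB, h4⟩

theorem nf_X (h : HL ℓ δ) (H : NF ℓ u T α M j B g) (x : G) :
    NF ℓ u T α M j (B + ℓ x) (x * g) := by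
  obtain ⟨h₀, S, h1, h2, h3, h4⟩ := H
  refine ⟨x * h₀, S, by rw [h1, mul_assoc], h2, ?_, h4⟩
  have := h.mul x h₀
  linarith

theorem P_add (i : ℕ) (a b : ℤ) : Pw u T α M i a * Pw u T α M i b = Pw u T α M i (a + b) := by
  simp only [Pw, mul_add, zpow_add]
  group

theorem P_zero (i : ℕ) : Pw u T α M i 0 = 1 := by simp [Pw]

theorem P_swap {i : ℕ} {k : G} (hk : InE T ((u ^ α i)⁻¹ * k * u ^ α i)) (a : ℤ) :
    ∃ b : ℤ, Pw u T α M i a * k = k * Pw u T α M i b := by
  rcases hk.inv.zpow with h1 | h1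
  · refine ⟨a, ?_⟩
    have := h1 ((M : ℤ) * a)
    unfold Pw
    conv_rhs => rw [← this]
    group
  · refine ⟨-a, ?_⟩
    have := h1 ((M : ℤ) * a)
    unfold Pw
    rw [mul_neg, ← this]
    group

theorem nf_P (h : HL ℓ δ)
    (hsep : ∀ k, ℓ k ≤ B₀ → ∀ i i', i ≠ i' → ¬ InE T ((u ^ α i)⁻¹ * k * u ^ α i'))
    (H : NF ℓ u T α M j B g) (hB : B ≤ B₀) {i : ℕ} (hi : i < j) {a : ℤ} (ha : a ≠ 0) :
    NF ℓ u T α M j B (Pw u T α M i a * g) := by
  obtain ⟨h₀, S, h1, h2, h3, h4⟩ := H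
  have fresh : ((i, a, h₀) :: S).IsChain (Con u T α) →
      NF ℓ u T α M j B (Pw u T α M i a * g) := by
    intro hc
    refine ⟨1, (i, a, h₀) :: S, by rw [val_cons, h1, one_mul, mul_assoc], ?_, ?_, hc⟩
    · intro s hs
      rcases List.mem_cons.1 hs with rfl | hs
      · exact ⟨hi, ha⟩
      · exact h2 s hs
    · simpa [h.one] using h3
  cases S with
  | nil => exact fresh (by simp)
  | cons s S =>
    by_cases hc : Con u T α (i, a, h₀) s
    · exact fresh (List.IsChain.cons_cons hc h4)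
    · obtain ⟨i', a', h'⟩ := s
      have hE : InE T ((u ^ α i)⁻¹ * h₀ * u ^ α i') := not_not.1 hc
      have hl : ℓ h₀ ≤ B₀ := by
        have := sum_nonneg h ((i', a', h') :: S)
        linarith
      have hii : i = i' := by
        by_contra hne
        exact hsep h₀ hl i i' hne hE
      subst hii
      obtain ⟨b, hb⟩ := P_swap (M := M) hE a
      have hval : Pw u T α M i a * g = h₀ * (Pw u T α M i (b + a') * h' * val u T α M S) := by
        rw [h1, val_cons, ← mul_assoc, hb, ← P_add]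
        simp only [mul_assoc]
      by_cases h0 : b + a' = 0
      · refine ⟨h₀ * h', S, ?_, fun s hs => h2 s (List.mem_cons_of_mem _ hs), ?_, h4.tail⟩
        · rw [hval, h0, P_zero, one_mul, mul_assoc]
        · have := h.mul h₀ h'
          simp only [List.map_cons, List.sum_cons] at h3
          linarith
      · refine ⟨h₀, (i, b + a', h') :: S, by rw [hval, val_cons], ?_, by simpa using h3, ?_⟩
        · intro s hs
          rcases List.mem_cons.1 hs with rfl | hs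
          · exact ⟨hi, h0⟩
          · exact h2 s (List.mem_cons_of_mem _ hs)
        · cases S with
          | nil => simp
          | cons t S =>
            rw [List.isChain_cons_cons] at h4 ⊢
            exact h4

theorem nf_list (h : HL ℓ δ) {lam : ℝ} (hlam : 0 ≤ lam)
    (hsep : ∀ k, ℓ k ≤ B₀ → ∀ i i', i ≠ i' → ¬ InE T ((u ^ α i)⁻¹ * k * u ^ α i'))
    (l : List G) (hl : ∀ x ∈ l, ℓ x ≤ lam ∨ ∃ i, i < j ∧ ∃ a : ℤ, a ≠ 0 ∧ x = Pw u T α M i a)
    (hB : l.length * lam ≤ B₀) : NF ℓ u T α M j (l.length * lam) l.prod := by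
  induction l with
  | nil => exact ⟨1, [], by simp [val], by simp, by simp [h.one], by simp⟩
  | cons x l ih =>
    have e : ((x :: l).length : ℝ) * lam = l.length * lam + lam := by
      simp only [List.length_cons, Nat.cast_add, Nat.cast_one]
      ring
    rw [e] at hB ⊢
    have H := ih (fun y hy => hl y (List.mem_cons_of_mem _ hy)) (by linarith)
    rw [List.prod_cons]
    rcases hl x List.mem_cons_self with hx | ⟨i, hi, a, ha, rfl⟩
    · exact nf_mono (nf_X h H x) (by linarith)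
    · exact nf_mono (nf_P h hsep H (by linarith) hi ha) (by linarith)

theorem val_ne (h : HL ℓ δ) {c₂ A : ℝ}
    (hml : ∀ (lam : ℝ) (l : List (G × ℤ × G)), l ≠ [] →
      (∀ x ∈ l, ℓ x.1 ≤ lam ∧ ℓ x.2.2 ≤ lam ∧ c₂ * (lam + 1) ≤ |(x.2.1 : ℝ)|) →
      (l.IsChain fun x y => ¬ InE T (x.2.2 * y.1)) →
      (l.map fun x => x.1 * T ^ x.2.1 * x.2.2).prod ≠ 1)
    (hA : ∀ i, i ≤ j → ℓ (u ^ α i) ≤ A) (hM : c₂ * (A + B + 1) ≤ M)
    (S : List (ℕ × ℤ × G)) (hS : S ≠ []) (h1 : ∀ s ∈ S, s.1 ≤ j ∧ s.2.1 ≠ 0 ∧ ℓ s.2.2 ≤ B)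
    (h2 : S.IsChain (Con u T α)) : val u T α M S ≠ 1 := by
  have := hml (A + B) (S.map fun s => (u ^ α s.1, (M : ℤ) * s.2.1, (u ^ α s.1)⁻¹ * s.2.2))
    (by simpa using hS) ?_ ?_
  · rw [List.map_map] at this
    intro hv
    apply this
    rw [← hv, val]
    congr 1
    apply List.map_congr_left
    intro s _
    simp only [Function.comp, Pw, mul_assoc]
  · intro x hx
    obtain ⟨s, hs, rfl⟩ := List.mem_map.1 hx
    obtain ⟨k1, k2, k3⟩ := h1 s hs
    have k4 := hA _ k1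
    have k5 := h.nonneg s.2.2
    have k6 := h.mul (u ^ α s.1)⁻¹ s.2.2
    rw [h.inv] at k6
    refine ⟨by dsimp only; linarith, by dsimp only; linarith, hM.trans ?_⟩
    dsimp only
    push_cast
    rw [abs_mul, Nat.abs_cast]
    have k7 : (1 : ℝ) ≤ |(s.2.1 : ℝ)| := by exact_mod_cast Int.one_le_abs k2
    have k8 : (0 : ℝ) ≤ M := Nat.cast_nonneg M
    nlinarith
  · rw [List.isChain_map]
    exact h2

theorem exists_bound (h : HL ℓ δ) (X : List G) : ∃ lam : ℝ, 0 ≤ lam ∧ ∀ x ∈ X, ℓ x ≤ lam := by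
  induction X with
  | nil => exact ⟨0, le_rfl, by simp⟩
  | cons y X ih =>
    obtain ⟨lam, h0, h1⟩ := ih
    refine ⟨lam + ℓ y, add_nonneg h0 (h.nonneg y), fun x hx => ?_⟩
    rcases List.mem_cons.1 hx with rfl | hx
    · linarith
    · have := h1 x hx
      have := h.nonneg y
      linarith

end RHyp5

open RHyp5 in
theorem HL.tok_of_sep (h : HL ℓ δ) {T : G} (hT : Lox ℓ T) (hs : Sep ℓ T) {f : G}
    (hf : ¬ InE T f) : Tok G := by
  obtain ⟨c₂, hc₂, hml⟩ := h.ml hT hs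
  obtain ⟨c₃, hc₃, hcon⟩ := h.conn_not hT hs hf
  have hcj := h.conj_not hT hs hf
  set u := f * T * f⁻¹ with hu
  refine ⟨u, T, T, fun X => ?_⟩
  obtain ⟨lam, hlam, hX⟩ := exists_bound h (T :: X)
  obtain ⟨k₁, hk₁⟩ := exists_nat_ge (c₃ * (lam + 1))
  obtain ⟨k₂, hk₂⟩ := exists_nat_ge (c₂ * (k₁ * ℓ u + lam + 1))
  refine ⟨Polynomial.C k₁ * (Polynomial.X + 1), Polynomial.C k₂ * (Polynomial.X + 1) ^ 2,
    fun m j hj => ?_⟩
  simp only [Polynomial.eval_mul, Polynomial.eval_C, Polynomial.eval_add, Polynomial.eval_X,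
    Polynomial.eval_one, Polynomial.eval_pow]
  set L := k₁ * (m + 1) with hL
  set M := k₂ * (m + 1) ^ 2 with hM
  set α : ℕ → ℕ := fun i => L * (i + 1) with hα
  set B : ℝ := (m + 1) * lam with hB
  have hm0 : (0 : ℝ) ≤ m := Nat.cast_nonneg m
  have hlu := h.nonneg u
  have hk0 : (0 : ℝ) ≤ k₁ := Nat.cast_nonneg k₁
  have hLB : c₃ * (B + 1) ≤ L := by
    have e : (L : ℝ) = k₁ * (m + 1) := by rw [hL]; push_cast; ring
    have : c₃ * (B + 1) ≤ c₃ * ((lam + 1) * (m + 1)) :=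
      mul_le_mul_of_nonneg_left (by rw [hB]; nlinarith) hc₃
    have h2 : c₃ * (lam + 1) * (m + 1) ≤ k₁ * (m + 1) :=
      mul_le_mul_of_nonneg_right hk₁ (by linarith)
    rw [e]
    nlinarith
  have hL0 : (0 : ℝ) ≤ L := Nat.cast_nonneg L
  have hαc : ∀ i, (α i : ℝ) = L * (i + 1) := fun i => by rw [hα]; push_cast; ring
  have hkL : ∀ k, ℓ k ≤ B → c₃ * (ℓ k + 1) ≤ L := fun k hk =>
    (mul_le_mul_of_nonneg_left (by linarith) hc₃).trans hLB
  have hkα : ∀ k, ℓ k ≤ B → ∀ i, c₃ * (ℓ k + 1) ≤ α i := fun k hk i => by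
    have := hkL k hk
    have hi : (0 : ℝ) ≤ i := Nat.cast_nonneg i
    rw [hαc]
    nlinarith
  have hsep : ∀ k, ℓ k ≤ B → ∀ i i', i ≠ i' → ¬ InE T ((u ^ α i)⁻¹ * k * u ^ α i') := by
    intro k hk i i' hne
    refine hcon k _ _ (hkα k hk i) (hkα k hk i') (Or.inl ((hkL k hk).trans ?_))
    have e : (α i : ℝ) - α i' = L * (((i : ℤ) - i' : ℤ) : ℝ) := by
      rw [hαc, hαc]; push_cast; ring
    have k7 : (1 : ℝ) ≤ |(((i : ℤ) - i' : ℤ) : ℝ)| := by
      have k8 : ((i : ℤ) - i') ≠ 0 := by omega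
      rw [← Int.cast_abs, ← Int.cast_one]
      exact Int.cast_le.2 (Int.one_le_abs k8)
    rw [e, abs_mul, abs_of_nonneg hL0]
    nlinarith
  have htk : ∀ i, tk u T (L * (i + 1)) M = Pw u T α M i 1 := fun i => by simp [tk, Pw, hα]
  have hPi : ∀ i a, (Pw u T α M i a)⁻¹ = Pw u T α M i (-a) := fun i a =>
    inv_eq_of_mul_eq_one_right (by rw [P_add, add_neg_cancel, P_zero])
  rintro ⟨l, hl1, hl2, hl3⟩
  have hlen : (l.length : ℝ) * lam ≤ B := by
    have : (l.length : ℝ) ≤ m := by exact_mod_cast hl1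
    rw [hB]
    nlinarith
  have hNF := nf_list (M := M) (j := j) h hlam hsep l (fun x hx => by
    rcases hl2 x hx with hx | hx
    · rcases List.mem_append.1 hx with hx | hx
      · exact Or.inl (hX x (List.mem_cons_of_mem _ hx))
      · obtain ⟨i, hi, rfl⟩ := List.mem_map.1 hx
        exact Or.inr ⟨i, List.mem_range.1 hi, 1, one_ne_zero, htk i⟩
    · rcases List.mem_append.1 hx with hx | hx
      · exact Or.inl (h.inv x ▸ hX _ (List.mem_cons_of_mem _ hx))
      · obtain ⟨i, hi, he⟩ := List.mem_map.1 hx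
        refine Or.inr ⟨i, List.mem_range.1 hi, -1, by norm_num, ?_⟩
        rw [← hPi, ← htk, he, inv_inv]) hlen
  obtain ⟨h₀, S, h1, h2, h3, h4⟩ := hNF
  have hS0 := sum_nonneg h S
  have hh0 := h.nonneg h₀
  have hTB : ℓ T⁻¹ ≤ B := by
    have := hX T List.mem_cons_self
    rw [h.inv, hB]
    nlinarith
  refine val_ne (u := u) (α := α) (M := M) (j := j) (B := B) (A := L * (m + 1) * ℓ u) h hml
    (fun i hi => (h.pow_le u _).trans ?_) ?_ ((j, 1, T⁻¹) :: (j, -1, h₀) :: S) (by simp) ?_ ?_ ?_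
  · have : (i : ℝ) ≤ m := by exact_mod_cast hi.trans hj
    rw [hαc]
    exact mul_le_mul_of_nonneg_right (mul_le_mul_of_nonneg_left (by linarith) hL0) hlu
  · have e : (L : ℝ) = k₁ * (m + 1) := by rw [hL]; push_cast; ring
    have e' : (M : ℝ) = k₂ * (m + 1) ^ 2 := by rw [hM]; push_cast; ring
    have q : (L : ℝ) * (m + 1) * ℓ u + B + 1 ≤ (k₁ * ℓ u + lam + 1) * (m + 1) ^ 2 := by
      rw [e, hB]
      nlinarith [mul_nonneg hlam hm0, mul_nonneg (mul_nonneg hlam hm0) hm0, sq_nonneg (m : ℝ)]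
    have q2 := mul_le_mul_of_nonneg_left q hc₂
    have q3 := mul_le_mul_of_nonneg_right hk₂ (sq_nonneg ((m : ℝ) + 1))
    rw [e']
    nlinarith
  · intro s hs'
    rcases List.mem_cons.1 hs' with rfl | hs'
    · exact ⟨le_rfl, one_ne_zero, hTB⟩
    rcases List.mem_cons.1 hs' with rfl | hs'
    · exact ⟨le_rfl, by norm_num, by dsimp only; linarith⟩
    · have := le_sum h S s hs'
      exact ⟨(h2 s hs').1.le, (h2 s hs').2, by linarith⟩
  · refine List.IsChain.cons_cons ?_ ?_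
    · refine hcon T⁻¹ _ _ (hkα _ hTB j) (hkα _ hTB j) (Or.inr fun hE => hcj ?_)
      have := hE.inv
      simpa [mul_assoc] using this
    · cases S with
      | nil => simp
      | cons t S =>
        exact List.IsChain.cons_cons
          (hsep h₀ (by linarith) j t.1 (h2 t List.mem_cons_self).1.ne') h4
  · rw [val_cons, val_cons]
    dsimp only
    rw [mul_assoc (Pw u T α M j (-1)), ← h1, hl3, htk, ← hPi]
    group

theorem tok_or_virtAb (h : HasWPD G) : Tok G ∨ VirtAb G := by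
  obtain ⟨X, _, _, δ, o, g, hiso, hhyp, hlox, hwpd⟩ := h
  have hd : ∀ a b : G, dist o ((a⁻¹ * b) • o) = dist (a • o) (b • o) := fun a b => by
    rw [← hiso a, smul_smul, mul_inv_cancel_left]
  have hgp : ∀ a b : G, gp (fun a : G => dist o (a • o)) a b = gromov (a • o) (b • o) o :=
    fun a b => by
      simp only [gp, gromov, hd]
      rw [dist_comm o (a • o), dist_comm o (b • o)]
  have hHL : HL (fun a : G => dist o (a • o)) δ := by
    refine ⟨by simp, fun a => ?_, fun a b => ?_, fun a b c => ?_⟩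
    · have := hd a 1
      rw [mul_one, one_smul] at this
      rw [this, dist_comm]
    · have := hiso a o (b • o)
      rw [smul_smul] at this
      rw [← this]
      exact dist_triangle _ _ _
    · rw [hgp, hgp, hgp]
      exact hhyp _ _ _ _
  have hW : Wpd (fun a : G => dist o (a • o)) g := fun ε => by
    obtain ⟨M, hM⟩ := hwpd ε
    refine ⟨M, hM.subset fun k hk => ⟨hk.1, ?_⟩⟩
    have := hk.2
    simp only [mul_assoc] at this
    rw [hd, mul_smul] at this
    exact this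
  have hL : Lox (fun a : G => dist o (a • o)) g := hlox
  obtain ⟨N, hN, hsep⟩ := hHL.exists_sep hL hW
  by_cases hE : ∀ c, InE (g ^ N) c
  · exact Or.inr (hHL.virtAb_of_inE hL hW hN hE)
  · obtain ⟨f, hf⟩ := not_forall.1 hE
    refine Or.inl (hHL.tok_of_sep ?_ hsep hf)
    obtain ⟨τ, c, hτ, hc⟩ := hL
    refine ⟨τ, c, hτ, fun n => ?_⟩
    have h1 := hc (N * n)
    rw [pow_mul] at h1
    refine le_trans ?_ h1
    have h2 : (n : ℝ) ≤ ((N * n : ℕ) : ℝ) := by exact_mod_cast Nat.le_mul_of_pos_left n hN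
    nlinarith

end Pool.Agent.P.MP_867493_lc
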