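import Pool.Agent.P.MP_867493_lc.Defs

/-! The classes of groups in the deterministic theorem. -/

set_option autoImplicit false

namespace Pool.Agent.P.MP_867493_lc

/-- Virtually abelian groups. -/
def VirtAb (G : Type) [Group G] : Prop :=
  ∃ K : Subgroup G, K.FiniteIndex ∧ ∀ a ∈ K, ∀ b ∈ K, a * b = b * a

/-- Elementary amenable groups: the smallest class that contains the finite and the abelian groups
and is closed under subgroups, quotients, extensions and directed unions. -/
def IsEA (G : Type) [Group G] : Prop :=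
  ∀ C : (H : Type) → [Group H] → Prop,
    (∀ (H : Type) [Group H], Finite H → C H) →
    (∀ (H : Type) [Group H], (∀ a b : H, a * b = b * a) → C H) →
    (∀ (H H' : Type) [Group H] [Group H'] (f : H →* H'), Function.Injective f → C H' → C H) →
    (∀ (H H' : Type) [Group H] [Group H'] (f : H →* H'), Function.Surjective f → C H → C H') →
    (∀ (H : Type) [Group H] (N : Subgroup H) [N.Normal], C N → C (H ⧸ N) → C H) →
    (∀ (H : Type) [Group H] (S : Set (Subgroup H)), DirectedOn (· ≤ ·) S →
      (∀ h : H, ∃ K ∈ S, h ∈ K) → (∀ K ∈ S, C K) → C H) →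
    C G

/-- The Gromov product of `x` and `y` based at `w`. -/
noncomputable def gromov {X : Type} [MetricSpace X] (x y w : X) : ℝ :=
  (dist x w + dist y w - dist x y) / 2

/-- `G` acts by isometries on a Gromov hyperbolic metric space with a loxodromic element `g` that
satisfies the weak proper discontinuity condition of Bestvina and Fujiwara. -/
def HasWPD (G : Type) [Group G] : Prop :=
  ∃ (X : Type) (_ : MetricSpace X) (_ : MulAction G X) (δ : ℝ) (o : X) (g : G),
    (∀ (a : G) (x y : X), dist (a • x) (a • y) = dist x y) ∧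
    (∀ x y z w : X, min (gromov x y w) (gromov y z w) - δ ≤ gromov x z w) ∧
    (∃ τ c : ℝ, 0 < τ ∧ ∀ n : ℕ, τ * n - c ≤ dist o (g ^ n • o)) ∧
    ∀ ε : ℝ, ∃ M : ℕ,
      {h : G | dist o (h • o) ≤ ε ∧ dist (g ^ M • o) (h • g ^ M • o) ≤ ε}.Finite

/-- Elementary amenable, or with a loxodromic WPD element, or with a commutator subgroup that is
not finitely generated. -/
def Nice (G : Type) [Group G] : Prop := IsEA G ∨ HasWPD G ∨ ¬ (commutator G).FG

/-- Polynomial growth, or nice, or a subgroup of finite index maps onto a nice group that is not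
virtually abelian. -/
def Cls {G : Type} [Group G] (xs : List G) : Prop :=
  (∃ q : Polynomial ℕ, ∀ n, (ball xs n).ncard ≤ q.eval n) ∨ Nice G ∨
  ∃ (K : Subgroup G) (Γ : Type) (_ : Group Γ) (φ : K →* Γ), K.FiniteIndex ∧
    Function.Surjective φ ∧ Nice Γ ∧ ¬ VirtAb Γ

end Pool.Agent.P.MP_867493_lc
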