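import Pool.Agent.P.MP_867493_lc.Final
import Pool.Agent.P.MP_867493_lc.D.Stmt

/-! Internal definitions for the deterministic theorem. -/

set_option autoImplicit false

namespace Pool.Agent.P.MP_867493_lc

open Pool.Agent.Lib.NP

/-- An arc of a layered graph: tail, head, label. -/
abbrev Arc := ℕ × ℕ × Wd

section

variable {G : Type} [Group G]

/-- Values of the paths from `s` that use exactly one arc of every layer. -/
def LP (xs : List G) (s : ℕ) (ls : List (List Arc)) : ℕ → Set G :=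
  ls.foldl (fun S l v => {h | ∃ a ∈ l, a.2.1 = v ∧ h * (ev xs a.2.2)⁻¹ ∈ S a.1})
    (fun v => {h | v = s ∧ h = 1})

theorem mem_LP_nil (xs : List G) (s v : ℕ) (h : G) : h ∈ LP xs s [] v ↔ v = s ∧ h = 1 := Iff.rfl

theorem mem_LP_snoc (xs : List G) (s : ℕ) (ls : List (List Arc)) (l : List Arc) (v : ℕ) (h : G) :
    h ∈ LP xs s (ls ++ [l]) v ↔ ∃ a ∈ l, a.2.1 = v ∧ h * (ev xs a.2.2)⁻¹ ∈ LP xs s ls a.1 := by
  simp only [LP, List.foldl_append, List.foldl_cons, List.foldl_nil]; rfl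

/-- Subset sum is decidable in polynomial time. -/
def Orc (xs : List G) : Prop :=
  ∃ f : List Wd × Wd → Bool, PT f ∧ ∀ I, f I = true ↔ SSP xs I

/-- The path problem is decidable in polynomial time. -/
def DSolv (xs : List G) : Prop :=
  ∃ sol : Vx × Vx × List Ed → Bool, PT sol ∧
    ∀ s t E, sol (s, t, E) = true ↔ (1 : G) ∈ DP xs s E t

/-- The layered path problem is decidable in polynomial time. -/
def LSolv (xs : List G) : Prop :=
  ∃ sol : ℕ × ℕ × List (List Arc) → Bool, PT sol ∧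
    ∀ s t ls, sol (s, t, ls) = true ↔ (1 : G) ∈ LP xs s ls t

/-- The control elements. -/
def tk (u x : G) (a b : ℕ) : G := u ^ a * x ^ b * (u ^ a)⁻¹

/-- The Gromov product for a length function. -/
noncomputable def gp (ℓ : G → ℝ) (a b : G) : ℝ := (ℓ a + ℓ b - ℓ (a⁻¹ * b)) / 2

/-- A hyperbolic length function. -/
structure HL (ℓ : G → ℝ) (δ : ℝ) : Prop where
  one : ℓ 1 = 0
  inv : ∀ a, ℓ a⁻¹ = ℓ a
  mul : ∀ a b, ℓ (a * b) ≤ ℓ a + ℓ b
  hyp : ∀ a b c, min (gp ℓ a b) (gp ℓ b c) - δ ≤ gp ℓ a c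

/-- A loxodromic element. -/
def Lox (ℓ : G → ℝ) (g : G) : Prop := ∃ τ c : ℝ, 0 < τ ∧ ∀ n : ℕ, τ * n - c ≤ ℓ (g ^ n)

/-- Weak proper discontinuity. -/
def Wpd (ℓ : G → ℝ) (g : G) : Prop :=
  ∀ ε : ℝ, ∃ M : ℕ, {h : G | ℓ h ≤ ε ∧ ℓ ((g ^ M)⁻¹ * h * g ^ M) ≤ ε}.Finite

/-- `c` centralises or inverts `T`. -/
def InE (T c : G) : Prop := c * T * c⁻¹ = T ∨ c * T * c⁻¹ = T⁻¹

/-- Translates of the axis of `T` by elements outside `InE T` have linearly bounded overlap. -/
def Sep (ℓ : G → ℝ) (T : G) : Prop :=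
  ∃ c₁ : ℝ, ∀ c, ¬ InE T c → ∀ a b : ℤ, gp ℓ (T ^ a) (c * T ^ b) ≤ c₁ * (ℓ c + 1)

/-- A factor of the area reduction: amount, slope, label. -/
abbrev Fac := ℤ × ℕ × Wd

/-- The value of a factor. -/
def fac (xs : List G) (x y : G) (L : ℕ) (f : Fac) : G :=
  (x * y ^ f.2.1) ^ ((L : ℤ) * f.1) * ev xs f.2.2

end

/-- Total amount, weighted amount and area of a list of factors. -/
def st (F : List Fac) : ℤ × ℤ × ℤ :=
  F.foldl (fun s f => (s.1 + f.1, s.2.1 + f.1 * f.2.1, s.2.2 + f.1 * (f.2.1 * s.1 - s.2.1)))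
    (0, 0, 0)

/-- The signed amount of the state `u` in the layer `i`. -/
def amt (i u : ℕ) : ℤ := (-1) ^ i * (u + 1)

/-- The arcs with the indices of their layers. -/
def idx (ls : List (List Arc)) : List (ℕ × Arc) :=
  (List.range ls.length).flatMap fun i => (ls.getD i []).map fun a => (i, a)

/-- The factors of a list of chosen arcs. -/
def facs (ch : List (ℕ × Arc)) : List Fac :=
  ch.flatMap fun c => [(-amt c.1 c.2.1, c.1, c.2.2.2), (amt (c.1 + 1) c.2.2.1, c.1 + 1, [])]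

/-- Explicit control elements. -/
def Tok (G : Type) [Group G] : Prop :=
  ∃ u x s : G, ∀ X : List G, ∃ L M : Polynomial ℕ, ∀ m j : ℕ, j ≤ m →
    ¬ IsProd (X ++ (List.range j).map fun i => tk u x (L.eval m * (i + 1)) (M.eval m)) m
      (tk u x (L.eval m * (j + 1)) (M.eval m) * s * (tk u x (L.eval m * (j + 1)) (M.eval m))⁻¹)

/-- An area function with its alternating form. -/
structure IsArea {G : Type} [Group G] (A : G → ℝ) (ω : G → G → ℝ) (x y : G) : Prop where
  mul : ∀ g h, A (g * h) = A g + A h + ω g h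
  left : ∀ g h k, ω (g * h) k = ω g k + ω h k
  anti : ∀ g h, ω g h = -ω h g
  ne : ω x y = 1

/-- The group has an area function. -/
def Heis (G : Type) [Group G] : Prop :=
  ∃ (A : G → ℝ) (ω : G → G → ℝ) (x y : G), IsArea A ω x y

/-- A subgroup of finite index has control elements or an area function. -/
def VT (G : Type) [Group G] : Prop :=
  ∃ (K : Type) (_ : Group K) (ι : K →* G), Function.Injective ι ∧ ι.range.FiniteIndex ∧
    (Tok K ∨ Heis K)

end Pool.Agent.P.MP_867493_lc
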