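import Pool.Agent.P.MP_867493_lc.D.Trans
import Pool.Agent.P.MP_867493_lc.D.Eig
import Pool.Agent.P.MP_867493_lc.D.Height
import Pool.Agent.P.MP_867493_lc.D.HeisD

/-! Groups with a commutative commutator subgroup: induction on the rank. -/

set_option autoImplicit false

namespace Pool.Agent.P.MP_867493_lc

namespace RMab

theorem rank_lt {A k : Type} [AddCommGroup A] [Module.Finite ℤ A] [Field k] [CharZero k]
    (f : A →ₗ[ℤ] k) (a : A) (ha : f a ≠ 0) (N : Submodule ℤ A) (hN : N ≤ LinearMap.ker f) :
    Module.finrank ℤ N < Module.finrank ℤ A := by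
  have h1 := (LinearMap.ker f).finrank_quotient_add_finrank
  have h2 := f.quotKerEquivRange.finrank_eq
  have : Nontrivial (LinearMap.range f) :=
    ⟨⟨⟨f a, a, rfl⟩, 0, fun h => ha (congrArg Subtype.val h)⟩⟩
  have h3 : 0 < Module.finrank ℤ (LinearMap.range f) := Module.finrank_pos
  have h4 := LinearMap.finrank_le_finrank_of_injective (Submodule.inclusion_injective hN)
  omega

theorem comm_sub {G : Type} [Group G] (K : Subgroup G) (b : K) (hb : b ∈ commutator K) :
    (b : G) ∈ commutator G := by
  have h : (commutator K).map K.subtype ≤ commutator G := by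
    rw [commutator_def, Subgroup.map_commutator]
    exact Subgroup.commutator_mono le_top le_top
  exact h ⟨b, hb, rfl⟩

theorem step (n : ℕ) : ∀ (G : Type) [Group G] [Group.FG G], ¬ VT G →
    ∀ (A : Type) [AddCommGroup A] [Module.Finite ℤ A] (j : Multiplicative A →* G),
      Function.Injective j → commutator G ≤ j.range → Module.finrank ℤ A < n → VirtAb G := by
  induction n with
  | zero => intro G _ _ _ A _ _ j _ _ h; omega
  | succ n ih =>
    intro G _ _ h A _ _ j hj hB hn
    have hN : j.range.Normal := ⟨fun b hb g => by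
      have := j.range.mul_mem (hB (Subgroup.commutator_mem_commutator (Subgroup.mem_top g)
        (Subgroup.mem_top b))) hb
      simpa [commutatorElement_def] using this⟩
    have hc : ∀ a ∈ j.range, ∀ b ∈ j.range, a * b = b * a := by
      rintro _ ⟨a, rfl⟩ _ ⟨b, rfl⟩
      rw [← map_mul, ← map_mul, mul_comm]
    have : AddGroup.FG A := Module.Finite.iff_addGroup_fg.1 inferInstance
    have hfg : j.range.FG := (Group.fg_iff_subgroup_fg _).1 inferInstance
    by_cases hfin : (j.range : Set G).Finite
    · exact virtAb_of_finite (hfin.subset hB)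
    obtain ⟨φ, χ, hadd, hne, hχ, hint⟩ := exists_eig j.range hB hc hfg hfin
    have : Algebra.IsAlgebraic ℚ (AlgebraicClosure ℚ) := AlgebraicClosure.isAlgebraic ℚ
    let σ₀ : AlgebraicClosure ℚ →ₐ[ℚ] ℂ := IsAlgClosed.lift
    have h1 : ∀ (t : G) (σ : AlgebraicClosure ℚ →+* ℂ), ‖σ (χ t)‖ = 1 := by
      intro t σ
      by_contra ht
      obtain ⟨b, hb, hb'⟩ := hne
      exact h (VT.of_tok (tok_of_aff j.range hB (fun g => σ (φ g)) (σ.toMonoidHom.comp χ)
        (fun a ha b hb => by rw [hadd a ha b hb, map_add])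
        (fun g b hb => by rw [hχ g b hb, map_mul]; rfl)
        ⟨b, hb, by simpa using hb'⟩ ⟨t, ht⟩))
    have : Finite χ.toHomUnits.range := by
      refine CommGroup.finite_of_fg_isMulTorsion _ ?_
      rintro ⟨_, t, rfl⟩
      obtain ⟨m, hm, hm'⟩ := kronecker (χ t) (hint t) (h1 t)
      refine isOfFinOrder_iff_pow_eq_one.2 ⟨m, hm, Subtype.ext (Units.ext ?_)⟩
      simpa using hm'
    let K := χ.toHomUnits.ker
    have hK : ∀ g : K, χ g = 1 := fun g => by
      simpa using congrArg Units.val (MonoidHom.mem_ker.1 g.2)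
    have hv : ¬ VT K := fun h' => h (VT.of_subgroup K h')
    have hs : ∀ b ∈ commutator K, (b : G) ∈ j.range := fun b hb => hB (comm_sub K b hb)
    have key : ∀ r : ℂ →+ ℝ, ∀ b ∈ commutator K, r (σ₀ (φ b)) = 0 := by
      intro r b hb
      by_contra hr
      refine hv (VT.of_heis (heis_of_inv (fun g : K => r (σ₀ (φ g))) (fun a ha b hb => ?_)
        (fun g b hb => ?_) ⟨b, hb, hr⟩))
      · simp only [Subgroup.coe_mul]
        rw [hadd _ (hs a ha) _ (hs b hb), map_add, map_add]
      · simp only [Subgroup.coe_mul, Subgroup.coe_inv]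
        rw [hχ _ _ (hs b hb), hK, one_mul]
    have hz : ∀ b ∈ commutator K, φ b = 0 := by
      intro b hb
      have h2 : σ₀ (φ b) = 0 :=
        Complex.ext (key Complex.reAddGroupHom b hb) (key Complex.imAddGroupHom b hb)
      simpa using h2
    let f : A →ₗ[ℤ] AlgebraicClosure ℚ := (AddMonoidHom.mk' (fun a => φ (j (.ofAdd a)))
      fun a b => by rw [ofAdd_add, map_mul]; exact hadd _ ⟨_, rfl⟩ _ ⟨_, rfl⟩).toIntLinearMap
    let N : Submodule ℤ A :=
      LinearMap.ker f ⊓ AddSubgroup.toIntSubmodule (Subgroup.toAddSubgroup' (K.comap j))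
    let j' : Multiplicative N →* K :=
      { toFun := fun a => ⟨j (.ofAdd (a.toAdd : A)), a.toAdd.2.2⟩
        map_one' := Subtype.ext (by simp)
        map_mul' := fun a b => Subtype.ext (by simp) }
    obtain ⟨_, ⟨a, rfl⟩, ha⟩ := hne
    have hlt := rank_lt f a.toAdd ha N inf_le_left
    refine VirtAb.of_subgroup K (ih K hv N j' (fun a b hab => ?_) (fun b hb => ?_) (by omega))
    · exact Subtype.ext (hj (congrArg Subtype.val hab))
    · obtain ⟨c, hc'⟩ := hs b hb
      refine ⟨.ofAdd ⟨c.toAdd, ?_, ?_⟩, Subtype.ext hc'⟩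
      · show φ (j c) = 0
        rw [hc']; exact hz b hb
      · show j c ∈ K
        rw [hc']; exact b.2

end RMab

theorem virtAb_of_mab (G : Type) [Group G] [Group.FG G] (h : ¬ VT G) (hfg : (commutator G).FG)
    (hc : ∀ a ∈ commutator G, ∀ b ∈ commutator G, a * b = b * a) : VirtAb G := by
  let _ : CommGroup (commutator G) :=
    { (inferInstance : Group (commutator G)) with
      mul_comm := fun a b => Subtype.ext (hc a a.2 b b.2) }
  have : Group.FG (commutator G) := (Group.fg_iff_subgroup_fg _).2 hfg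
  have : Module.Finite ℤ (Additive (commutator G)) := Module.Finite.iff_addGroup_fg.2 inferInstance
  exact RMab.step _ G h (Additive (commutator G)) (commutator G).subtype
    (commutator G).subtype_injective (fun b hb => ⟨⟨b, hb⟩, rfl⟩) (Nat.lt_succ_self _)

end Pool.Agent.P.MP_867493_lc
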