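import Pool.Agent.P.MP_867493_lc.D.IDefs

/-!
ROW TokS. Explicit control elements give a deterministic solver. Take `ys = s :: xs`, words `wu`, `wx` over `ys` for `u`, `x`
(`exists_word`), `L`, `M` for `X = ys`. For an instance `E` put `n0 = E.length`, `N = lab E`, `K = 6 N + 28 n0 + 30`,
`m = K + 3 n0 + 9`, `p j` = the word of `tk u x (L m * (j + 1)) (M m)` (`List.replicate`, `flatten`, `invW`), `d = 1`,
`sel i = (3 i + 4, 3 i + 5, 0)`, `ν t = nrm (ys ++ values of p j, j < t)`. Prove `Ctrl ys 1 p sel ν n0 K` as in `ctrl_of_chk`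
(Ctl.lean) and use `Ctrl.red_sound`, `red_complete`, `pt_gads`, `pt_tok` as in `solvable_of_growth` (Solve.lean).
-/

set_option autoImplicit false

namespace Pool.Agent.P.MP_867493_lc

open Pool.Agent.Lib.NP

variable {G : Type} [Group G]

namespace RTokS

theorem ev_rep (ys : List G) (w : Wd) (n : ℕ) :
    ev ys (List.replicate n w).flatten = ev ys w ^ n := by
  induction n with
  | zero => simp
  | succ n ih => rw [List.replicate_succ, List.flatten_cons, ev_append, ih, pow_succ']

/-- The word of a control element. -/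
def pw (wu wx : Wd) (a b : ℕ) : Wd :=
  (List.replicate a wu).flatten ++ (List.replicate b wx).flatten ++
    invW (List.replicate a wu).flatten

theorem ev_pw (ys : List G) (wu wx : Wd) (a b : ℕ) :
    ev ys (pw wu wx a b) = tk (ev ys wu) (ev ys wx) a b := by
  simp only [pw, tk, ev_append, ev_invW, ev_rep]

theorem pt_pw {α : Type} [Enc α] (wu wx : Wd) {a b : α → ℕ} (ha : PT a) (hb : PT b) :
    PT (fun z => pw wu wx (a z) (b z)) := by
  have h1 : PT (fun z => (List.replicate (a z) wu).flatten) := (ha.replicate (PT.const _)).flatten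
  have h2 : PT (fun z => (List.replicate (b z) wx).flatten) := (hb.replicate (PT.const _)).flatten
  exact (h1.append h2).append (pt_invW h1)

theorem ctrl (ys : List G) (hys : Subgroup.closure {x | x ∈ ys} = ⊤) (s : G)
    (hs : ys.getD 0 1 = s) (q : ℕ → G) (p : ℕ → Wd) (hp : ∀ j, ev ys (p j) = q j) (m n0 K : ℕ)
    (hm : K ≤ m) (hn : 3 * n0 + 9 ≤ m)
    (h : ∀ j ≤ m, ¬ IsProd (ys ++ (List.range j).map q) m (q j * s * (q j)⁻¹)) :
    Ctrl ys 1 p (fun i => (3 * i + 4, 3 * i + 5, 0))
      (fun t => nrm (ys ++ (List.range t).map q)) n0 K := by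
  have hlen : ∀ t w, IsProd (ys ++ (List.range t).map q) w.length (ev ys w) := fun t w =>
    isProd_ev ys (MonoidHom.id G) _ (fun j hj => List.mem_append_left _ (by
      rw [MonoidHom.id_apply, List.getD_eq_getElem _ _ hj]; exact List.getElem_mem hj)) w
  have hne : ∀ t g, ∃ k, IsProd (ys ++ (List.range t).map q) k g := fun t g => by
    obtain ⟨w, rfl⟩ := exists_word ys hys g
    exact ⟨_, hlen t w⟩
  have h0 : ev ys [(0, true)] = s := by rw [ev_single, if_pos rfl, hs]
  have hfar : ∀ j ≤ m, K < nrm (ys ++ (List.range j).map q) (q j * s * (q j)⁻¹) := by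
    intro j hj
    by_contra hK
    exact h j hj ((nrm_spec (hne j) _).mono (List.Subset.refl _) ((not_lt.1 hK).trans hm))
  have hfar' : ∀ j ≤ m, K < nrm (ys ++ (List.range j).map q)
      (ev ys (p j ++ [(0, true)] ++ invW (p j))) := by
    intro j hj
    rw [ev_append, ev_append, ev_invW, hp, h0]
    exact hfar j hj
  refine ⟨fun t => isNorm_nrm (hne t), fun t t' g htt => nrm_le ((nrm_spec (hne t) g).mono
    (List.append_subset.2 ⟨List.subset_append_left _ _,
      List.subset_append_of_subset_right _ (List.map_subset _ (List.range_subset.2 htt))⟩) le_rfl),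
    fun t w => nrm_le (hlen t w), fun t j hj => nrm_le (.single ?_), fun i hi => ?_,
    fun i _ => by simp only; omega, fun i _ => by simp only; omega, fun i _ => by simp only; omega,
    fun i hi => hfar' _ (by simp only; omega), fun i hi => hfar' _ (by simp only; omega)⟩
  · rw [hp]
    exact List.mem_append_right _ (List.mem_map_of_mem (List.mem_range.2 hj))
  · have h1 := hfar (i * (1 + 2)) (by omega)
    have hn := isNorm_nrm (hne (i * (1 + 2)))
    have h2 := hn.mul3 (q (i * (1 + 2))) s (q (i * (1 + 2)))⁻¹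
    have h3 := nrm_le (hlen (i * (1 + 2)) [(0, true)])
    rw [h0, List.length_singleton] at h3
    rw [hn.inv] at h2
    simp only [hp]
    omega

end RTokS

theorem dsolv_of_tok (xs : List G) (hxs : Subgroup.closure {x | x ∈ xs} = ⊤) (h : Tok G)
    (ho : ∀ ys : List G, Orc ys) :
    ∃ ys : List G, Subgroup.closure {y | y ∈ ys} = ⊤ ∧ DSolv ys := by
  obtain ⟨u, x, s, h⟩ := h
  have hys : Subgroup.closure {y | y ∈ s :: xs} = ⊤ := by
    rw [eq_top_iff, ← hxs]
    exact Subgroup.closure_mono fun y hy => List.mem_cons_of_mem _ hy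
  refine ⟨s :: xs, hys, ?_⟩
  obtain ⟨wu, rfl⟩ := exists_word (s :: xs) hys u
  obtain ⟨wx, rfl⟩ := exists_word (s :: xs) hys x
  obtain ⟨L, M, h⟩ := h (s :: xs)
  obtain ⟨f, hpt, hf⟩ := ho (s :: xs)
  let m : List Ed → ℕ := fun E => 6 * lab E + 28 * E.length + 30 + 3 * E.length + 9
  have hm : PT m := by
    have h1 : PT lab := by unfold lab; fun_prop
    fun_prop
  let p : Vx × Vx × List Ed → ℕ → Wd := fun z j =>
    RTokS.pw wu wx (L.eval (m z.2.2) * (j + 1)) (M.eval (m z.2.2))
  have hm' : PT (fun z : (Vx × Vx × List Ed) × ℕ => m z.1.2.2) := hm.comp (by fun_prop)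
  have hp : PT (fun z : (Vx × Vx × List Ed) × ℕ => p z.1 z.2) :=
    RTokS.pt_pw wu wx ((hm'.polyEval L).mul (by fun_prop)) (hm'.polyEval M)
  have hg := pt_gads 1 (p := p) (sel := fun _ i => (3 * i + 4, 3 * i + 5, 0)) (s := fun z => z.1)
    (E := fun z => z.2.2) hp (by fun_prop) (by fun_prop) (by fun_prop)
  have ht := pt_tok 1 (p := p) (s := fun z => z.1) (v := fun z => z.2.1) (E := fun z => z.2.2)
    hp (by fun_prop) (by fun_prop) (by fun_prop)
  refine ⟨fun z => f (gads 1 (p z) (fun i => (3 * i + 4, 3 * i + 5, 0)) z.1 z.2.2,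
    tok 1 (p z) z.1 z.2.2 z.2.1), hpt.comp (hg.mk ht), fun a t E => ?_⟩
  have C := RTokS.ctrl (s :: xs) hys s rfl
    (fun j => tk (ev (s :: xs) wu) (ev (s :: xs) wx) (L.eval (m E) * (j + 1)) (M.eval (m E)))
    (p (a, t, E)) (fun j => RTokS.ev_pw _ _ _ _ _) (m E) E.length
    (6 * lab E + 28 * E.length + 30) (by simp only [m]; omega) (by simp only [m]; omega)
    (fun j hj => h (m E) j hj)
  rw [hf]
  constructor
  · rintro ⟨l, hl, hl'⟩
    exact C.red_sound (lab E) le_rfl a E le_rfl l hl t 1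
      (by rw [(C.norm 0).one]; omega) (by rw [one_mul]; exact hl')
  · intro h3
    obtain ⟨l, hl, hl'⟩ := red_complete (s :: xs) 1 (p (a, t, E))
      (fun i => (3 * i + 4, 3 * i + 5, 0)) a E t 1 h3
    exact ⟨l, hl, by rw [hl', one_mul]⟩

end Pool.Agent.P.MP_867493_lc
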