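import Pool.Agent.P.MP_867493_lc.D.Conv
import Pool.Agent.P.MP_867493_lc.D.Fin
import Pool.Agent.P.MP_867493_lc.D.Coset
import Pool.Agent.P.MP_867493_lc.D.TokS
import Pool.Agent.P.MP_867493_lc.D.HeisS
import Pool.Agent.P.MP_867493_lc.D.EA
import Pool.Agent.P.MP_867493_lc.D.Hyp5

/-! Assembly of the deterministic theorem. -/

set_option autoImplicit false

namespace Pool.Agent.P.MP_867493_lc

open Pool.Agent.Lib.NP

variable {G : Type} [Group G]

theorem fg_of_list (xs : List G) (hxs : Subgroup.closure {x | x ∈ xs} = ⊤) : Group.FG G :=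
  Group.fg_iff.2 ⟨_, hxs, xs.finite_toSet⟩

theorem exists_list (G : Type) [Group G] [h : Group.FG G] :
    ∃ xs : List G, Subgroup.closure {x | x ∈ xs} = ⊤ := by
  obtain ⟨S, h1, h2⟩ := Group.fg_iff.1 h
  exact ⟨h2.toFinset.toList, by simpa using h1⟩

theorem virtAb_of_nice [Group.FG G] (h : ¬ VT G) (hG : Nice G) : VirtAb G := by
  rcases hG with hG | hG | hG
  · exact virtAb_of_isEA G h hG
  · exact (tok_or_virtAb hG).resolve_left fun h1 => h (VT.of_tok h1)
  · exact absurd (commutator_fg fun h1 => h (VT.of_tok h1)) hG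

theorem lsolv_of_vt (xs : List G) (hxs : Subgroup.closure {x | x ∈ xs} = ⊤) (ho : Orc xs)
    (h : VT G) : LSolv xs := by
  obtain ⟨K, _, ι, h1, h2, h3⟩ := h
  have := fg_of_list xs hxs
  have : Group.FG K := Group.fg_of_surjective
    (f := (MonoidHom.ofInjective h1).symm.toMonoidHom) (MonoidHom.ofInjective h1).symm.surjective
  obtain ⟨ys, hys⟩ := exists_list K
  have hoK := fun zs : List K => orc_sub ι h1 xs hxs zs ho
  rcases h3 with h3 | h3
  · obtain ⟨zs, h4, h5⟩ := dsolv_of_tok ys hys h3 hoK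
    exact lsolv_of_findex ι h1 h2 xs zs h4 (lsolv_of_dsolv zs h5)
  · exact lsolv_of_findex ι h1 h2 xs ys hys (lsolv_of_heis ys hys h3 (hoK ys))

theorem lsolv_of_virtAb (xs : List G) (hxs : Subgroup.closure {x | x ∈ xs} = ⊤) (ho : Orc xs)
    (h : VirtAb G) : LSolv xs := by
  obtain ⟨K, h1, h2⟩ := h
  have := fg_of_list xs hxs
  obtain ⟨ys, hys⟩ := exists_list K
  refine lsolv_of_findex K.subtype K.subtype_injective (by simpa using h1) xs ys hys
    (lsolv_of_dsolv ys (dsolv_of_poly ys (orc_sub K.subtype K.subtype_injective xs hxs ys ho)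
      ((2 * Polynomial.X + 1) ^ ys.length) fun n => ?_))
  simpa using ball_le_of_comm ys (fun a b => Subtype.ext (h2 a a.2 b b.2)) n

theorem Cls.dsolv (xs : List G) (hxs : Subgroup.closure {x | x ∈ xs} = ⊤) (hc : Cls xs)
    (hp : InP (SSP xs)) : DSolv xs := by
  obtain ⟨f, hf, hf'⟩ := hp
  have ho : Orc xs := ⟨f, pt_of_isPolyTime hf, hf'⟩
  have := fg_of_list xs hxs
  by_cases hv : VT G
  · exact dsolv_of_lsolv xs (lsolv_of_vt xs hxs ho hv)
  rcases hc with ⟨q, hq⟩ | hc | ⟨K, Γ, _, φ, h1, h2, h3, h4⟩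
  · exact dsolv_of_poly xs ho q hq
  · exact dsolv_of_lsolv xs (lsolv_of_virtAb xs hxs ho (virtAb_of_nice hv hc))
  · have : Group.FG Γ := Group.fg_of_surjective h2
    exact absurd (virtAb_of_nice (fun h => hv (VT.of_subgroup K (VT.of_surj φ h2 h))) h3) h4

end Pool.Agent.P.MP_867493_lc
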