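import Pool.Agent.P.MP_867493_lc.D.IDefs

/-! Transfer lemmas. -/

set_option autoImplicit false

namespace Pool.Agent.P.MP_867493_lc

variable {G H : Type} [Group G] [Group H]

theorem Tok.of_surj (φ : G →* H) (hφ : Function.Surjective φ) (h : Tok H) : Tok G := by
  obtain ⟨u, x, s, h⟩ := h
  obtain ⟨u, rfl⟩ := hφ u
  obtain ⟨x, rfl⟩ := hφ x
  obtain ⟨s, rfl⟩ := hφ s
  refine ⟨u, x, s, fun X => ?_⟩
  obtain ⟨L, M, h⟩ := h (X.map φ)
  refine ⟨L, M, fun m j hj => ?_⟩
  rintro ⟨l, hl, hm, hp⟩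
  have e : ∀ a b, φ (tk u x a b) = tk (φ u) (φ x) a b := fun a b => by simp [tk]
  refine h m j hj ⟨l.map φ, by rwa [List.length_map], fun a ha => ?_, ?_⟩
  · obtain ⟨a, ha', rfl⟩ := List.mem_map.1 ha
    simpa only [List.map_append, List.map_map, Function.comp_def, e, map_inv] using
      (hm a ha').imp (List.mem_map_of_mem (f := φ)) (List.mem_map_of_mem (f := φ))
  · rw [← map_list_prod, hp, map_mul, map_mul, map_inv, e]

theorem Heis.of_surj (φ : G →* H) (hφ : Function.Surjective φ) (h : Heis H) : Heis G := by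
  obtain ⟨A, ω, x, y, h⟩ := h
  obtain ⟨x, rfl⟩ := hφ x
  obtain ⟨y, rfl⟩ := hφ y
  exact ⟨fun g => A (φ g), fun g g' => ω (φ g) (φ g'), x, y,
    fun g g' => by rw [map_mul, h.mul], fun g g' k => by rw [map_mul, h.left],
    fun g g' => h.anti _ _, h.ne⟩

theorem VT.of_tok (h : Tok G) : VT G := by
  refine ⟨G, inferInstance, MonoidHom.id G, Function.injective_id, ?_, Or.inl h⟩
  rw [MonoidHom.range_eq_top.2 Function.surjective_id]
  infer_instance

theorem VT.of_heis (h : Heis G) : VT G := by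
  refine ⟨G, inferInstance, MonoidHom.id G, Function.injective_id, ?_, Or.inr h⟩
  rw [MonoidHom.range_eq_top.2 Function.surjective_id]
  infer_instance

theorem VT.of_surj (φ : G →* H) (hφ : Function.Surjective φ) (h : VT H) : VT G := by
  obtain ⟨K, _, ι, hι, hf, h⟩ := h
  have hs : Function.Surjective
      ((MonoidHom.ofInjective hι).symm.toMonoidHom.comp (φ.subgroupComap ι.range)) :=
    (MonoidHom.ofInjective hι).symm.surjective.comp
      (φ.subgroupComap_surjective_of_surjective _ hφ)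
  refine ⟨ι.range.comap φ, inferInstance, Subgroup.subtype _, Subgroup.subtype_injective _, ⟨?_⟩,
    h.imp (Tok.of_surj _ hs) (Heis.of_surj _ hs)⟩
  rw [Subgroup.range_subtype, Subgroup.index_comap_of_surjective _ hφ]
  exact hf.index_ne_zero

theorem VT.of_subgroup (K : Subgroup G) [K.FiniteIndex] (h : VT K) : VT G := by
  obtain ⟨K', _, ι, hι, hf, h⟩ := h
  refine ⟨K', inferInstance, K.subtype.comp ι, K.subtype_injective.comp hι, ⟨?_⟩, h⟩
  rw [MonoidHom.range_comp, Subgroup.index_map_subtype]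
  exact mul_ne_zero hf.index_ne_zero Subgroup.FiniteIndex.index_ne_zero

theorem VirtAb.of_subgroup (K : Subgroup G) [K.FiniteIndex] (h : VirtAb K) : VirtAb G := by
  obtain ⟨K', hf, h⟩ := h
  refine ⟨K'.map K.subtype, ⟨?_⟩, ?_⟩
  · rw [Subgroup.index_map_subtype]
    exact mul_ne_zero hf.index_ne_zero Subgroup.FiniteIndex.index_ne_zero
  · rintro _ ⟨a, ha, rfl⟩ _ ⟨b, hb, rfl⟩
    rw [← map_mul, ← map_mul, h a ha b hb]

theorem virtAb_of_finite [Group.FG G] (h : (commutator G : Set G).Finite) : VirtAb G := by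
  have : Finite (commutatorSet G) := h.subset (by
    rw [commutator_eq_closure]
    exact Subgroup.subset_closure)
  exact ⟨Subgroup.center G, inferInstance, fun a _ b hb => Subgroup.mem_center_iff.1 hb a⟩

theorem RTrans.exists_char (hfg : Group.FG G) (B : Subgroup G) [B.FiniteIndex] :
    ∃ B₀ : Subgroup G, B₀.FiniteIndex ∧ B₀.Characteristic ∧ B₀ ≤ B := by
  obtain ⟨S, hS, hf⟩ := Group.fg_iff.1 hfg
  have := hf.to_subtype
  have : Finite (G →* Equiv.Perm (G ⧸ B)) := Finite.of_injective (fun f (s : S) => f s)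
    fun f g h => MonoidHom.eq_of_eqOn_dense hS fun s hs => congrFun h ⟨s, hs⟩
  refine ⟨⨅ f : G →* Equiv.Perm (G ⧸ B), f.ker, Subgroup.finiteIndex_iInf fun f => inferInstance,
    Subgroup.characteristic_iff_le_comap.2 fun ϕ x hx => Subgroup.mem_iInf.2 fun f =>
      Subgroup.mem_iInf.1 hx (f.comp ϕ.toMonoidHom), (iInf_le _ (MulAction.toPermHom G _)).trans ?_⟩
  rw [← Subgroup.normalCore_eq_ker]
  exact B.normalCore_le

theorem comm_le_of_findex [Group.FG G] (hfg : (commutator G).FG) (B : Subgroup G)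
    (hB : B.relIndex (commutator G) ≠ 0) :
    ∃ K : Subgroup G, K.FiniteIndex ∧ ∀ a ∈ K, ∀ b ∈ K, a * b * a⁻¹ * b⁻¹ ∈ B := by
  have : (B.subgroupOf (commutator G)).FiniteIndex := ⟨hB⟩
  obtain ⟨B₀, h1, h2, h3⟩ := RTrans.exists_char ((Group.fg_iff_subgroup_fg _).2 hfg)
    (B.subgroupOf (commutator G))
  obtain ⟨K, hK, hc⟩ := virtAb_of_finite (G := G ⧸ B₀.map (commutator G).subtype) (by
    let g := (QuotientGroup.mk' (B₀.map (commutator G).subtype)).comp (commutator G).subtype
    have : g.ker.FiniteIndex := Subgroup.finiteIndex_of_le (H := B₀) fun x hx =>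
      (QuotientGroup.eq_one_iff _).2 ⟨x, hx, rfl⟩
    have : Finite g.range := Finite.of_equiv _ (QuotientGroup.quotientKerEquivRange g).toEquiv
    refine (Set.toFinite (g.range : Set _)).subset (le_of_eq ?_)
    rw [MonoidHom.range_comp, Subgroup.range_subtype, map_commutator_eq,
      MonoidHom.range_eq_top.2 (QuotientGroup.mk'_surjective _)]
    rfl)
  refine ⟨K.comap (QuotientGroup.mk' _), ⟨?_⟩, fun a ha b hb => ?_⟩
  · rw [Subgroup.index_comap_of_surjective _ (QuotientGroup.mk'_surjective _)]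
    exact hK.index_ne_zero
  · have e : QuotientGroup.mk' (B₀.map (commutator G).subtype) (a * b * a⁻¹ * b⁻¹) = 1 := by
      rw [map_mul, map_mul, map_mul, hc _ ha _ hb, map_inv, map_inv, mul_inv_cancel_right,
        mul_inv_cancel]
    obtain ⟨x, hx, e'⟩ := (QuotientGroup.eq_one_iff _).1 e
    rw [← e']
    exact h3 hx

end Pool.Agent.P.MP_867493_lc
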